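import Mathlib
import Pool.Agent.P.MP_9ca27c_lc.Defs

-- part Pool.Agent.P.MP_9ca27c_lc.Gen
section

/-! The family of subsets of an `M`-set generated from the whole set by translates,
intersections and equalizers is finite when `M` is finite. -/

namespace Pool.Agent.P.MP_9ca27c_lc

open Set

inductive Gen (M : Type) [Monoid M] {Z : Type} [MulAction M Z] : Set Z → Prop
  | univ : Gen M univ
  | smul (s : M) {Y : Set Z} : Gen M Y → Gen M {z | ∃ y ∈ Y, z = s • y}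
  | inter {Y Y' : Set Z} : Gen M Y → Gen M Y' → Gen M (Y ∩ Y')
  | eq (r r' : M) {Y : Set Z} : Gen M Y → Gen M (Y ∩ {z | r • z = r' • z})

variable {M : Type} [Monoid M] [Finite M] {Z : Type} [MulAction M Z]

def Hi (M : Type) [Monoid M] {Z : Type} [MulAction M Z] (j : ℕ) (Y : Set Z) : Prop :=
  ∀ p : M, (∀ y ∈ Y, ∃ z, y = p • z) → j ≤ (range (fun m : M => m * p)).ncard

theorem gen_step (j : ℕ) (h : {Y : Set Z | Gen M Y ∧ Hi M (j + 1) Y}.Finite) :
    {Y : Set Z | Gen M Y ∧ Hi M j Y}.Finite := by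
  let W : Set (Set Z) := {Y : Set Z | Gen M Y ∧ Hi M (j + 1) Y}
  let B : Set (Set Z) :=
    ((fun q : (M × M) × Set Z => {z | ∃ y ∈ q.2, q.1.1 • z = q.1.2 • y}) '' (univ ×ˢ W)) ∪
      range (fun q : M × M => {z : Z | q.1 • z = q.2 • z})
  have hB : B.Finite := ((finite_univ.prod h).image _).union (finite_range _)
  have hpre : ∀ r : M, ∀ C ∈ B, {z | r • z ∈ C} ∈ B := by
    rintro r C (⟨⟨⟨a, b⟩, Y⟩, ⟨-, hY⟩, rfl⟩ | ⟨⟨a, b⟩, rfl⟩)
    · exact Or.inl ⟨((a * r, b), Y), ⟨trivial, hY⟩, by ext z; simp [mul_smul]⟩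
    · exact Or.inr ⟨(a * r, b * r), by ext z; simp [mul_smul]⟩
  have key : ∀ Y : Set Z, Gen M Y → Hi M j Y → ∃ C ⊆ B, Y = ⋂₀ C := by
    intro Y hY
    induction hY with
    | univ => intro _; exact ⟨∅, empty_subset _, by simp⟩
    | @smul s Y hY ih =>
      intro hH
      have hsub : ∀ p : M, range (fun m : M => m * (s * p)) ⊆ range (fun m : M => m * p) := by
        rintro p _ ⟨m, rfl⟩; exact ⟨m * s, mul_assoc _ _ _⟩
      have hs : ∀ p : M, (∀ y ∈ Y, ∃ z, y = p • z) →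
          j ≤ (range (fun m : M => m * (s * p))).ncard := by
        intro p hp
        apply hH
        rintro _ ⟨y, hy, rfl⟩
        obtain ⟨z, rfl⟩ := hp y hy
        exact ⟨z, (mul_smul _ _ _).symm⟩
      by_cases h1 : Hi M (j + 1) Y
      · refine ⟨{{z | ∃ y ∈ Y, z = s • y}}, ?_, by simp⟩
        rintro _ rfl
        exact Or.inl ⟨((1, s), Y), ⟨trivial, hY, h1⟩, by ext z; simp⟩
      obtain ⟨C, hC, rfl⟩ := ih fun p hp => (hs p hp).trans (ncard_le_ncard (hsub p))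
      simp only [Hi, not_forall, not_le] at h1
      obtain ⟨p, hp, hlt⟩ := h1
      have heq := eq_of_subset_of_ncard_le (hsub p) ((Nat.lt_succ_iff.1 hlt).trans (hs p hp))
      obtain ⟨r, hr⟩ : p ∈ range (fun m : M => m * (s * p)) := by
        rw [heq]; exact ⟨1, one_mul p⟩
      have hr' : r * (s * p) = p := hr
      refine ⟨((fun D => {z | r • z ∈ D}) '' C) ∪ {{z | (s * r) • z = (1 : M) • z}}, ?_, ?_⟩
      · rintro _ (⟨D, hD, rfl⟩ | rfl)
        · exact hpre r D (hC hD)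
        · exact Or.inr ⟨(s * r, 1), rfl⟩
      · ext z
        constructor
        · rintro ⟨y, hy, rfl⟩
          obtain ⟨y₀, hy₀⟩ := hp y hy
          have h2 : r • s • y = y := by rw [hy₀, ← mul_smul, ← mul_smul, mul_assoc, hr']
          rintro _ (⟨D, hD, rfl⟩ | rfl)
          · change r • s • y ∈ D
            rw [h2]; exact hy D hD
          · change (s * r) • s • y = (1 : M) • s • y
            rw [mul_smul, h2, one_smul]
        · intro hz
          refine ⟨r • z, fun D hD => hz _ (Or.inl ⟨D, hD, rfl⟩), ?_⟩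
          have := hz _ (Or.inr rfl)
          simpa [mul_smul] using this.symm
    | @inter Y Y' _ _ ih ih' =>
      intro hH
      by_cases h1 : Hi M j Y
      · by_cases h2 : Hi M j Y'
        · obtain ⟨C, hC, rfl⟩ := ih h1
          obtain ⟨C', hC', rfl⟩ := ih' h2
          exact ⟨C ∪ C', union_subset hC hC', (sInter_union _ _).symm⟩
        · exact absurd (fun p hp => hH p fun y hy => hp y hy.2) h2
      · exact absurd (fun p hp => hH p fun y hy => hp y hy.1) h1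
    | @eq r r' Y _ ih =>
      intro hH
      obtain ⟨C, hC, rfl⟩ := ih fun p hp => hH p fun y hy => hp y hy.1
      refine ⟨C ∪ {{z | r • z = r' • z}}, union_subset hC ?_, by rw [sInter_union, sInter_singleton]⟩
      rintro _ rfl
      exact Or.inr ⟨(r, r'), rfl⟩
  refine (hB.powerset.image sInter).subset ?_
  rintro Y ⟨h1, h2⟩
  obtain ⟨C, hC, rfl⟩ := key Y h1 h2
  exact ⟨C, hC, rfl⟩

theorem gen_finite : {Y : Set Z | Gen M Y}.Finite := by
  have key : ∀ k j, Nat.card M + 1 ≤ j + k → {Y : Set Z | Gen M Y ∧ Hi M j Y}.Finite := by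
    intro k
    induction k with
    | zero =>
      intro j hj
      refine finite_empty.subset ?_
      rintro Y ⟨-, h⟩
      have h1 := h 1 fun y _ => ⟨y, (one_smul _ _).symm⟩
      have h2 : (range (fun m : M => m * 1)).ncard ≤ Nat.card M := ncard_le_card _
      omega
    | succ k ih => intro j hj; exact gen_step j (ih (j + 1) (by omega))
  refine (key (Nat.card M + 1) 0 (by omega)).subset fun Y hY => ⟨hY, fun _ _ => Nat.zero_le _⟩

end Pool.Agent.P.MP_9ca27c_lc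
end

-- part Pool.Agent.P.MP_9ca27c_lc.Label
section

/-! Label systems: finite `M`-sets with a rigid monoid of equivariant maps whose induced
preorder has meets and equalizers. -/

namespace Pool.Agent.P.MP_9ca27c_lc

open Set

structure LS (M : Type) [Monoid M] (X : Type) [MulAction M X] where
  E : Set (X → X)
  id_mem : id ∈ E
  comp_mem : ∀ {f g}, f ∈ E → g ∈ E → f ∘ g ∈ E
  equiv : ∀ {f}, f ∈ E → ∀ (z : M) (v : X), f (z • v) = z • f v
  Pt : Set X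
  P_smul : ∀ {v}, v ∈ Pt → ∀ z : M, z • v ∈ Pt
  top : X
  top_mem : top ∈ Pt
  le_top : ∀ v ∈ Pt, ∃ f ∈ E, f top = v
  faith : ∀ a b : M, (∃ f ∈ E, f (b • top) = a • top) → ∃ c, a = b * c
  meet : ∀ v ∈ Pt, ∀ v' ∈ Pt, ∃ m ∈ Pt, ∀ x,
    (∃ f ∈ E, f m = x) ↔ (∃ f ∈ E, f v = x) ∧ (∃ f ∈ E, f v' = x)
  eqz : ∀ v ∈ Pt, ∀ z z' : M, ∃ m ∈ Pt, ∀ x,
    (∃ f ∈ E, f m = x) ↔ (∃ f ∈ E, f v = x) ∧ z • x = z' • x
  rigid : ∀ f ∈ E, ∀ w ∈ Pt, ∀ z z' : M, f (z • w) = z' • w → ∀ m, 0 < m →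
    f^[m] (z • w) = z • w → f (z • w) = z • w

/-- good pointed finite `M`-sets -/
structure GP (M : Type) [Monoid M] where
  Y : Type
  [act : MulAction M Y]
  [fin : Finite Y]
  x : Y
  N : Set Y
  x_mem : x ∈ N
  x_le : ∀ n ∈ N, ∃ z : M, x = z • n
  least : ∀ y, ∃ n ∈ N, (∃ z : M, y = z • n) ∧
    ∀ n' ∈ N, (∃ z : M, y = z • n') → ∃ z : M, n = z • n'

attribute [instance] GP.act GP.fin

variable {M : Type} [Monoid M]

def Hom (M : Type) [Monoid M] {Y Z : Type} [MulAction M Y] [MulAction M Z] (y : Y) (z : Z) :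
    Prop :=
  ∃ f : Y → Z, (∀ (m : M) v, f (m • v) = m • f v) ∧ f y = z

theorem GP.rigid (hM : ∀ r : M, ∃ k, r ^ k = r ^ (k + 1)) (G : GP M) (f : G.Y → G.Y)
    (hf : ∀ (m : M) v, f (m • v) = m • f v) (z : M) (m : ℕ) (hm : 0 < m)
    (h : f^[m] (z • G.x) = z • G.x) : f (z • G.x) = z • G.x := by
  let Q : Set G.Y := {n | n ∈ G.N ∧ ∀ n' ∈ G.N, (∃ s : M, f n = s • n') → ∃ s : M, n = s • n'}
  have hx : G.x ∈ Q := ⟨G.x_mem, fun n' hn' _ => G.x_le n' hn'⟩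
  obtain ⟨n, ⟨hn1, hn2⟩, hmax⟩ := exists_max_image Q
    (fun n => (range (fun s : M => s • n)).ncard) (toFinite _) ⟨_, hx⟩
  obtain ⟨n₂, h1, h2, h3⟩ := G.least (f n)
  obtain ⟨s, hs⟩ := hn2 n₂ h1 h2
  have hQ : n₂ ∈ Q := by
    refine ⟨h1, fun n' hn' ⟨t, ht⟩ => h3 n' hn' ⟨s * t, ?_⟩⟩
    rw [hs, hf, ht, mul_smul]
  have hsub : range (fun s : M => s • n) ⊆ range (fun s : M => s • n₂) := by
    rintro _ ⟨t, rfl⟩
    exact ⟨t * s, by simp only [mul_smul, ← hs]⟩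
  have heq := eq_of_subset_of_ncard_le hsub (hmax n₂ hQ)
  obtain ⟨r, hr⟩ : f n ∈ range (fun s : M => s • n) := by
    rw [heq]; obtain ⟨t, ht⟩ := h2; exact ⟨t, ht.symm⟩
  have hr' : f n = r • n := hr.symm
  have hit : ∀ k (s : M), f^[k] (s • n) = s • r ^ k • n := by
    intro k
    induction k with
    | zero => intro s; simp
    | succ k ih =>
      intro s
      rw [Function.iterate_succ_apply', ih, hf, hf, hr', pow_succ, mul_smul]
  obtain ⟨k, hk⟩ := hM r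
  have hk' : ∀ j, r ^ (k + j) = r ^ k := by
    intro j
    induction j with
    | zero => rfl
    | succ j ih => rw [← add_assoc, pow_succ, ih, ← pow_succ, ← hk]
  obtain ⟨t, ht⟩ := G.x_le n hn1
  have hv : z • G.x = (z * t) • n := by rw [ht, mul_smul]
  have hper : ∀ j, f^[m * j] (z • G.x) = z • G.x := by
    intro j
    rw [Function.iterate_mul]
    exact Function.iterate_fixed h j
  obtain ⟨d, hd⟩ : ∃ d, m * k = k + d := ⟨m * k - k, by
    have : k ≤ m * k := Nat.le_mul_of_pos_left k hm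
    omega⟩
  have e1 : z • G.x = (z * t) • r ^ k • n := by
    rw [← hper k, hv, hit, hd, hk']
  have e2 : f (z • G.x) = (z * t) • r ^ k • n := by
    rw [e1, hf, hf, hr', ← mul_smul (r ^ k), ← pow_succ, ← hk]
  rw [e2, ← e1]

def GP.top (M : Type) [Monoid M] [Finite M] : GP M where
  Y := M
  x := 1
  N := {1}
  x_mem := rfl
  x_le := by rintro _ rfl; exact ⟨1, by simp⟩
  least := fun y => ⟨1, rfl, ⟨y, by simp⟩, by rintro _ rfl _; exact ⟨1, by simp⟩⟩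

def GP.move (a : M) (G : GP M) : GP M where
  Y := G.Y
  x := a • G.x
  N := insert (a • G.x) G.N
  x_mem := Or.inl rfl
  x_le := by
    rintro n (rfl | hn)
    · exact ⟨1, by simp⟩
    · obtain ⟨z, hz⟩ := G.x_le n hn
      exact ⟨a * z, by rw [hz, mul_smul]⟩
  least := by
    intro y
    by_cases hy : ∃ z : M, y = z • a • G.x
    · refine ⟨_, Or.inl rfl, hy, ?_⟩
      rintro n (rfl | hn) -
      · exact ⟨1, by simp⟩
      · obtain ⟨z, hz⟩ := G.x_le n hn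
        exact ⟨a * z, by rw [hz, mul_smul]⟩
    · obtain ⟨n, h1, h2, h3⟩ := G.least y
      refine ⟨n, Or.inr h1, h2, ?_⟩
      rintro n' (rfl | hn') h
      · exact absurd h hy
      · exact h3 n' hn' h

section Quo

variable {Y : Type} [MulAction M Y]

def qrel (M : Type) [Monoid M] {Y : Type} [MulAction M Y] (p q : Y) : Setoid Y :=
  Relation.EqvGen.setoid fun y y' => ∃ z : M, y = z • p ∧ y' = z • q

theorem qrel_smul {p q y y' : Y} (z : M) (h : qrel M p q y y') :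
    qrel M p q (z • y) (z • y') := by
  induction h with
  | rel _ _ h =>
    obtain ⟨s, rfl, rfl⟩ := h
    exact Relation.EqvGen.rel _ _ ⟨z * s, (mul_smul _ _ _).symm, (mul_smul _ _ _).symm⟩
  | refl => exact Relation.EqvGen.refl _
  | symm _ _ _ ih => exact Relation.EqvGen.symm _ _ ih
  | trans _ _ _ _ _ ih ih' => exact Relation.EqvGen.trans _ _ _ ih ih'

theorem qrel_cases {p q y y' : Y} {B : Set Y} (hp : ∀ z : M, z • p ∈ B) (hq : ∀ z : M, z • q ∈ B)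
    (h : qrel M p q y y') : y = y' ∨ (y ∈ B ∧ y' ∈ B) := by
  induction h with
  | rel _ _ h => obtain ⟨s, rfl, rfl⟩ := h; exact Or.inr ⟨hp s, hq s⟩
  | refl => exact Or.inl rfl
  | symm _ _ _ ih => exact ih.imp Eq.symm And.symm
  | trans _ _ _ _ _ ih ih' =>
    rcases ih with rfl | h
    · exact ih'
    · rcases ih' with rfl | h'
      · exact Or.inr h
      · exact Or.inr ⟨h.1, h'.2⟩

def QT (M : Type) [Monoid M] {Y : Type} [MulAction M Y] (p q : Y) : Type :=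
  Quotient (qrel M p q)

def QT.mk (p q : Y) (y : Y) : QT M p q := Quotient.mk _ y

instance (p q : Y) : MulAction M (QT M p q) where
  smul z := Quotient.map (z • ·) fun _ _ h => qrel_smul z h
  one_smul := by
    rintro ⟨y⟩
    exact congrArg (QT.mk p q) (one_smul M y)
  mul_smul := by
    rintro a b ⟨y⟩
    exact congrArg (QT.mk p q) (mul_smul a b y)

theorem QT.smul_mk (p q : Y) (z : M) (y : Y) :
    z • (QT.mk p q y : QT M p q) = QT.mk p q (z • y) := rfl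

theorem QT.mk_eq {p q y y' : Y} : (QT.mk p q y : QT M p q) = QT.mk p q y' ↔ qrel M p q y y' :=
  Quotient.eq

theorem QT.hom_iff {Z : Type} [MulAction M Z] (p q b : Y) (c : Z) :
    Hom M (QT.mk p q b : QT M p q) c ↔
      ∃ f : Y → Z, (∀ (m : M) v, f (m • v) = m • f v) ∧ f b = c ∧ f p = f q := by
  constructor
  · rintro ⟨f, h1, h2⟩
    refine ⟨fun y => f (QT.mk p q y), fun m v => by rw [← h1, QT.smul_mk], h2, ?_⟩
    exact congrArg f (QT.mk_eq.2 (Relation.EqvGen.rel _ _ ⟨1, by simp, by simp⟩))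
  · rintro ⟨f, h1, h2, h3⟩
    refine ⟨Quotient.lift f fun y y' h => ?_, ?_, h2⟩
    · induction h with
      | rel _ _ h => obtain ⟨s, rfl, rfl⟩ := h; rw [h1, h1, h3]
      | refl => rfl
      | symm _ _ _ ih => exact ih.symm
      | trans _ _ _ _ _ ih ih' => exact ih.trans ih'
    · rintro m ⟨v⟩; exact h1 m v

def GP.quo [Finite Y] (p q b : Y) (B N : Set Y) (hp : ∀ z : M, z • p ∈ B)
    (hq : ∀ z : M, z • q ∈ B) (hb : b ∈ N) (h1 : ∀ y ∈ B, ∃ z : M, qrel M p q y (z • b))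
    (h2 : ∀ n ∈ N, ∃ z : M, qrel M p q b (z • n))
    (h3 : ∀ y, ∃ n ∈ N, (∃ z : M, y = z • n) ∧
      ∀ n' ∈ N, (∃ z : M, y = z • n') → ∃ z : M, n = z • n') : GP M where
  Y := QT M p q
  fin := inferInstanceAs (Finite (Quotient _))
  x := QT.mk p q b
  N := QT.mk p q '' N
  x_mem := ⟨b, hb, rfl⟩
  x_le := by
    rintro _ ⟨n, hn, rfl⟩
    obtain ⟨z, hz⟩ := h2 n hn
    exact ⟨z, QT.mk_eq.2 hz⟩
  least := by
    rintro ⟨y⟩
    change ∃ n ∈ _, (∃ z : M, QT.mk p q y = z • n) ∧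
      ∀ n' ∈ _, (∃ z : M, QT.mk p q y = z • n') → ∃ z : M, n = z • n'
    by_cases hy : y ∈ B
    · obtain ⟨z, hz⟩ := h1 y hy
      refine ⟨_, ⟨b, hb, rfl⟩, ⟨z, QT.mk_eq.2 hz⟩, ?_⟩
      rintro _ ⟨n, hn, rfl⟩ -
      obtain ⟨z, hz⟩ := h2 n hn
      exact ⟨z, QT.mk_eq.2 hz⟩
    · obtain ⟨n, hn, ⟨z, hz⟩, h4⟩ := h3 y
      refine ⟨_, ⟨n, hn, rfl⟩, ⟨z, by rw [hz]; rfl⟩, ?_⟩
      rintro _ ⟨n', hn', rfl⟩ ⟨s, hs⟩
      rcases qrel_cases hp hq (QT.mk_eq.1 hs) with h5 | h5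
      · obtain ⟨t, ht⟩ := h4 n' hn' ⟨s, h5⟩
        exact ⟨t, by rw [ht]; rfl⟩
      · exact absurd h5.1 hy

end Quo

def GP.eqz (r r' : M) (G : GP M) : GP M :=
  GP.quo (r • G.x) (r' • G.x) G.x (range fun z : M => z • G.x) G.N
    (fun z => ⟨z * r, mul_smul _ _ _⟩) (fun z => ⟨z * r', mul_smul _ _ _⟩) G.x_mem
    (by rintro _ ⟨z, rfl⟩; exact ⟨z, Relation.EqvGen.refl _⟩)
    (fun n hn => by obtain ⟨z, hz⟩ := G.x_le n hn; exact ⟨z, by rw [← hz]⟩) G.least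

def GP.meet (G G' : GP M) : GP M :=
  GP.quo (Y := G.Y ⊕ G'.Y) (Sum.inl G.x) (Sum.inr G'.x) (Sum.inl G.x)
    ((range fun z : M => Sum.inl (z • G.x)) ∪ range fun z : M => Sum.inr (z • G'.x))
    (Sum.inl '' G.N ∪ Sum.inr '' G'.N)
    (fun z => Or.inl ⟨z, rfl⟩) (fun z => Or.inr ⟨z, rfl⟩) (Or.inl ⟨_, G.x_mem, rfl⟩)
    (by
      rintro _ (⟨z, rfl⟩ | ⟨z, rfl⟩)
      · exact ⟨z, Relation.EqvGen.refl _⟩
      · exact ⟨z, Relation.EqvGen.symm _ _ (Relation.EqvGen.rel _ _ ⟨z, rfl, rfl⟩)⟩)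
    (by
      rintro _ (⟨n, hn, rfl⟩ | ⟨n, hn, rfl⟩)
      · obtain ⟨z, hz⟩ := G.x_le n hn
        exact ⟨z, by rw [hz]; exact Relation.EqvGen.refl _⟩
      · obtain ⟨z, hz⟩ := G'.x_le n hn
        exact ⟨z, Relation.EqvGen.rel _ _ ⟨1, by simp, by rw [hz]; simp⟩⟩)
    (by
      rintro (y | y)
      · obtain ⟨n, hn, ⟨z, hz⟩, h⟩ := G.least y
        refine ⟨_, Or.inl ⟨n, hn, rfl⟩, ⟨z, by rw [hz]; rfl⟩, ?_⟩
        rintro _ (⟨n', hn', rfl⟩ | ⟨n', hn', rfl⟩) ⟨s, hs⟩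
        · obtain ⟨t, ht⟩ := h n' hn' ⟨s, Sum.inl.inj hs⟩
          exact ⟨t, by rw [ht]; rfl⟩
        · cases hs
      · obtain ⟨n, hn, ⟨z, hz⟩, h⟩ := G'.least y
        refine ⟨_, Or.inr ⟨n, hn, rfl⟩, ⟨z, by rw [hz]; rfl⟩, ?_⟩
        rintro _ (⟨n', hn', rfl⟩ | ⟨n', hn', rfl⟩) ⟨s, hs⟩
        · cases hs
        · obtain ⟨t, ht⟩ := h n' hn' ⟨s, Sum.inr.inj hs⟩
          exact ⟨t, by rw [ht]; rfl⟩)

section HomLemmas

variable {Z : Type} [MulAction M Z]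

theorem hom_top [Finite M] (c : Z) : Hom M (GP.top M).x c :=
  ⟨fun m : M => m • c, fun m v => mul_smul m v c, one_smul M c⟩

theorem hom_smul {Y : Type} [MulAction M Y] (a : M) (y : Y) (c : Z) :
    Hom M (a • y) c ↔ ∃ c₀, Hom M y c₀ ∧ c = a • c₀ := by
  constructor
  · rintro ⟨f, h1, h2⟩
    exact ⟨f y, ⟨f, h1, rfl⟩, by rw [← h2, h1]⟩
  · rintro ⟨c₀, ⟨f, h1, rfl⟩, rfl⟩
    exact ⟨f, h1, h1 _ _⟩

theorem hom_eqz (r r' : M) (G : GP M) (c : Z) :
    Hom M (G.eqz r r').x c ↔ Hom M G.x c ∧ r • c = r' • c := by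
  refine (QT.hom_iff (r • G.x) (r' • G.x) G.x c).trans ⟨?_, ?_⟩
  · rintro ⟨f, h1, rfl, h3⟩
    exact ⟨⟨f, h1, rfl⟩, by rw [← h1, ← h1, h3]⟩
  · rintro ⟨⟨f, h1, rfl⟩, h3⟩
    exact ⟨f, h1, rfl, by rw [h1, h1, h3]⟩

theorem hom_meet (G G' : GP M) (c : Z) :
    Hom M (G.meet G').x c ↔ Hom M G.x c ∧ Hom M G'.x c := by
  refine (QT.hom_iff (Y := G.Y ⊕ G'.Y) (Sum.inl G.x) (Sum.inr G'.x) (Sum.inl G.x) c).trans
    ⟨?_, ?_⟩
  · rintro ⟨f, h1, h2, h3⟩
    exact ⟨⟨fun y => f (Sum.inl y), fun m v => h1 m (Sum.inl v), h2⟩,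
      ⟨fun y => f (Sum.inr y), fun m v => h1 m (Sum.inr v), h3.symm.trans h2⟩⟩
  · rintro ⟨⟨f, h1, h2⟩, ⟨g, h3, h4⟩⟩
    refine ⟨Sum.elim f g, ?_, h2, h2.trans h4.symm⟩
    rintro m (v | v)
    · exact h1 m v
    · exact h3 m v

end HomLemmas

inductive Tm (M : Type) : Type
  | top : Tm M
  | move : M → Tm M → Tm M
  | meet : Tm M → Tm M → Tm M
  | eqz : M → M → Tm M → Tm M

noncomputable def Tm.G [Finite M] : Tm M → GP M
  | .top => GP.top M
  | .move a t => t.G.move a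
  | .meet t t' => t.G.meet t'.G
  | .eqz r r' t => t.G.eqz r r'

def Tm.sem [Finite M] (t : Tm M) : Set (Σ s : Tm M, s.G.Y) := {p | Hom M t.G.x p.2}

theorem Tm.sem_gen [Finite M] (t : Tm M) : Gen M t.sem := by
  induction t with
  | top =>
    have : (Tm.top : Tm M).sem = univ := eq_univ_of_forall fun p => hom_top p.2
    rw [this]; exact Gen.univ
  | move a t ih =>
    have : (Tm.move a t).sem = {z | ∃ y ∈ t.sem, z = a • y} := by
      ext ⟨s, y⟩
      refine (hom_smul a t.G.x y).trans ⟨?_, ?_⟩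
      · rintro ⟨c₀, h, rfl⟩; exact ⟨⟨s, c₀⟩, h, rfl⟩
      · rintro ⟨⟨s', c₀⟩, h, h2⟩
        cases h2
        exact ⟨c₀, h, rfl⟩
    rw [this]; exact ih.smul a
  | meet t t' ih ih' =>
    have : (Tm.meet t t').sem = t.sem ∩ t'.sem := by
      ext ⟨s, y⟩; exact hom_meet t.G t'.G y
    rw [this]; exact ih.inter ih'
  | eqz r r' t ih =>
    have : (Tm.eqz r r' t).sem = t.sem ∩ {z | r • z = r' • z} := by
      ext ⟨s, y⟩
      refine (hom_eqz r r' t.G y).trans (and_congr Iff.rfl ?_)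
      simp [Sigma.smul_mk]
    rw [this]; exact ih.eq r r'

theorem exists_LS [Finite M] (hM : ∀ r : M, ∃ k, r ^ k = r ^ (k + 1)) :
    ∃ (X : Type) (_ : MulAction M X), Finite X ∧ Nonempty (LS M X) := by
  classical
  let ι := range (Tm.sem (M := M))
  have : Finite ι := (gen_finite.subset (by rintro _ ⟨t, rfl⟩; exact t.sem_gen) :
    (range (Tm.sem (M := M))).Finite)
  let τ : ι → Tm M := fun i => i.2.choose
  have hτ : ∀ i, (τ i).sem = i.1 := fun i => i.2.choose_spec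
  let idx : Tm M → ι := fun t => ⟨t.sem, t, rfl⟩
  have hidx : ∀ (t s : Tm M) (y : (Tm.G s).Y), Hom M (τ (idx t)).G.x y ↔ Hom M t.G.x y := by
    intro t s y
    have := hτ (idx t)
    exact Set.ext_iff.1 this ⟨s, y⟩
  let X := Σ i : ι, (τ i).G.Y
  let E : Set (X → X) := {θ | ∀ k, ∃ j, ∃ f : (τ k).G.Y → (τ j).G.Y,
    (∀ (m : M) v, f (m • v) = m • f v) ∧ ∀ y, θ ⟨k, y⟩ = ⟨j, f y⟩}
  have hle : ∀ (i j : ι) (y : (τ i).G.Y) (y' : (τ j).G.Y),
      (∃ f ∈ E, f ⟨i, y⟩ = ⟨j, y'⟩) ↔ Hom M y y' := by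
    intro i j y y'
    constructor
    · rintro ⟨θ, hθ, h⟩
      obtain ⟨j', f, h1, h2⟩ := hθ i
      rw [h2] at h
      cases h
      exact ⟨f, h1, rfl⟩
    · rintro ⟨f, h1, h2⟩
      refine ⟨fun p => if h : p.1 = i then ⟨j, f (h ▸ p.2)⟩ else p, fun k => ?_, ?_⟩
      · by_cases hk : k = i
        · subst hk
          exact ⟨j, f, h1, fun y => by simp⟩
        · exact ⟨k, id, fun _ _ => rfl, fun y => by simp [hk]⟩
      · simp [h2]
  refine ⟨X, inferInstance, inferInstance, ⟨{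
    E := E
    id_mem := fun k => ⟨k, id, fun _ _ => rfl, fun _ => rfl⟩
    comp_mem := ?_
    equiv := ?_
    Pt := {p | ∃ (i : ι) (z : M), p = ⟨i, z • (τ i).G.x⟩}
    P_smul := ?_
    top := ⟨idx .top, (τ _).G.x⟩
    top_mem := ⟨_, 1, by rw [one_smul]⟩
    le_top := ?_
    faith := ?_
    meet := ?_
    eqz := ?_
    rigid := ?_ }⟩⟩
  · intro f g hf hg k
    obtain ⟨j, g', h1, h2⟩ := hg k
    obtain ⟨l, f', h3, h4⟩ := hf j
    exact ⟨l, f' ∘ g', fun m v => by simp [h1, h3], fun y => by simp [h2, h4]⟩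
  · rintro f hf z ⟨k, y⟩
    obtain ⟨j, g', h1, h2⟩ := hf k
    rw [Sigma.smul_mk, h2, h2, h1, Sigma.smul_mk]
  · rintro _ ⟨k, s, rfl⟩ z
    exact ⟨k, z * s, by rw [mul_smul]; rfl⟩
  · rintro ⟨k, y⟩ -
    exact (hle _ _ _ _).2 ((hidx _ _ _).2 (hom_top y))
  · intro a b h
    rw [Sigma.smul_mk, Sigma.smul_mk] at h
    obtain ⟨θ, h1, h2⟩ := (hle _ _ _ _).1 h
    obtain ⟨f, h3, h4⟩ := (hidx .top .top (1 : M)).2 (hom_top _)
    refine ⟨f (θ (τ (idx .top)).G.x), ?_⟩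
    have := congrArg f h2
    rw [h1, h3, h3, h4] at this
    exact (mul_one a).symm.trans this.symm
  · rintro _ ⟨i, s, rfl⟩ _ ⟨i', s', rfl⟩
    refine ⟨⟨idx (.meet (.move s (τ i)) (.move s' (τ i'))), (τ _).G.x⟩,
      ⟨_, 1, by rw [one_smul]⟩, ?_⟩
    rintro ⟨j, c⟩
    rw [hle, hle, hle, hidx]
    exact hom_meet _ _ c
  · rintro _ ⟨i, s, rfl⟩ z z'
    refine ⟨⟨idx (.eqz z z' (.move s (τ i))), (τ _).G.x⟩, ⟨_, 1, by rw [one_smul]⟩, ?_⟩
    rintro ⟨j, c⟩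
    rw [hle, hle, hidx]
    refine (hom_eqz z z' _ c).trans (and_congr Iff.rfl ?_)
    simp [X, Sigma.smul_mk]
  · rintro θ hθ _ ⟨i, s, rfl⟩ z z' h m hm hit
    obtain ⟨j, f, h1, h2⟩ := hθ i
    rw [Sigma.smul_mk, Sigma.smul_mk, h2] at h
    obtain rfl : j = i := congrArg Sigma.fst h
    have h3 : ∀ k y, θ^[k] ⟨j, y⟩ = ⟨j, f^[k] y⟩ := by
      intro k
      induction k with
      | zero => intro y; rfl
      | succ k ih => intro y; rw [Function.iterate_succ_apply, h2, ih]; rfl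
    rw [Sigma.smul_mk, h3, ← mul_smul] at hit
    rw [Sigma.smul_mk, h2, ← mul_smul, (τ j).G.rigid hM f h1 (z * s) m hm
      (eq_of_heq (Sigma.mk.inj hit).2)]

end Pool.Agent.P.MP_9ca27c_lc
end

-- part Pool.Agent.P.MP_9ca27c_lc.Rel
section

/-! Algebra of admissible relations in a label system. -/

namespace Pool.Agent.P.MP_9ca27c_lc

open Set

abbrev Rl (X : Type) := X → X → Prop

variable {M : Type} [Monoid M] {X : Type} [MulAction M X]

def dom (ν : Rl X) : Set X := {k | ∃ k', ν k k'}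
def ran (ν : Rl X) : Set X := {k' | ∃ k, ν k k'}
def cp (ν μ : Rl X) : Rl X := fun k k'' => ∃ k', ν k k' ∧ μ k' k''
def idr (L : Set X) : Rl X := fun k k' => k ∈ L ∧ k' = k
def img (μ : Rl X) (L : Set X) : Set X := {k' | ∃ k ∈ L, μ k k'}
def pre (σ : Rl X) (D : Set X) : Set X := {k | ∃ k' ∈ D, σ k k'}
def Tr (M : Type) [Monoid M] {X : Type} [MulAction M X] (v v' : X) : Rl X :=
  fun k k' => ∃ z : M, k = z • v ∧ k' = z • v'
def orb (M : Type) [Monoid M] {X : Type} [MulAction M X] (v : X) : Set X :=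
  {k | ∃ z : M, k = z • v}
def Cl (M : Type) [Monoid M] {X : Type} [MulAction M X] (L : Set X) : Prop :=
  ∀ (z : M) k, k ∈ L → z • k ∈ L
def ClR (M : Type) [Monoid M] {X : Type} [MulAction M X] (ν : Rl X) : Prop :=
  ∀ (z : M) k k', ν k k' → ν (z • k) (z • k')

theorem rl_ext {ν μ : Rl X} (h : ∀ a b, ν a b ↔ μ a b) : ν = μ :=
  funext fun a => funext fun b => propext (h a b)

theorem cp_assoc (ν μ ρ : Rl X) : cp (cp ν μ) ρ = cp ν (cp μ ρ) := by
  refine rl_ext fun a b => ?_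
  simp only [cp]; grind

theorem ran_cp (ν μ : Rl X) : ran (cp ν μ) = img μ (ran ν) := by
  ext a; simp only [cp, ran, img, mem_ofPred_eq]; grind

theorem dom_cp (ν μ : Rl X) : dom (cp ν μ) = pre ν (dom μ) := by
  ext a; simp only [cp, dom, pre, mem_ofPred_eq]; grind

theorem ran_idr (L : Set X) : ran (idr L) = L := by
  ext a; simp only [idr, ran, mem_ofPred_eq]; grind

theorem dom_idr (L : Set X) : dom (idr L) = L := by
  ext a; simp only [idr, dom, mem_ofPred_eq]; grind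

theorem pre_idr (L D : Set X) : pre (idr L) D = D ∩ L := by
  ext a; simp only [idr, pre, mem_ofPred_eq, mem_inter_iff]; grind

theorem img_idr (L D : Set X) : img (idr L) D = D ∩ L := by
  ext a; simp only [idr, img, mem_ofPred_eq, mem_inter_iff]; grind

theorem img_cp (ν μ : Rl X) (L : Set X) : img (cp ν μ) L = img μ (img ν L) := by
  ext a; simp only [cp, img, mem_ofPred_eq]; grind

theorem pre_cp (ν μ : Rl X) (L : Set X) : pre (cp ν μ) L = pre ν (pre μ L) := by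
  ext a; simp only [cp, pre, mem_ofPred_eq]; grind

theorem img_subset_ran (μ : Rl X) (L : Set X) : img μ L ⊆ ran μ :=
  fun _ ⟨k, _, h⟩ => ⟨k, h⟩

theorem pre_subset_dom (μ : Rl X) (L : Set X) : pre μ L ⊆ dom μ :=
  fun _ ⟨k, _, h⟩ => ⟨k, h⟩

theorem img_mono (μ : Rl X) {L L' : Set X} (h : L ⊆ L') : img μ L ⊆ img μ L' :=
  fun _ ⟨k, h1, h2⟩ => ⟨k, h h1, h2⟩

theorem pre_mono (μ : Rl X) {L L' : Set X} (h : L ⊆ L') : pre μ L ⊆ pre μ L' :=
  fun _ ⟨k, h1, h2⟩ => ⟨k, h h1, h2⟩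

theorem img_of_dom {μ : Rl X} {L : Set X} (h : dom μ ⊆ L) : img μ L = ran μ :=
  (img_subset_ran μ L).antisymm fun _ ⟨k, hk⟩ => ⟨k, h ⟨_, hk⟩, hk⟩

theorem pre_of_ran {μ : Rl X} {L : Set X} (h : ran μ ⊆ L) : pre μ L = dom μ :=
  (pre_subset_dom μ L).antisymm fun _ ⟨k, hk⟩ => ⟨k, h ⟨_, hk⟩, hk⟩

theorem cp_idr {ν : Rl X} {L : Set X} (h : ran ν ⊆ L) : cp ν (idr L) = ν :=
  rl_ext fun a b => ⟨by rintro ⟨k, h1, -, rfl⟩; exact h1, fun h1 => ⟨b, h1, h ⟨a, h1⟩, rfl⟩⟩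

theorem idr_cp {ν : Rl X} {L : Set X} (h : dom ν ⊆ L) : cp (idr L) ν = ν :=
  rl_ext fun a b => ⟨by rintro ⟨k, ⟨-, rfl⟩, h1⟩; exact h1, fun h1 => ⟨a, ⟨h ⟨b, h1⟩, rfl⟩, h1⟩⟩

theorem pre_inter {σ : Rl X} {L : Set X} (h : ran σ ⊆ L) (D : Set X) :
    pre σ (D ∩ L) = pre σ D :=
  (pre_mono σ inter_subset_left).antisymm fun _ ⟨k, h1, h2⟩ => ⟨k, ⟨h1, h ⟨_, h2⟩⟩, h2⟩

theorem mem_orb (v : X) : v ∈ orb M v := ⟨1, (one_smul _ _).symm⟩

theorem Tr_self (v v' : X) : Tr M v v' v v' := ⟨1, (one_smul _ _).symm, (one_smul _ _).symm⟩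

theorem dom_Tr (v v' : X) : dom (Tr M v v') = orb M v := by
  ext a; simp only [Tr, dom, orb, mem_ofPred_eq]; grind

theorem ran_Tr (v v' : X) : ran (Tr M v v') = orb M v' := by
  ext a; simp only [Tr, ran, orb, mem_ofPred_eq]; grind

theorem Tr_same (w : X) : Tr M w w = idr (orb M w) := by
  refine rl_ext fun a b => ?_
  simp only [Tr, idr, orb, mem_ofPred_eq]; grind

theorem cp_Tr_same {ν : Rl X} {w : X} (h : ran ν ⊆ orb M w) : cp ν (Tr M w w) = ν := by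
  rw [Tr_same, cp_idr h]

theorem img_Tr_same {L : Set X} {w : X} (h : L ⊆ orb M w) : img (Tr M w w) L = L := by
  rw [Tr_same, img_idr, inter_eq_left.2 h]

theorem dom_cp_Tr {ν : Rl X} {w : X} (h : ran ν ⊆ orb M w) (w' : X) :
    dom (cp ν (Tr M w w')) = dom ν := by
  rw [dom_cp, dom_Tr, pre_of_ran h]

theorem img_Tr_subset (w w' : X) (L : Set X) : img (Tr M w w') L ⊆ orb M w' :=
  (img_subset_ran _ _).trans (ran_Tr w w').subset

theorem img_Tr_orb (w w' : X) : img (Tr M w w') (orb M w) = orb M w' := by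
  rw [img_of_dom (dom_Tr w w').subset, ran_Tr]

theorem Cl_orb (v : X) : Cl M (orb M v) := by
  rintro z _ ⟨s, rfl⟩; exact ⟨z * s, (mul_smul _ _ _).symm⟩

theorem Cl.orb_subset {L : Set X} (h : Cl M L) {v : X} (hv : v ∈ L) : orb M v ⊆ L := by
  rintro _ ⟨s, rfl⟩; exact h s v hv

theorem Cl.inter {L L' : Set X} (h : Cl M L) (h' : Cl M L') : Cl M (L ∩ L') :=
  fun z k hk => ⟨h z k hk.1, h' z k hk.2⟩

theorem ClR.cl_ran {ν : Rl X} (h : ClR M ν) : Cl M (ran ν) :=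
  fun z _ ⟨k, hk⟩ => ⟨_, h z k _ hk⟩

theorem ClR.cl_dom {ν : Rl X} (h : ClR M ν) : Cl M (dom ν) :=
  fun z _ ⟨k, hk⟩ => ⟨_, h z _ k hk⟩

theorem ClR.cl_img {ν : Rl X} (h : ClR M ν) {L : Set X} (hL : Cl M L) : Cl M (img ν L) :=
  fun z _ ⟨k, h1, hk⟩ => ⟨_, hL z k h1, h z k _ hk⟩

theorem ClR.cl_pre {ν : Rl X} (h : ClR M ν) {L : Set X} (hL : Cl M L) : Cl M (pre ν L) :=
  fun z _ ⟨k, h1, hk⟩ => ⟨_, hL z k h1, h z _ k hk⟩

theorem ClR.comp {ν μ : Rl X} (h : ClR M ν) (h' : ClR M μ) : ClR M (cp ν μ) :=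
  fun z _ _ ⟨k, h1, h2⟩ => ⟨_, h z _ k h1, h' z k _ h2⟩

theorem ClR.fl {ν : Rl X} (h : ClR M ν) : ClR M (flip ν) := fun z _ _ h1 => h z _ _ h1

theorem Cl.clr_idr {L : Set X} (h : Cl M L) : ClR M (idr L) := by
  rintro z k _ ⟨h1, rfl⟩; exact ⟨h z _ h1, rfl⟩

theorem ClR_Tr (v v' : X) : ClR M (Tr M v v') := by
  rintro z _ _ ⟨s, rfl, rfl⟩
  exact ⟨z * s, (mul_smul _ _ _).symm, (mul_smul _ _ _).symm⟩

namespace LS

variable (S : LS M X)

def le (v' v : X) : Prop := ∃ f ∈ S.E, f v = v'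
def Adm (ν : Rl X) : Prop := ∃ f ∈ S.E, ∀ k k', ν k k' → f k = k'
def NS (ν : Rl X) : Prop := ∃ f ∈ S.E, ∀ k k', ν k k' → f k' = k

noncomputable def rep (v : X) : X :=
  @Classical.epsilon X ⟨S.top⟩ fun u => u ∈ S.Pt ∧ S.le u v ∧ S.le v u

def Lam (v : X) : Prop := v ∈ S.Pt ∧ S.rep v = v

noncomputable def app (μ : Rl X) (u : X) : X := @Classical.epsilon X ⟨S.top⟩ fun u' => μ u u'

variable {S}

theorem le_rfl (v : X) : S.le v v := ⟨id, S.id_mem, rfl⟩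

theorem le_trans {a b c : X} : S.le a b → S.le b c → S.le a c := by
  rintro ⟨f, hf, rfl⟩ ⟨g, hg, rfl⟩; exact ⟨f ∘ g, S.comp_mem hf hg, rfl⟩

theorem le.smul {a b : X} (h : S.le a b) (z : M) : S.le (z • a) (z • b) := by
  obtain ⟨f, hf, rfl⟩ := h; exact ⟨f, hf, S.equiv hf z b⟩

theorem le.eq {a b : X} (h : S.le a b) {z z' : M} (e : z • b = z' • b) : z • a = z' • a := by
  obtain ⟨f, hf, rfl⟩ := h
  rw [← S.equiv hf, ← S.equiv hf, e]

theorem rep_spec {v : X} (hv : v ∈ S.Pt) :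
    S.rep v ∈ S.Pt ∧ S.le (S.rep v) v ∧ S.le v (S.rep v) :=
  @Classical.epsilon_spec X (fun u => u ∈ S.Pt ∧ S.le u v ∧ S.le v u)
    ⟨v, hv, le_rfl v, le_rfl v⟩

theorem rep_congr {v v' : X} (h : S.le v v') (h' : S.le v' v) : S.rep v = S.rep v' := by
  unfold rep
  congr 1
  funext u
  exact propext (and_congr Iff.rfl ⟨fun k => ⟨le_trans k.1 h, le_trans h' k.2⟩,
    fun k => ⟨le_trans k.1 h', le_trans h k.2⟩⟩)

theorem rep_lam {v : X} (hv : v ∈ S.Pt) : S.Lam (S.rep v) :=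
  ⟨(rep_spec hv).1, rep_congr (rep_spec hv).2.1 (rep_spec hv).2.2⟩

theorem Lam.eq {v v' : X} (hv : S.Lam v) (hv' : S.Lam v') (h : S.le v v') (h' : S.le v' v) :
    v = v' := by rw [← hv.2, ← hv'.2, rep_congr h h']

theorem Adm.fn {ν : Rl X} (h : S.Adm ν) {k a b : X} (h1 : ν k a) (h2 : ν k b) : a = b := by
  obtain ⟨f, -, hf⟩ := h; rw [← hf k a h1, hf k b h2]

theorem NS.inj {ν : Rl X} (h : S.NS ν) {k a b : X} (h1 : ν a k) (h2 : ν b k) : a = b := by
  obtain ⟨f, -, hf⟩ := h; rw [← hf a k h1, hf b k h2]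

theorem Adm.le_of {ν : Rl X} (h : S.Adm ν) {k a : X} (h1 : ν k a) : S.le a k := by
  obtain ⟨f, hf, hf'⟩ := h; exact ⟨f, hf, hf' k a h1⟩

theorem NS.le_of {ν : Rl X} (h : S.NS ν) {k a : X} (h1 : ν k a) : S.le k a := by
  obtain ⟨f, hf, hf'⟩ := h; exact ⟨f, hf, hf' k a h1⟩

theorem Adm.app_eq {ν : Rl X} (h : S.Adm ν) {k a : X} (h1 : ν k a) : S.app ν k = a :=
  h.fn (@Classical.epsilon_spec X (fun u' => ν k u') ⟨a, h1⟩) h1

theorem app_spec {ν : Rl X} {k : X} (h1 : k ∈ dom ν) : ν k (S.app ν k) :=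
  @Classical.epsilon_spec X (fun u' => ν k u') h1

theorem Adm.comp {ν μ : Rl X} (h : S.Adm ν) (h' : S.Adm μ) : S.Adm (cp ν μ) := by
  obtain ⟨f, hf, h1⟩ := h
  obtain ⟨g, hg, h2⟩ := h'
  refine ⟨g ∘ f, S.comp_mem hg hf, ?_⟩
  rintro k k'' ⟨k', h3, h4⟩
  rw [Function.comp, h1 _ _ h3, h2 _ _ h4]

theorem NS.comp {ν μ : Rl X} (h : S.NS ν) (h' : S.NS μ) : S.NS (cp ν μ) := by
  obtain ⟨f, hf, h1⟩ := h
  obtain ⟨g, hg, h2⟩ := h'
  refine ⟨f ∘ g, S.comp_mem hf hg, ?_⟩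
  rintro k k'' ⟨k', h3, h4⟩
  rw [Function.comp, h2 _ _ h4, h1 _ _ h3]

theorem Adm_idr (L : Set X) : S.Adm (idr L) := ⟨id, S.id_mem, fun _ _ h => h.2.symm⟩

theorem NS_idr (L : Set X) : S.NS (idr L) := ⟨id, S.id_mem, fun _ _ h => h.2⟩

theorem Adm_Tr {w w' : X} (h : S.le w' w) : S.Adm (Tr M w w') := by
  obtain ⟨f, hf, rfl⟩ := h
  exact ⟨f, hf, by rintro _ _ ⟨z, rfl, rfl⟩; exact S.equiv hf z w⟩

theorem NS_Tr {w w' : X} (h : S.le w w') : S.NS (Tr M w w') := by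
  obtain ⟨f, hf, rfl⟩ := h
  exact ⟨f, hf, by rintro _ _ ⟨z, rfl, rfl⟩; exact S.equiv hf z w'⟩

theorem Tr_Tr (a : X) {b c : X} (h : S.le c b) : cp (Tr M a b) (Tr M b c) = Tr M a c := by
  refine rl_ext fun k k'' => ⟨?_, ?_⟩
  · rintro ⟨_, ⟨z, rfl, rfl⟩, z', h1, rfl⟩
    exact ⟨z, rfl, (h.eq h1).symm⟩
  · rintro ⟨z, rfl, rfl⟩
    exact ⟨_, ⟨z, rfl, rfl⟩, z, rfl, rfl⟩

theorem NS.of_cp_left {ν μ : Rl X} (h : S.NS (cp ν μ)) (h1 : ran ν ⊆ dom μ) (h2 : S.Adm μ) :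
    S.NS ν := by
  obtain ⟨f, hf, h3⟩ := h
  obtain ⟨g, hg, h4⟩ := h2
  refine ⟨f ∘ g, S.comp_mem hf hg, fun k k' hk => ?_⟩
  obtain ⟨k'', h5⟩ := h1 ⟨k, hk⟩
  rw [Function.comp, h4 _ _ h5, h3 _ _ ⟨k', hk, h5⟩]

theorem NS.of_cp_right {σ μ : Rl X} (h : S.NS (cp σ μ)) (h1 : dom μ ⊆ ran σ) (h2 : S.Adm σ) :
    S.NS μ := by
  obtain ⟨f, hf, h3⟩ := h
  obtain ⟨g, hg, h4⟩ := h2
  refine ⟨g ∘ f, S.comp_mem hg hf, fun k k' hk => ?_⟩
  obtain ⟨k₀, h5⟩ := h1 ⟨k', hk⟩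
  rw [Function.comp, h3 _ _ ⟨k, h5, hk⟩, h4 _ _ h5]

theorem cp_eq_cp_Tr {ν μ : Rl X} {g w' : X} (h : ∀ a b, μ a b → Tr M g w' a b) (h1 : S.le w' g)
    (h2 : ran ν ⊆ dom μ) : cp ν μ = cp ν (Tr M g w') := by
  refine rl_ext fun k k'' => ⟨fun ⟨k', h3, h4⟩ => ⟨k', h3, h _ _ h4⟩, fun ⟨k', h3, h4⟩ => ?_⟩
  obtain ⟨k₁, h5⟩ := h2 ⟨k, h3⟩
  exact ⟨k', h3, (Adm_Tr h1).fn (h _ _ h5) h4 ▸ h5⟩

theorem img_eq_img_Tr {L : Set X} {μ : Rl X} {g w' : X} (h : ∀ a b, μ a b → Tr M g w' a b)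
    (h1 : S.le w' g) (h2 : L ⊆ dom μ) : img μ L = img (Tr M g w') L := by
  have := congrArg ran (cp_eq_cp_Tr (ν := idr L) h h1 (by rwa [ran_idr]))
  rwa [ran_cp, ran_cp, ran_idr] at this

theorem Adm.flip_cp {σ : Rl X} (h : S.Adm σ) : cp (flip σ) σ = idr (ran σ) := by
  refine rl_ext fun a b => ⟨fun ⟨k, h1, h2⟩ => ⟨⟨k, h1⟩, h.fn h2 h1⟩, ?_⟩
  rintro ⟨⟨k, hk⟩, rfl⟩
  exact ⟨k, hk, hk⟩

theorem rigid_rel [Finite X] {σ : Rl X} {D : Set X} {w : X} (hw : w ∈ S.Pt) (hD : D ⊆ orb M w)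
    (h1 : S.Adm σ) (h2 : S.NS σ) (h3 : dom σ = D) (h4 : ran σ = D) : σ = idr D := by
  obtain ⟨f, hf, hf'⟩ := h1
  have hσ : ∀ k ∈ D, σ k (f k) := by
    intro k hk
    obtain ⟨k', hk'⟩ := h3.symm.subset hk
    rw [hf' k k' hk']; exact hk'
  have hmap : MapsTo f D D := fun k hk => h4.subset ⟨k, hσ k hk⟩
  have hinj : InjOn f D := fun a ha b hb e => h2.inj (hσ a ha) (e ▸ hσ b hb)
  have hfix : ∀ k ∈ D, f k = k := by
    intro k hk
    have hper : ∃ m, 0 < m ∧ f^[m] k = k := by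
      have hi : Function.Injective (hmap.restrict f D D) := hmap.restrict_inj.2 hinj
      obtain ⟨m, hm, h⟩ := hi.mem_periodicPts ⟨k, hk⟩
      refine ⟨m, hm, ?_⟩
      have := congrArg Subtype.val h
      rwa [MapsTo.coe_iterate_restrict] at this
    obtain ⟨m, hm, h⟩ := hper
    obtain ⟨z, rfl⟩ := hD hk
    obtain ⟨z', hz'⟩ := hD (hmap hk)
    exact S.rigid f hf w hw z z' hz' m hm h
  refine rl_ext fun a b => ⟨fun h => ?_, ?_⟩
  · have ha := h3.subset ⟨b, h⟩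
    exact ⟨ha, (hf' a b h).symm.trans (hfix a ha)⟩
  · rintro ⟨ha, rfl⟩
    have := hσ b ha
    rwa [hfix b ha] at this

theorem eqz_set [Finite M] {v : X} (hv : v ∈ S.Pt) (A : Set (M × M)) :
    ∃ m ∈ S.Pt, ∀ x, S.le x m ↔ S.le x v ∧ ∀ q ∈ A, q.1 • x = q.2 • x := by
  induction A, toFinite A using Set.Finite.induction_on with
  | empty => exact ⟨v, hv, fun x => by simp⟩
  | @insert q A _ _ ih =>
    obtain ⟨m, hm, h⟩ := ih
    obtain ⟨m', hm', h'⟩ := S.eqz m hm q.1 q.2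
    refine ⟨m', hm', fun x => (h' x).trans ?_⟩
    change S.le x m ∧ _ ↔ _
    rw [h, forall_mem_insert]
    tauto

end LS

end Pool.Agent.P.MP_9ca27c_lc
end

-- part Pool.Agent.P.MP_9ca27c_lc.Stack
section

/-! Normal stacks over a label system, restriction maps, and their validity. -/

namespace Pool.Agent.P.MP_9ca27c_lc

open Set

variable {M : Type} [Monoid M] {X : Type} [MulAction M X]

inductive Tl (X : Type) : Type
  | top : Tl X
  | virt : Set X → Tl X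
  | cons : Option X → X → Rl X → Tl X → Tl X

inductive Ty (X : Type) : Type
  | R : X → Set X → Ty X
  | U : Set X → Ty X

def hdom : Tl X → Set X
  | .top => univ
  | .virt D => D
  | .cons _ _ μ _ => dom μ

def lv (M : Type) [Monoid M] {X : Type} [MulAction M X] (g : Option X) (w : X) (ν : Rl X)
    (p : X × Tl X) : Tl X :=
  .cons g p.1 (cp ν (Tr M w p.1)) p.2

theorem lv_same {g : Option X} {w : X} {ν : Rl X} (h : ran ν ⊆ orb M w) (n : Tl X) :
    lv M g w ν (w, n) = .cons g w ν n := by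
  simp only [lv, cp_Tr_same h]

namespace LS

variable (S : LS M X)

def Lev (w : X) (μ : Rl X) : Prop := S.Lam w ∧ ClR M μ ∧ S.Adm μ ∧ ran μ ⊆ orb M w

def Ctx (w : X) (K : Set X) : Prop := S.Lam w ∧ Cl M K ∧ K ⊆ orb M w

def Fg (w : X) (ν : Rl X) : Prop := w ∉ ran ν ∧ S.NS ν

def Hd : Option X → X → Set X → X → Rl X → Prop
  | none, w, _, w', μ => w ∉ dom μ ∧ ¬ S.Fg w' μ
  | some g, w, K, w', μ => dom μ ≠ K ∧ (g = w ∨ (g ∈ K ∧ w ∈ orb M g)) ∧ S.le w' g ∧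
      ∀ a b, μ a b → Tr M g w' a b

def Nrm : Tl X → X → Set X → Prop
  | .top, _, _ => True
  | .virt D, w, K => Cl M D ∧ D ⊆ K ∧ w ∉ D
  | .cons g w' μ n, w, K => S.Lev w' μ ∧ Nrm n w' (ran μ) ∧ dom μ ⊆ K ∧ S.Hd g w K w' μ

def Uv : Tl X → Prop
  | .top => False
  | .virt D => Cl M D
  | .cons g w' μ n => g = none ∧ S.Lev w' μ ∧ S.Nrm n w' (ran μ) ∧ ¬ S.Fg w' μ

def HOK : Tl X → Prop
  | .top => True
  | .virt D => Cl M D
  | .cons _ w' μ n => S.Lev w' μ ∧ S.Nrm n w' (ran μ)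

def PT : Ty X → X × Tl X → Prop
  | .R w K, p => S.Lam p.1 ∧ S.le p.1 w ∧ S.Nrm p.2 p.1 (img (Tr M w p.1) K)
  | .U D, p => p.1 = S.top ∧ S.Uv p.2 ∧ hdom p.2 ⊆ D

open Classical in
noncomputable def mkgh (w : X) (ν : Rl X) (r : X × Tl X) (u : Tl X) : Tl X :=
  if S.Fg w ν then u else lv M none w ν r

open Classical in
mutual
noncomputable def resR : Tl X → X → Set X → X × Tl X
  | .top, w, _ => (w, .top)
  | .virt D, w, L => (w, if w ∈ L then .virt D else .virt (D ∩ L))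
  | .cons g w' μ n, w, L =>
    if w ∈ L then (w, .cons g w' μ n)
    else if g = some w then
      (if L ⊆ dom μ then resR n w' (img μ L)
       else (w, lv M g w' (cp (idr L) μ) (resR n w' (img μ L))))
    else (w, S.mkgh w' (cp (idr L) μ) (resR n w' (ran (cp (idr L) μ))) (pullU n (cp (idr L) μ)))
noncomputable def pullU : Tl X → Rl X → Tl X
  | .top, σ => .virt (dom σ)
  | .virt D, σ => .virt (pre σ D)
  | .cons _ w' μ n, σ => S.mkgh w' (cp σ μ) (resR n w' (ran (cp σ μ))) (pullU n (cp σ μ))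
end

noncomputable def gh (n : Tl X) (w : X) (ν : Rl X) : Tl X :=
  S.mkgh w ν (S.resR n w (ran ν)) (S.pullU n ν)

variable {S}

theorem pullU_top (σ : Rl X) : S.pullU .top σ = .virt (dom σ) := by rw [pullU]

theorem pullU_virt (D : Set X) (σ : Rl X) : S.pullU (.virt D) σ = .virt (pre σ D) := by
  rw [pullU]

theorem pullU_cons (g : Option X) (w' : X) (μ : Rl X) (n : Tl X) (σ : Rl X) :
    S.pullU (.cons g w' μ n) σ = S.gh n w' (cp σ μ) := by rw [pullU, gh]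

theorem gh_pos {n : Tl X} {w : X} {ν : Rl X} (h : S.Fg w ν) : S.gh n w ν = S.pullU n ν := by
  rw [gh, mkgh, if_pos h]

theorem gh_neg {n : Tl X} {w : X} {ν : Rl X} (h : ¬ S.Fg w ν) :
    S.gh n w ν = lv M none w ν (S.resR n w (ran ν)) := by
  rw [gh, mkgh, if_neg h]

theorem resR_top (w : X) (L : Set X) : S.resR .top w L = (w, .top) := by rw [resR]

theorem resR_mem {w : X} {L : Set X} (h : w ∈ L) (n : Tl X) : S.resR n w L = (w, n) := by
  cases n <;> simp only [resR, if_pos h]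

theorem resR_virt {w : X} {L : Set X} (h : w ∉ L) (D : Set X) :
    S.resR (.virt D) w L = (w, .virt (D ∩ L)) := by
  simp only [resR, if_neg h]

theorem resR_full {w : X} {L : Set X} (h : w ∉ L) {μ : Rl X} (h2 : L ⊆ dom μ) (w' : X)
    (n : Tl X) : S.resR (.cons (some w) w' μ n) w L = S.resR n w' (img μ L) := by
  simp only [resR, if_neg h, if_pos h2, if_true]

theorem resR_nfull {w : X} {L : Set X} (h : w ∉ L) {μ : Rl X} (h2 : ¬ L ⊆ dom μ) (w' : X)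
    (n : Tl X) : S.resR (.cons (some w) w' μ n) w L =
      (w, lv M (some w) w' (cp (idr L) μ) (S.resR n w' (img μ L))) := by
  simp only [resR, if_neg h, if_neg h2, if_true]

theorem resR_ghost {w : X} {L : Set X} (h : w ∉ L) {g : Option X} (h2 : g ≠ some w) (μ : Rl X)
    (w' : X) (n : Tl X) :
    S.resR (.cons g w' μ n) w L = (w, S.gh n w' (cp (idr L) μ)) := by
  simp only [resR, if_neg h, if_neg h2, gh]

theorem resR_U {w : X} {L : Set X} (h : w ∉ L) {n : Tl X} (hn : S.Uv n) :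
    S.resR n w L = (w, S.pullU n (idr L)) := by
  cases n with
  | top => exact hn.elim
  | virt D => rw [resR_virt h, pullU_virt, pre_idr]
  | cons g w' μ n => rw [resR_ghost h (by rw [hn.1]; simp), pullU_cons]

theorem Nrm.hok {n : Tl X} {w : X} {K : Set X} (h : S.Nrm n w K) : S.HOK n := by
  cases n with
  | top => trivial
  | virt D => exact h.1
  | cons g w' μ n => exact ⟨h.1, h.2.1⟩

theorem Uv.hok {n : Tl X} (h : S.Uv n) : S.HOK n := by
  cases n with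
  | top => trivial
  | virt D => exact h
  | cons g w' μ n => exact ⟨h.2.1, h.2.2.1⟩

theorem Uv.nrm {n : Tl X} (h : S.Uv n) {w : X} {K : Set X} (h1 : hdom n ⊆ K) (h2 : w ∉ hdom n) :
    S.Nrm n w K := by
  cases n with
  | top => trivial
  | virt D => exact ⟨h, h1, h2⟩
  | cons g w' μ n =>
    obtain ⟨rfl, h3, h4, h5⟩ := h
    exact ⟨h3, h4, h1, h2, h5⟩

theorem Uv.ne_top {n : Tl X} (h : S.Uv n) : n ≠ .top := by rintro rfl; exact h

theorem Lev.ctx {w : X} {μ : Rl X} (h : S.Lev w μ) : S.Ctx w (ran μ) :=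
  ⟨h.1, h.2.1.cl_ran, h.2.2.2⟩

theorem Lev.comp {w : X} {μ σ : Rl X} (h : S.Lev w μ) (h1 : ClR M σ) (h2 : S.Adm σ) :
    S.Lev w (cp σ μ) :=
  ⟨h.1, h1.comp h.2.1, h2.comp h.2.2.1,
    (ran_cp σ μ).subset.trans ((img_subset_ran _ _).trans h.2.2.2)⟩

theorem Lev.tr {w w' : X} {μ : Rl X} (h : S.Lev w μ) (h1 : S.Lam w') (h2 : S.le w' w) :
    S.Lev w' (cp μ (Tr M w w')) :=
  ⟨h1, h.2.1.comp (ClR_Tr _ _), h.2.2.1.comp (Adm_Tr h2),
    (ran_cp _ _).subset.trans (img_Tr_subset _ _ _)⟩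

theorem Fg.of_tr {w w' : X} {μ : Rl X} (h1 : ran μ ⊆ orb M w) (h2 : S.le w' w)
    (h : S.Fg w' (cp μ (Tr M w w'))) : S.Fg w μ :=
  ⟨fun ⟨k, hk⟩ => h.1 ⟨k, w, hk, Tr_self w w'⟩,
    h.2.of_cp_left (by rwa [dom_Tr]) (Adm_Tr h2)⟩

theorem Fg.comp {w : X} {μ σ : Rl X} (h : S.Fg w μ) (h2 : S.NS σ) : S.Fg w (cp σ μ) :=
  ⟨fun ⟨_, k, _, hk⟩ => h.1 ⟨k, hk⟩, h2.comp h.2⟩

theorem Ctx.tr {w w' : X} {K : Set X} (h : Cl M K) (h1 : S.Lam w') :
    S.Ctx w' (img (Tr M w w') K) :=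
  ⟨h1, (ClR_Tr _ _).cl_img h, img_Tr_subset _ _ _⟩

theorem Ctx.eq_of_mem {w : X} {K L : Set X} (h : S.Ctx w K) (hL : Cl M L) (hLK : L ⊆ K)
    (hw : w ∈ L) : L = K := hLK.antisymm (h.2.2.trans (hL.orb_subset hw))

theorem PT_same {w : X} {K : Set X} (h : S.Ctx w K) {n : Tl X} (hn : S.Nrm n w K) :
    S.PT (.R w K) (w, n) := ⟨h.1, le_rfl w, by rwa [img_Tr_same h.2.2]⟩

theorem Nrm_lv {g : Option X} {w₀ w : X} {K : Set X} {μ : Rl X} {p : X × Tl X} (h1 : S.Lev w μ)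
    (h2 : dom μ ⊆ K) (h3 : S.Hd g w₀ K w μ) (hp : S.PT (.R w (ran μ)) p) :
    S.Nrm (lv M g w μ p) w₀ K := by
  refine ⟨h1.tr hp.1 hp.2.1, by rw [ran_cp]; exact hp.2.2, by rwa [dom_cp_Tr h1.2.2.2], ?_⟩
  cases g with
  | none => exact ⟨by rw [dom_cp_Tr h1.2.2.2]; exact h3.1, fun h => h3.2 (h.of_tr h1.2.2.2 hp.2.1)⟩
  | some g =>
    refine ⟨by rw [dom_cp_Tr h1.2.2.2]; exact h3.1, h3.2.1, le_trans hp.2.1 h3.2.2.1, ?_⟩
    rintro a b ⟨k, h4, h5⟩
    rw [← Tr_Tr g hp.2.1]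
    exact ⟨k, h3.2.2.2 _ _ h4, h5⟩

theorem Uv_lv {w : X} {μ : Rl X} {p : X × Tl X} (h1 : S.Lev w μ) (h3 : ¬ S.Fg w μ)
    (hp : S.PT (.R w (ran μ)) p) : S.Uv (lv M none w μ p) :=
  ⟨rfl, h1.tr hp.1 hp.2.1, by rw [ran_cp]; exact hp.2.2,
    fun h => h3 (h.of_tr h1.2.2.2 hp.2.1)⟩

theorem hdom_lv {g : Option X} {w : X} {μ : Rl X} (h : ran μ ⊆ orb M w) (p : X × Tl X) :
    hdom (lv M g w μ p) = dom μ := dom_cp_Tr h _

theorem PT.trans {w w' : X} {K : Set X} {p : X × Tl X} (h : S.le w' w)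
    (hp : S.PT (.R w' (img (Tr M w w') K)) p) : S.PT (.R w K) p :=
  ⟨hp.1, le_trans hp.2.1 h, by rw [← Tr_Tr w hp.2.1, img_cp]; exact hp.2.2⟩

theorem valid_aux (n : Tl X) :
    (∀ w K L, S.Ctx w K → S.Nrm n w K → Cl M L → L ⊆ K → S.PT (.R w L) (S.resR n w L)) ∧
    (∀ σ, S.HOK n → ClR M σ → S.Adm σ →
      S.Uv (S.pullU n σ) ∧ hdom (S.pullU n σ) ⊆ pre σ (hdom n)) := by
  have mem : ∀ (n : Tl X) w K L, S.Ctx w K → S.Nrm n w K → Cl M L → L ⊆ K → w ∈ L →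
      S.PT (.R w L) (S.resR n w L) := by
    intro n w K L h1 h2 h3 h4 h5
    obtain rfl := h1.eq_of_mem h3 h4 h5
    rw [resR_mem h5]; exact PT_same h1 h2
  induction n with
  | top =>
    refine ⟨fun w K L h1 _ _ _ => by rw [resR_top]; exact ⟨h1.1, le_rfl w, trivial⟩,
      fun σ _ h2 _ => ?_⟩
    rw [pullU_top]
    exact ⟨h2.cl_dom, fun _ ⟨k, hk⟩ => ⟨k, trivial, hk⟩⟩
  | virt D =>
    refine ⟨fun w K L h1 h2 h3 h4 => ?_, fun σ h1 h2 _ => ?_⟩
    · by_cases hw : w ∈ L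
      · exact mem _ w K L h1 h2 h3 h4 hw
      rw [resR_virt hw]
      exact PT_same ⟨h1.1, h3, h4.trans h1.2.2⟩ ⟨h2.1.inter h3, inter_subset_right, fun h => hw h.2⟩
    · rw [pullU_virt]; exact ⟨h2.cl_pre h1, subset_rfl⟩
  | cons g w' μ n ih =>
    have hgh : ∀ σ, S.Lev w' μ → S.Nrm n w' (ran μ) → ClR M σ → S.Adm σ →
        S.Uv (S.gh n w' (cp σ μ)) ∧ hdom (S.gh n w' (cp σ μ)) ⊆ pre σ (dom μ) := by
      intro σ h1 h2 h3 h4
      have h5 := h1.comp h3 h4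
      by_cases hF : S.Fg w' (cp σ μ)
      · rw [gh_pos hF]
        have := ih.2 _ h2.hok h5.2.1 h5.2.2.1
        exact ⟨this.1, this.2.trans ((pre_subset_dom _ _).trans (dom_cp _ _).subset)⟩
      · rw [gh_neg hF, hdom_lv h5.2.2.2, dom_cp]
        exact ⟨Uv_lv h5 hF (ih.1 _ _ _ h1.ctx h2 h5.2.1.cl_ran
          ((ran_cp _ _).subset.trans (img_subset_ran _ _))), subset_rfl⟩
    refine ⟨fun w K L h1 h2 h3 h4 => ?_, fun σ h1 h2 h3 => ?_⟩
    · by_cases hw : w ∈ L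
      · exact mem _ w K L h1 h2 h3 h4 hw
      have hc : S.Ctx w L := ⟨h1.1, h3, h4.trans h1.2.2⟩
      obtain ⟨k1, k2, k3, k4⟩ := h2
      by_cases hg : g = some w
      · subst hg
        have ih1 := ih.1 _ _ _ k1.ctx k2 (k1.2.1.cl_img h3) (img_subset_ran μ L)
        by_cases hL : L ⊆ dom μ
        · rw [resR_full hw hL]
          rw [img_eq_img_Tr k4.2.2.2 k4.2.2.1 hL] at ih1 ⊢
          exact ih1.trans k4.2.2.1
        · rw [resR_nfull hw hL]
          refine PT_same hc (Nrm_lv (k1.comp h3.clr_idr (Adm_idr L)) ?_ ?_ ?_)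
          · rw [dom_cp, pre_idr]; exact inter_subset_right
          · refine ⟨fun h => hL ?_, Or.inl rfl, k4.2.2.1, ?_⟩
            · rw [dom_cp, pre_idr] at h
              exact h.symm.subset.trans inter_subset_left
            · rintro a b ⟨_, ⟨-, rfl⟩, h⟩; exact k4.2.2.2 _ _ h
          · rwa [ran_cp, ran_idr]
      · rw [resR_ghost hw hg]
        have := hgh _ k1 k2 h3.clr_idr (Adm_idr L)
        rw [pre_idr] at this
        exact PT_same hc (this.1.nrm (this.2.trans inter_subset_right) fun h => hw (this.2 h).2)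
    · rw [pullU_cons]; exact hgh σ h1.1 h1.2 h2 h3

theorem valid_resR {n : Tl X} {w : X} {K L : Set X} (h1 : S.Ctx w K) (h2 : S.Nrm n w K)
    (h3 : Cl M L) (h4 : L ⊆ K) : S.PT (.R w L) (S.resR n w L) :=
  (valid_aux n).1 w K L h1 h2 h3 h4

theorem valid_pullU {n : Tl X} {σ : Rl X} (h1 : S.HOK n) (h2 : ClR M σ) (h3 : S.Adm σ) :
    S.Uv (S.pullU n σ) ∧ hdom (S.pullU n σ) ⊆ pre σ (hdom n) := (valid_aux n).2 σ h1 h2 h3

theorem valid_gh {n : Tl X} {w : X} {K : Set X} {ν : Rl X} (h1 : S.Ctx w K) (h2 : S.Nrm n w K)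
    (h3 : ClR M ν) (h4 : S.Adm ν) (h5 : ran ν ⊆ K) :
    S.Uv (S.gh n w ν) ∧ hdom (S.gh n w ν) ⊆ dom ν := by
  by_cases hF : S.Fg w ν
  · rw [gh_pos hF]
    have := valid_pullU h2.hok h3 h4
    exact ⟨this.1, this.2.trans (pre_subset_dom _ _)⟩
  · rw [gh_neg hF, hdom_lv (h5.trans h1.2.2)]
    exact ⟨Uv_lv ⟨h1.1, h3, h4, h5.trans h1.2.2⟩ hF (valid_resR h1 h2 h3.cl_ran h5), subset_rfl⟩

/-- restriction to the whole visible set does nothing -/
theorem resR_self {n : Tl X} : ∀ {w : X} {K : Set X}, S.Ctx w K → S.Nrm n w K →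
    S.resR n w K = (w, n) := by
  induction n with
  | top => intro w K _ _; exact resR_top _ _
  | virt D =>
    intro w K _ h2
    by_cases hw : w ∈ K
    · exact resR_mem hw _
    · rw [resR_virt hw, inter_eq_left.2 h2.2.1]
  | cons g w' μ n ih =>
    intro w K h1 ⟨k1, k2, k3, k4⟩
    by_cases hw : w ∈ K
    · exact resR_mem hw _
    cases g with
    | none =>
      rw [resR_ghost hw (by simp), idr_cp k3, gh_neg k4.2, ih k1.ctx k2, lv_same k1.2.2.2]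
    | some g =>
      obtain rfl : g = w := by
        rcases k4.2.1 with h | h
        · exact h
        · exact absurd (h1.2.1.orb_subset h.1 h.2) hw
      rw [resR_nfull hw fun h => k4.1 (k3.antisymm h), idr_cp k3, img_of_dom k3, ih k1.ctx k2,
        lv_same k1.2.2.2]

theorem gh_self {n : Tl X} {w : X} {ν : Rl X} (h1 : S.Lev w ν) (h2 : S.Nrm n w (ran ν))
    (h3 : ¬ S.Fg w ν) : S.gh n w ν = .cons none w ν n := by
  rw [gh_neg h3, resR_self h1.ctx h2, lv_same h1.2.2.2]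

end LS

end Pool.Agent.P.MP_9ca27c_lc
end

-- part Pool.Agent.P.MP_9ca27c_lc.Path
section

/-! Path independence of the restriction maps. -/

namespace Pool.Agent.P.MP_9ca27c_lc

open Set

variable {M : Type} [Monoid M] {X : Type} [MulAction M X]

namespace LS

variable {S : LS M X}

theorem lv_lv (g : Option X) (w : X) {w' : X} (ν : Rl X) {q : X × Tl X} (h : S.le q.1 w') :
    lv M g w' (cp ν (Tr M w w')) q = lv M g w ν q := by
  simp only [lv, cp_assoc, Tr_Tr w h]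

theorem PT.ctx {w : X} {K : Set X} {p : X × Tl X} (hp : S.PT (.R w K) p) (hK : Cl M K) :
    S.Ctx p.1 (img (Tr M w p.1) K) := Ctx.tr hK hp.1

def P1 (S : LS M X) (n : Tl X) : Prop :=
  ∀ w K L₁ L₂, S.Ctx w K → S.Nrm n w K → Cl M L₁ → L₁ ⊆ K → Cl M L₂ → L₂ ⊆ L₁ →
    S.resR (S.resR n w L₁).2 (S.resR n w L₁).1 (img (Tr M w (S.resR n w L₁).1) L₂) =
      S.resR n w L₂

def P3 (S : LS M X) (n : Tl X) : Prop :=
  ∀ w K L ν, S.Ctx w K → S.Nrm n w K → Cl M L → L ⊆ K → ClR M ν → S.Adm ν → ran ν ⊆ L →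
    S.Fg w ν →
    S.gh (S.resR n w L).2 (S.resR n w L).1 (cp ν (Tr M w (S.resR n w L).1)) = S.pullU n ν

def P2 (S : LS M X) (n : Tl X) : Prop :=
  ∀ w K L ν, S.Ctx w K → S.Nrm n w K → Cl M L → L ⊆ K → ClR M ν → S.Adm ν → ran ν ⊆ L →
    S.gh (S.resR n w L).2 (S.resR n w L).1 (cp ν (Tr M w (S.resR n w L).1)) = S.gh n w ν

def P5 (S : LS M X) (n : Tl X) : Prop :=
  ∀ ν σ, S.HOK n → ClR M ν → S.Adm ν → ClR M σ → S.Adm σ → S.NS σ →
    S.pullU (S.pullU n ν) σ = S.pullU n (cp σ ν)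

def P4 (S : LS M X) (n : Tl X) : Prop :=
  ∀ w K ν σ, S.Ctx w K → S.Nrm n w K → ClR M ν → S.Adm ν → ran ν ⊆ K → ClR M σ → S.Adm σ →
    S.NS σ → S.pullU (S.gh n w ν) σ = S.gh n w (cp σ ν)

theorem P2_of {n : Tl X} (p1 : S.P1 n) (p3 : S.P3 n) : S.P2 n := by
  intro w K L ν h1 h2 h3 h4 h5 h6 h7
  by_cases hF : S.Fg w ν
  · rw [gh_pos hF]; exact p3 w K L ν h1 h2 h3 h4 h5 h6 h7 hF
  have hv := valid_resR h1 h2 h3 h4
  have ho : ran ν ⊆ orb M w := h7.trans (h4.trans h1.2.2)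
  have hv2 := valid_resR (hv.ctx h3) hv.2.2 ((ClR_Tr _ _).cl_img h5.cl_ran) (img_mono _ h7)
  rw [gh_neg hF, gh_neg fun h => hF (h.of_tr ho hv.2.1), ran_cp, lv_lv _ _ _ hv2.2.1,
    p1 w K L _ h1 h2 h3 h4 h5.cl_ran h7]

theorem P4_of {n : Tl X} (p2 : S.P2 n) (p5 : S.P5 n) : S.P4 n := by
  intro w K ν σ h1 h2 h3 h4 h5 h6 h7 h8
  by_cases hF : S.Fg w ν
  · rw [gh_pos hF, gh_pos (hF.comp h8)]; exact p5 ν σ h2.hok h3 h4 h6 h7 h8
  · rw [gh_neg hF, lv, pullU_cons, ← cp_assoc]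
    exact p2 w K _ _ h1 h2 h3.cl_ran h5 (h6.comp h3) (h7.comp h4)
      ((ran_cp _ _).subset.trans (img_subset_ran _ _))

theorem path_aux (n : Tl X) : S.P1 n ∧ S.P3 n ∧ S.P5 n := by
  induction n with
  | top =>
    refine ⟨fun w K L₁ L₂ _ _ _ _ _ _ => by simp only [resR_top],
      fun w K L ν h1 _ _ h4 _ _ h7 h8 => ?_, fun ν σ _ _ _ _ _ _ => ?_⟩
    · simp only [resR_top]
      rw [cp_Tr_same (h7.trans (h4.trans h1.2.2)), gh_pos h8]
    · rw [pullU_top, pullU_top, pullU_virt, dom_cp]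
  | virt D =>
    refine ⟨fun w K L₁ L₂ h1 _ _ h4 _ h6 => ?_,
      fun w K L ν h1 _ _ h4 _ _ h7 h8 => ?_, fun ν σ _ _ _ _ _ _ => ?_⟩
    · by_cases hw : w ∈ L₁
      · simp only [resR_mem hw]
        rw [img_Tr_same (h6.trans (h4.trans h1.2.2))]
      · simp only [resR_virt hw]
        rw [img_Tr_same (h6.trans (h4.trans h1.2.2)), resR_virt fun h => hw (h6 h),
          resR_virt fun h => hw (h6 h), inter_assoc, inter_eq_right.2 h6]
    · by_cases hw : w ∈ L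
      · simp only [resR_mem hw]
        rw [cp_Tr_same (h7.trans (h4.trans h1.2.2)), gh_pos h8]
      · simp only [resR_virt hw]
        rw [cp_Tr_same (h7.trans (h4.trans h1.2.2)), gh_pos h8, pullU_virt, pullU_virt,
          pre_inter h7]
    · rw [pullU_virt, pullU_virt, pullU_virt, pre_cp]
  | cons g w' μ n ih =>
    obtain ⟨p1, p3, p5⟩ := ih
    have p2 := P2_of p1 p3
    have p4 := P4_of p2 p5
    refine ⟨fun w K L₁ L₂ h1 ⟨k1, k2, k3, k4⟩ h3 h4 h5 h6 => ?_,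
      fun w K L ν h1 ⟨k1, k2, k3, k4⟩ h3 h4 h5 h6 h7 h8 => ?_,
      fun ν σ h1 h2 h3 h4 h5 h6 => ?_⟩
    · have ho := h6.trans (h4.trans h1.2.2)
      by_cases hw : w ∈ L₁
      · simp only [resR_mem hw]
        rw [img_Tr_same ho]
      have hw2 : w ∉ L₂ := fun h => hw (h6 h)
      have hv := valid_resR k1.ctx k2 (k1.2.1.cl_img h3) (img_subset_ran μ L₁)
      have ih := p1 _ _ _ _ k1.ctx k2 (k1.2.1.cl_img h3) (img_subset_ran μ L₁)
        (k1.2.1.cl_img h5) (img_mono μ h6)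
      by_cases hg : g = some w
      · subst hg
        by_cases hL : L₁ ⊆ dom μ
        · rw [resR_full hw hL, resR_full hw2 (h6.trans hL), ← ih,
            img_eq_img_Tr k4.2.2.2 k4.2.2.1 (h6.trans hL), ← img_cp, Tr_Tr w hv.2.1]
        · simp only [resR_nfull hw hL]
          have e1 : img (cp (cp (idr L₁) μ) (Tr M w' (S.resR n w' (img μ L₁)).1)) L₂ =
              img (Tr M w' (S.resR n w' (img μ L₁)).1) (img μ L₂) := by
            rw [img_cp, img_cp, img_idr, inter_eq_left.2 h6]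
          have e2 : dom (cp (cp (idr L₁) μ) (Tr M w' (S.resR n w' (img μ L₁)).1)) =
              dom μ ∩ L₁ := by
            rw [dom_cp_Tr (k1.comp h3.clr_idr (Adm_idr _)).2.2.2, dom_cp, pre_idr]
          rw [img_Tr_same ho, lv]
          by_cases hL2 : L₂ ⊆ dom μ
          · rw [resR_full hw2 (by rw [e2]; exact subset_inter hL2 h6), resR_full hw2 hL2, e1, ih]
          · have hv2 := valid_resR (hv.ctx (k1.2.1.cl_img h3)) hv.2.2
              ((ClR_Tr _ _).cl_img (k1.2.1.cl_img h5)) (img_mono _ (img_mono μ h6))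
            rw [resR_nfull hw2 (by rw [e2]; exact fun h => hL2 (h.trans inter_subset_left)),
              resR_nfull hw2 hL2, e1, ← cp_assoc, lv_lv _ _ _ hv2.2.1, ih, ← cp_assoc,
              cp_idr (by rwa [ran_idr])]
      · have hl := k1.comp h3.clr_idr (Adm_idr L₁)
        have hr : ran (cp (idr L₁) μ) ⊆ ran μ := (ran_cp _ _).subset.trans (img_subset_ran _ _)
        simp only [resR_ghost hw hg]
        rw [img_Tr_same ho, resR_U hw2 (valid_gh k1.ctx k2 hl.2.1 hl.2.2.1 hr).1,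
          resR_ghost hw2 hg, p4 _ _ _ _ k1.ctx k2 hl.2.1 hl.2.2.1 hr h5.clr_idr (Adm_idr _)
            (NS_idr _), ← cp_assoc, cp_idr (by rwa [ran_idr])]
    · have ho := h7.trans (h4.trans h1.2.2)
      by_cases hw : w ∈ L
      · simp only [resR_mem hw]
        rw [cp_Tr_same ho, gh_pos h8]
      have hv := valid_resR k1.ctx k2 (k1.2.1.cl_img h3) (img_subset_ran μ L)
      have ih := p2 _ _ _ (cp ν μ) k1.ctx k2 (k1.2.1.cl_img h3) (img_subset_ran μ L)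
        (h5.comp k1.2.1) (h6.comp k1.2.2.1) ((ran_cp _ _).subset.trans (img_mono μ h7))
      rw [pullU_cons]
      by_cases hg : g = some w
      · subst hg
        by_cases hL : L ⊆ dom μ
        · rw [resR_full hw hL, ← ih, cp_eq_cp_Tr k4.2.2.2 k4.2.2.1 (h7.trans hL), cp_assoc,
            Tr_Tr w hv.2.1]
        · simp only [resR_nfull hw hL]
          rw [cp_Tr_same ho, gh_pos h8, lv, pullU_cons, ← ih, ← cp_assoc, ← cp_assoc, cp_idr h7]
      · have hl := k1.comp h3.clr_idr (Adm_idr L)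
        have hr : ran (cp (idr L) μ) ⊆ ran μ := (ran_cp _ _).subset.trans (img_subset_ran _ _)
        simp only [resR_ghost hw hg]
        rw [cp_Tr_same ho, gh_pos h8, p4 _ _ _ _ k1.ctx k2 hl.2.1 hl.2.2.1 hr h5 h6 h8.2,
          ← cp_assoc, cp_idr h7]
    · have hl := h1.1.comp h2 h3
      rw [pullU_cons, pullU_cons, p4 _ _ _ _ h1.1.ctx h1.2 hl.2.1 hl.2.2.1
        ((ran_cp _ _).subset.trans (img_subset_ran _ _)) h4 h5 h6, cp_assoc]

theorem p1 (n : Tl X) : S.P1 n := (path_aux n).1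
theorem p5 (n : Tl X) : S.P5 n := (path_aux n).2.2
theorem p2 (n : Tl X) : S.P2 n := P2_of (p1 n) (path_aux n).2.1
theorem p4 (n : Tl X) : S.P4 n := P4_of (p2 n) (p5 n)

end LS

end Pool.Agent.P.MP_9ca27c_lc
end

-- part Pool.Agent.P.MP_9ca27c_lc.Act
section

/-! The action of the monoid on normal stacks. -/

namespace Pool.Agent.P.MP_9ca27c_lc

open Set

variable {M : Type} [Monoid M] {X : Type} [MulAction M X]

namespace LS

variable (S : LS M X)

noncomputable def relab : Tl X → Rl X → Tl X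
  | .top, _ => .top
  | .virt D, σ => .virt (pre σ D)
  | .cons g w μ n, σ => .cons (g.map (S.app (flip σ))) w (cp σ μ) n

open Classical in
noncomputable def mkmv (w u : X) (n : Tl X) (r : X × Tl X) : X × Tl X :=
  if w ∈ orb M u then (S.rep u, S.relab n (Tr M (S.rep u) u)) else r

open Classical in
noncomputable def mvN : Tl X → X → X × Tl X
  | .top, u => (S.rep u, .top)
  | .virt D, u => if u ∈ D then (S.rep u, .top) else (S.rep u, .virt (pre (Tr M (S.rep u) u) D))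
  | .cons _ w' μ n, u =>
    if u ∈ dom μ then S.mkmv w' (S.app μ u) n (mvN n (S.app μ u))
    else (S.rep u, S.gh n w' (cp (Tr M (S.rep u) u) μ))

noncomputable def mv (n : Tl X) (w u : X) : X × Tl X := S.mkmv w u n (S.mvN n u)

def St (x : X × Tl X) : Prop := S.Lam x.1 ∧ S.Nrm x.2 x.1 (orb M x.1)

noncomputable def act (a : M) (x : X × Tl X) : X × Tl X := S.mv x.2 x.1 (a • x.1)

variable {S}

theorem mv_pos {w u : X} (h : w ∈ orb M u) (n : Tl X) :
    S.mv n w u = (S.rep u, S.relab n (Tr M (S.rep u) u)) := by rw [mv, mkmv, if_pos h]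

theorem mv_neg {w u : X} (h : w ∉ orb M u) (n : Tl X) : S.mv n w u = S.mvN n u := by
  rw [mv, mkmv, if_neg h]

theorem mv_top (w u : X) : S.mv .top w u = (S.rep u, .top) := by
  by_cases h : w ∈ orb M u
  · rw [mv_pos h]; rfl
  · rw [mv_neg h]; rfl

theorem mvN_notMem {n : Tl X} {u : X} (h : u ∉ hdom n) :
    S.mvN n u = (S.rep u, S.pullU n (Tr M (S.rep u) u)) := by
  cases n with
  | top => exact (h trivial).elim
  | virt D => rw [mvN, if_neg (show u ∉ D from h), pullU_virt]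
  | cons g w' μ n => rw [mvN, if_neg (show u ∉ dom μ from h), pullU_cons]

theorem mvN_virt {D : Set X} {u : X} (h : u ∈ D) : S.mvN (.virt D) u = (S.rep u, .top) := by
  rw [mvN, if_pos h]

theorem mvN_cons {μ : Rl X} {u u' : X} (h : μ u u') (h1 : S.Adm μ) (g : Option X) (w' : X)
    (n : Tl X) : S.mvN (.cons g w' μ n) u = S.mv n w' u' := by
  rw [mvN, if_pos ⟨u', h⟩, h1.app_eq h, mv]

theorem Tr_cp (r : X) {σ : Rl X} {a c : X} (h1 : ClR M σ) (h2 : S.Adm σ) (h : σ a c) :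
    cp (Tr M r a) σ = Tr M r c := by
  refine rl_ext fun k k'' => ⟨?_, ?_⟩
  · rintro ⟨_, ⟨z, rfl, rfl⟩, h3⟩
    exact ⟨z, rfl, h2.fn h3 (h1 z _ _ h)⟩
  · rintro ⟨z, rfl, rfl⟩
    exact ⟨_, ⟨z, rfl, rfl⟩, h1 z _ _ h⟩

theorem Ctx.mem_Pt {w u : X} {K : Set X} (h : S.Ctx w K) (hu : u ∈ K) : u ∈ S.Pt := by
  obtain ⟨z, rfl⟩ := h.2.2 hu
  exact S.P_smul h.1.1 z

theorem Adm_rep {u : X} (h : u ∈ S.Pt) : S.Adm (Tr M (S.rep u) u) := Adm_Tr (rep_spec h).2.2

theorem NS_rep {u : X} (h : u ∈ S.Pt) : S.NS (Tr M (S.rep u) u) := NS_Tr (rep_spec h).2.1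

theorem relab_U {n : Tl X} {σ : Rl X} (h : S.Uv n) (h1 : hdom n ⊆ ran σ) (h2 : ClR M σ)
    (h3 : S.Adm σ) : S.relab n σ = S.pullU n σ := by
  cases n with
  | top => exact h.elim
  | virt D => rw [pullU_virt]; rfl
  | cons g w μ n =>
    obtain ⟨rfl, k1, k2, k3⟩ := h
    have e : ran (cp σ μ) = ran μ := by rw [ran_cp, img_of_dom h1]
    rw [pullU_cons, gh_self (k1.comp h2 h3) (by rwa [e])
      fun h => k3 ⟨by rw [← e]; exact h.1, h.2.of_cp_right h1 h3⟩]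
    rfl

def FlagIn (n : Tl X) (A : Set X) : Prop := ∀ g w μ m, n = .cons (some g) w μ m → g ∈ A

theorem Nrm.flagIn {n : Tl X} {w : X} {K : Set X} (h : S.Nrm n w K) (hw : w ∈ K) :
    FlagIn n K := by
  rintro g w' μ m rfl
  rcases h.2.2.2.2.1 with rfl | h
  · exact hw
  · exact h.1

theorem Uv.flagIn {n : Tl X} (h : S.Uv n) (K : Set X) : FlagIn n K := by
  rintro g w' μ m rfl
  cases h.1

theorem NS.app_flip {σ : Rl X} (h : S.NS σ) {a b : X} (h1 : σ a b) : S.app (flip σ) b = a :=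
  Adm.app_eq (ν := flip σ) (by obtain ⟨f, hf, h⟩ := h; exact ⟨f, hf, fun k k' e => h k' k e⟩) h1

theorem relab_relab {n : Tl X} {σ σ' : Rl X} (h : FlagIn n (ran (cp σ' σ))) (h1 : S.NS σ)
    (h2 : S.NS σ') : S.relab (S.relab n σ) σ' = S.relab n (cp σ' σ) := by
  cases n with
  | top => rfl
  | virt D => simp only [relab, pre_cp]
  | cons g w μ n =>
    cases g with
    | none => simp only [relab, cp_assoc, Option.map_none]
    | some g =>
      obtain ⟨a, b, h3, h4⟩ := h g w μ n rfl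
      simp only [relab, cp_assoc, Option.map_some]
      rw [h1.app_flip h4, h2.app_flip h3, (h2.comp h1).app_flip ⟨b, h3, h4⟩]

theorem relab_idr {n : Tl X} {L : Set X} (h : FlagIn n L) (h1 : n = .top ∨ hdom n ⊆ L) :
    S.relab n (idr L) = n := by
  cases n with
  | top => rfl
  | virt D =>
    simp only [relab, pre_idr]
    rw [inter_eq_left.2 (show D ⊆ L from h1.resolve_left (by simp))]
  | cons g w μ n =>
    simp only [relab]
    rw [idr_cp (h1.resolve_left (by simp))]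
    cases g with
    | none => rfl
    | some g => rw [Option.map_some, (NS_idr L).app_flip ⟨h g w μ n rfl, rfl⟩]

theorem Nrm.hdom_subset {n : Tl X} {w : X} {K : Set X} (h : S.Nrm n w K) :
    n = .top ∨ hdom n ⊆ K := by
  cases n with
  | top => exact Or.inl rfl
  | virt D => exact Or.inr h.2.1
  | cons g w' μ n => exact Or.inr h.2.2.1

theorem valid_relab {n : Tl X} {w u u₂ : X} {K : Set X} (h1 : S.Ctx w K) (h2 : S.Nrm n w K)
    (hu : u ∈ K) (hw : w ∈ orb M u) (h3 : S.le u u₂) (h4 : S.le u₂ u) :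
    S.Nrm (S.relab n (Tr M u₂ u)) u₂ (orb M u₂) := by
  have hK : K = orb M u :=
    (h1.2.2.trans ((Cl_orb u).orb_subset hw)).antisymm (h1.2.1.orb_subset hu)
  have hA := Adm_Tr h3
  have hN := NS_Tr h4
  have hpre : ∀ D : Set X, Cl M D → w ∉ D → u₂ ∉ pre (Tr M u₂ u) D := by
    rintro D hD hwD ⟨k, hk, h⟩
    obtain rfl := hA.fn h (Tr_self u₂ u)
    exact hwD (hD.orb_subset hk hw)
  cases n with
  | top => trivial
  | virt D =>
    exact ⟨(ClR_Tr _ _).cl_pre h2.1, (pre_subset_dom _ _).trans (dom_Tr _ _).subset,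
      hpre D h2.1 h2.2.2⟩
  | cons g w' μ n =>
    obtain ⟨k1, k2, k3, k4⟩ := h2
    have hd : dom μ ⊆ ran (Tr M u₂ u) := by rw [ran_Tr, ← hK]; exact k3
    have e : ran (cp (Tr M u₂ u) μ) = ran μ := by rw [ran_cp, img_of_dom hd]
    refine ⟨k1.comp (ClR_Tr _ _) hA, by rwa [e],
      (dom_cp _ _).subset.trans ((pre_subset_dom _ _).trans (dom_Tr _ _).subset), ?_⟩
    cases g with
    | none =>
      exact ⟨by rw [dom_cp]; exact hpre _ k1.2.1.cl_dom k4.1,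
        fun h => k4.2 ⟨by rw [← e]; exact h.1, h.2.of_cp_right hd hA⟩⟩
    | some g =>
      have hwK : w ∈ K := by rw [hK]; exact hw
      have hg : g ∈ K ∧ w ∈ orb M g := by
        rcases k4.2.1 with rfl | h
        · exact ⟨hwK, mem_orb _⟩
        · exact h
      have hwd : w ∉ dom μ := fun h =>
        k4.1 (k3.antisymm (h1.2.2.trans (k1.2.1.cl_dom.orb_subset h)))
      obtain ⟨s, hs⟩ := hK.subset hg.1
      have hσ : Tr M u₂ u (s • u₂) g := ⟨s, rfl, hs⟩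
      obtain ⟨t, ht⟩ := (Cl_orb g).orb_subset hg.2 (h1.2.2 hu)
      rw [Option.map_some, hN.app_flip hσ]
      refine ⟨fun h => hpre _ k1.2.1.cl_dom hwd ?_, Or.inr ⟨⟨s, rfl⟩, t, ?_⟩,
        le_trans k4.2.2.1 (hA.le_of hσ), ?_⟩
      · rw [← dom_cp, h]; exact mem_orb _
      · have h7 := ClR_Tr _ _ t _ _ hσ
        rw [← ht] at h7
        exact hN.inj (Tr_self u₂ u) h7
      · rintro a b ⟨k, h5, h6⟩
        obtain ⟨z, rfl, rfl⟩ := k4.2.2.2 _ _ h6
        exact ⟨z, hN.inj h5 (ClR_Tr _ _ z _ _ hσ), rfl⟩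

theorem valid_mvN {n : Tl X} : ∀ {u : X}, S.HOK n → u ∈ S.Pt →
    S.St (S.mvN n u) ∧ S.le (S.mvN n u).1 u := by
  have hn : ∀ (n : Tl X) {u : X}, S.HOK n → u ∈ S.Pt → u ∉ hdom n →
      S.St (S.mvN n u) ∧ S.le (S.mvN n u).1 u := by
    intro n u h1 h2 h3
    rw [mvN_notMem h3]
    have := valid_pullU h1 (ClR_Tr (S.rep u) u) (Adm_rep h2)
    refine ⟨⟨rep_lam h2, this.1.nrm
      (this.2.trans ((pre_subset_dom _ _).trans (dom_Tr _ _).subset)) fun h => ?_⟩,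
      (rep_spec h2).2.1⟩
    obtain ⟨k, hk, h⟩ := this.2 h
    exact h3 ((Adm_rep h2).fn h (Tr_self _ _) ▸ hk)
  induction n with
  | top => intro u _ h2; exact ⟨⟨rep_lam h2, trivial⟩, (rep_spec h2).2.1⟩
  | virt D =>
    intro u h1 h2
    by_cases h : u ∈ D
    · rw [mvN_virt h]; exact ⟨⟨rep_lam h2, trivial⟩, (rep_spec h2).2.1⟩
    · exact hn _ h1 h2 h
  | cons g w' μ n ih =>
    intro u h1 h2
    by_cases h : u ∈ dom μ
    · obtain ⟨u', hu'⟩ := h
      have hP := h1.1.ctx.mem_Pt ⟨u, hu'⟩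
      rw [mvN_cons hu' h1.1.2.2.1]
      by_cases hw : w' ∈ orb M u'
      · rw [mv_pos hw]
        exact ⟨⟨rep_lam hP, valid_relab h1.1.ctx h1.2 ⟨u, hu'⟩ hw (rep_spec hP).2.2
          (rep_spec hP).2.1⟩, le_trans (rep_spec hP).2.1 (h1.1.2.2.1.le_of hu')⟩
      · rw [mv_neg hw]
        have := ih h1.2.hok hP
        exact ⟨this.1, le_trans this.2 (h1.1.2.2.1.le_of hu')⟩
    · exact hn _ h1 h2 h

theorem valid_mv {n : Tl X} {w u : X} {K : Set X} (h1 : S.Ctx w K) (h2 : S.Nrm n w K)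
    (hu : u ∈ K) : S.St (S.mv n w u) ∧ S.le (S.mv n w u).1 u := by
  have hP := h1.mem_Pt hu
  by_cases hw : w ∈ orb M u
  · rw [mv_pos hw]
    exact ⟨⟨rep_lam hP, valid_relab h1 h2 hu hw (rep_spec hP).2.2 (rep_spec hP).2.1⟩,
      (rep_spec hP).2.1⟩
  · rw [mv_neg hw]; exact valid_mvN h2.hok hP

theorem mvN_relab {n : Tl X} {σ : Rl X} {u₁ u₂ : X} (h : S.HOK n) (h1 : ClR M σ) (h2 : S.Adm σ)
    (h3 : S.NS σ) (h4 : σ u₂ u₁) : S.mvN (S.relab n σ) u₂ = S.mvN n u₁ := by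
  have e : S.rep u₂ = S.rep u₁ := rep_congr (h3.le_of h4) (h2.le_of h4)
  have hp : ∀ D : Set X, u₂ ∈ pre σ D ↔ u₁ ∈ D :=
    fun D => ⟨fun ⟨k, hk, h5⟩ => h2.fn h5 h4 ▸ hk, fun hk => ⟨u₁, hk, h4⟩⟩
  cases n with
  | top => simp only [relab, mvN, e]
  | virt D =>
    by_cases hu : u₁ ∈ D
    · rw [relab, mvN_virt hu, mvN_virt ((hp D).2 hu), e]
    · rw [relab, mvN_notMem (n := .virt D) hu,
        mvN_notMem (n := .virt (pre σ D)) fun h => hu ((hp D).1 h), pullU_virt, pullU_virt,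
        ← pre_cp, Tr_cp _ h1 h2 h4, e]
  | cons g w μ n =>
    by_cases hu : u₁ ∈ dom μ
    · obtain ⟨u', hu'⟩ := hu
      rw [relab, mvN_cons ⟨u₁, h4, hu'⟩ (h2.comp h.1.2.2.1), mvN_cons hu' h.1.2.2.1]
    · rw [relab, mvN_notMem (n := .cons g w μ n) hu,
        mvN_notMem (n := .cons _ w (cp σ μ) n) fun h => hu ((hp _).1 ((dom_cp _ _).subset h)),
        pullU_cons, pullU_cons, ← cp_assoc, Tr_cp _ h1 h2 h4, e]

theorem mvN_gh_notMem {n : Tl X} {w u : X} {K : Set X} {ν : Rl X} (h1 : S.Ctx w K)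
    (h2 : S.Nrm n w K) (h3 : ClR M ν) (h4 : S.Adm ν) (h5 : ran ν ⊆ K) (hu : u ∈ S.Pt)
    (h6 : u ∉ dom ν) :
    S.mvN (S.gh n w ν) u = (S.rep u, S.gh n w (cp (Tr M (S.rep u) u) ν)) := by
  rw [mvN_notMem fun h => h6 ((valid_gh h1 h2 h3 h4 h5).2 h),
    p4 n w K ν _ h1 h2 h3 h4 h5 (ClR_Tr _ _) (Adm_rep hu) (NS_rep hu)]

def Q1 (S : LS M X) (n : Tl X) : Prop :=
  ∀ w K L u u'', S.Ctx w K → S.Nrm n w K → Cl M L → L ⊆ K → u ∈ L →
    Tr M w (S.resR n w L).1 u u'' → S.mv (S.resR n w L).2 (S.resR n w L).1 u'' = S.mv n w u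

def Q2 (S : LS M X) (n : Tl X) : Prop :=
  ∀ σ u₂ u₁, S.HOK n → ClR M σ → S.Adm σ → S.NS σ → σ u₂ u₁ → u₂ ∈ S.Pt →
    S.mvN (S.pullU n σ) u₂ = S.mvN n u₁

def Q3 (S : LS M X) (n : Tl X) : Prop :=
  ∀ w K ν u₂ u', S.Ctx w K → S.Nrm n w K → ClR M ν → S.Adm ν → ran ν ⊆ K → ν u₂ u' →
    u₂ ∈ S.Pt → S.mvN (S.gh n w ν) u₂ = S.mv n w u'

theorem Q3_of {n : Tl X} (q1 : S.Q1 n) (q2 : S.Q2 n) : S.Q3 n := by
  intro w K ν u₂ u' h1 h2 h3 h4 h5 h6 h7
  by_cases hF : S.Fg w ν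
  · rw [gh_pos hF, q2 ν u₂ u' h2.hok h3 h4 hF.2 h6 h7,
      mv_neg fun h => hF.1 (h3.cl_ran.orb_subset ⟨u₂, h6⟩ h)]
  · have hv := valid_resR h1 h2 h3.cl_ran h5
    obtain ⟨z, hz⟩ := h1.2.2 (h5 ⟨u₂, h6⟩)
    have hT : Tr M w (S.resR n w (ran ν)).1 u' (z • (S.resR n w (ran ν)).1) := ⟨z, hz, rfl⟩
    rw [gh_neg hF, lv, mvN_cons ⟨u', h6, hT⟩ (h4.comp (Adm_Tr hv.2.1))]
    exact q1 w K _ u' _ h1 h2 h3.cl_ran h5 ⟨u₂, h6⟩ hT

theorem q_aux (n : Tl X) : S.Q1 n ∧ S.Q2 n := by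
  have same : ∀ {w u u'' : X}, Tr M w w u u'' → u'' = u := by
    rintro w _ _ ⟨z, rfl, rfl⟩; rfl
  induction n with
  | top =>
    refine ⟨fun w K L u u'' _ _ _ _ _ h6 => ?_, fun σ u₂ u₁ _ h2 h3 h4 h5 _ => ?_⟩
    · simp only [resR_top] at h6 ⊢
      rw [same h6]
    · rw [pullU_top, mvN_virt (D := dom σ) ⟨u₁, h5⟩, rep_congr (h4.le_of h5) (h3.le_of h5)]; rfl
  | virt D =>
    refine ⟨fun w K L u u'' _ _ h3 _ h5 h6 => ?_, fun σ u₂ u₁ h1 h2 h3 h4 h5 _ => ?_⟩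
    · by_cases hw : w ∈ L
      · simp only [resR_mem hw] at h6 ⊢
        rw [same h6]
      · simp only [resR_virt hw] at h6 ⊢
        have hw2 : w ∉ orb M u := fun h => hw (h3.orb_subset h5 h)
        rw [same h6, mv_neg hw2, mv_neg hw2]
        by_cases hu : u ∈ D
        · rw [mvN_virt hu, mvN_virt (D := D ∩ L) ⟨hu, h5⟩]
        · rw [mvN_notMem (n := .virt D) hu, mvN_notMem (n := .virt (D ∩ L)) fun h => hu h.1,
            pullU_virt, pullU_virt, pre_inter ((ran_Tr _ _).subset.trans (h3.orb_subset h5))]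
    · exact mvN_relab (n := .virt D) h1 h2 h3 h4 h5
  | cons g w' μ n ih =>
    obtain ⟨q1, q2⟩ := ih
    have q3 := Q3_of q1 q2
    refine ⟨fun w K L u u'' h1 ⟨k1, k2, k3, k4⟩ h3 h4 h5 h6 => ?_,
      fun σ u₂ u₁ h1 h2 h3 h4 h5 h6 => ?_⟩
    · by_cases hw : w ∈ L
      · simp only [resR_mem hw] at h6 ⊢
        rw [same h6]
      have hw2 : w ∉ orb M u := fun h => hw (h3.orb_subset h5 h)
      have hP := h1.mem_Pt (h4 h5)
      have hv := valid_resR k1.ctx k2 (k1.2.1.cl_img h3) (img_subset_ran μ L)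
      have hoL : ran (Tr M (S.rep u) u) ⊆ L := (ran_Tr _ _).subset.trans (h3.orb_subset h5)
      rw [mv_neg hw2]
      by_cases hg : g = some w
      · subst hg
        by_cases hL : L ⊆ dom μ
        · obtain ⟨u₁, hu₁⟩ := hL h5
          rw [resR_full hw hL] at h6 ⊢
          rw [mvN_cons hu₁ k1.2.2.1]
          refine q1 _ _ _ u₁ _ k1.ctx k2 (k1.2.1.cl_img h3) (img_subset_ran μ L) ⟨u, h5, hu₁⟩ ?_
          obtain ⟨z, rfl, rfl⟩ := h6
          exact ⟨z, (Adm_Tr k4.2.2.1).fn (k4.2.2.2 _ _ hu₁) ⟨z, rfl, rfl⟩, rfl⟩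
        · simp only [resR_nfull hw hL] at h6 ⊢
          rw [same h6, mv_neg hw2, lv]
          by_cases hu : u ∈ dom μ
          · obtain ⟨u₁, hu₁⟩ := hu
            obtain ⟨z, hz⟩ := k1.2.2.2 ⟨u, hu₁⟩
            have hT : Tr M w' (S.resR n w' (img μ L)).1 u₁ (z • (S.resR n w' (img μ L)).1) :=
              ⟨z, hz, rfl⟩
            rw [mvN_cons hu₁ k1.2.2.1, mvN_cons ⟨u₁, ⟨u, ⟨h5, rfl⟩, hu₁⟩, hT⟩
              (((Adm_idr L).comp k1.2.2.1).comp (Adm_Tr hv.2.1))]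
            exact q1 _ _ _ u₁ _ k1.ctx k2 (k1.2.1.cl_img h3) (img_subset_ran μ L) ⟨u, h5, hu₁⟩ hT
          · rw [mvN_notMem (n := .cons _ _ μ _) hu, mvN_notMem, pullU_cons, pullU_cons,
              ← cp_assoc, ← cp_assoc, cp_idr hoL,
              p2 n _ _ _ _ k1.ctx k2 (k1.2.1.cl_img h3) (img_subset_ran μ L)
                ((ClR_Tr _ _).comp k1.2.1) ((Adm_rep hP).comp k1.2.2.1)
                ((ran_cp _ _).subset.trans (img_mono μ hoL))]
            rintro ⟨_, k, ⟨_, ⟨-, rfl⟩, h⟩, -⟩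
            exact hu ⟨k, h⟩
      · have hl := k1.comp h3.clr_idr (Adm_idr L)
        have hr : ran (cp (idr L) μ) ⊆ ran μ := (ran_cp _ _).subset.trans (img_subset_ran _ _)
        simp only [resR_ghost hw hg] at h6 ⊢
        rw [same h6, mv_neg hw2]
        by_cases hu : u ∈ dom μ
        · obtain ⟨u₁, hu₁⟩ := hu
          rw [mvN_cons hu₁ k1.2.2.1]
          exact q3 _ _ _ _ _ k1.ctx k2 hl.2.1 hl.2.2.1 hr ⟨u, ⟨h5, rfl⟩, hu₁⟩ hP
        · rw [mvN_gh_notMem k1.ctx k2 hl.2.1 hl.2.2.1 hr hP, mvN_notMem (n := .cons _ _ μ _) hu,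
            pullU_cons, ← cp_assoc, cp_idr hoL]
          rintro ⟨k, _, ⟨-, rfl⟩, h⟩
          exact hu ⟨k, h⟩
    · have hl := h1.1.comp h2 h3
      have hr : ran (cp σ μ) ⊆ ran μ := (ran_cp _ _).subset.trans (img_subset_ran _ _)
      rw [pullU_cons]
      by_cases hu : u₁ ∈ dom μ
      · obtain ⟨u', hu'⟩ := hu
        rw [mvN_cons hu' h1.1.2.2.1]
        exact q3 _ _ _ _ _ h1.1.ctx h1.2 hl.2.1 hl.2.2.1 hr ⟨u₁, h5, hu'⟩ h6
      · rw [mvN_gh_notMem h1.1.ctx h1.2 hl.2.1 hl.2.2.1 hr h6, mvN_notMem (n := .cons _ _ μ _) hu,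
          pullU_cons, ← cp_assoc, Tr_cp _ h2 h3 h5, rep_congr (h4.le_of h5) (h3.le_of h5)]
        rintro ⟨k, k', h7, h8⟩
        exact hu ⟨k, h3.fn h7 h5 ▸ h8⟩

theorem mv_mv (b : M) {n : Tl X} : ∀ {w u : X} {K : Set X}, S.Ctx w K → S.Nrm n w K → u ∈ K →
    S.act b (S.mv n w u) = S.mv n w (b • u) := by
  have hiff : ∀ {u : X}, u ∈ S.Pt → (S.rep u ∈ orb M (b • S.rep u) ↔ u ∈ orb M (b • u)) := by
    intro u hP
    constructor
    · rintro ⟨z, hz⟩
      refine ⟨z, ?_⟩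
      have := (rep_spec hP).2.2.eq (z := 1) (z' := z * b) (by rwa [one_smul, mul_smul])
      rwa [one_smul, mul_smul] at this
    · rintro ⟨z, hz⟩
      refine ⟨z, ?_⟩
      have := (rep_spec hP).2.1.eq (z := 1) (z' := z * b) (by rwa [one_smul, mul_smul])
      rwa [one_smul, mul_smul] at this
  have hrep : ∀ {u : X}, u ∈ S.Pt → S.rep (b • S.rep u) = S.rep (b • u) := fun hP =>
    rep_congr ((rep_spec hP).2.1.smul b) ((rep_spec hP).2.2.smul b)
  have hT : ∀ {u : X}, u ∈ S.Pt → cp (Tr M (S.rep (b • u)) (b • S.rep u)) (Tr M (S.rep u) u) =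
      Tr M (S.rep (b • u)) (b • u) := fun hP =>
    Tr_cp _ (ClR_Tr _ _) (Adm_rep hP) ⟨b, rfl, rfl⟩
  have hA : ∀ {u : X}, u ∈ S.Pt → S.Adm (Tr M (S.rep (b • u)) (b • S.rep u)) := fun hP => by
    rw [← hrep hP]; exact Adm_rep (S.P_smul (rep_spec hP).1 b)
  have hN : ∀ {u : X}, u ∈ S.Pt → S.NS (Tr M (S.rep (b • u)) (b • S.rep u)) := fun hP => by
    rw [← hrep hP]; exact NS_rep (S.P_smul (rep_spec hP).1 b)
  have pos : ∀ (n : Tl X) {w u : X} {K : Set X}, S.Ctx w K → S.Nrm n w K → u ∈ K →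
      w ∈ orb M u → S.act b (S.mv n w u) = S.mv n w (b • u) := by
    intro n w u K h1 h2 hu hw
    have hP := h1.mem_Pt hu
    rw [mv_pos hw, act]
    dsimp only
    by_cases hb : u ∈ orb M (b • u)
    · have hw2 : w ∈ orb M (b • u) := (Cl_orb _).orb_subset hb hw
      rw [mv_pos ((hiff hP).2 hb), mv_pos hw2, hrep hP, relab_relab _ (NS_rep hP) (hN hP), hT hP]
      rw [hT hP, ran_Tr]
      intro g w' μ m e
      exact (Cl_orb _).orb_subset hw2
        (h1.2.2 (h2.flagIn (h1.2.1.orb_subset hu hw) g w' μ m e))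
    · rw [mv_neg fun h => hb ((hiff hP).1 h),
        mv_neg fun h => hb ((Cl_orb _).orb_subset h (h1.2.2 hu))]
      exact mvN_relab h2.hok (ClR_Tr _ _) (Adm_rep hP) (NS_rep hP) ⟨b, rfl, rfl⟩
  have nmem : ∀ (n : Tl X) {u : X}, S.HOK n → Cl M (hdom n) → u ∈ S.Pt → u ∉ hdom n →
      S.act b (S.mvN n u) = S.mvN n (b • u) := by
    intro n u h1 hc hP hu
    rw [mvN_notMem hu, act]
    dsimp only
    have hv := valid_pullU h1 (ClR_Tr (S.rep u) u) (Adm_rep hP)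
    by_cases hb : u ∈ orb M (b • u)
    · rw [mv_pos ((hiff hP).2 hb), mvN_notMem fun h => hu (hc.orb_subset h hb), hrep hP,
        relab_U hv.1 _ (ClR_Tr _ _) (hA hP),
        p5 n _ _ h1 (ClR_Tr _ _) (Adm_rep hP) (ClR_Tr _ _) (hA hP) (hN hP), hT hP]
      rw [ran_Tr]
      exact hv.2.trans ((pre_subset_dom _ _).trans ((dom_Tr _ _).subset.trans
        ((Cl_orb _).orb_subset ((hiff hP).2 hb))))
    · rw [mv_neg fun h => hb ((hiff hP).1 h)]
      exact (q_aux n).2 _ _ _ h1 (ClR_Tr _ _) (Adm_rep hP) (NS_rep hP) ⟨b, rfl, rfl⟩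
        (S.P_smul (rep_spec hP).1 b)
  have hneg : ∀ {w u : X}, w ∉ orb M u → w ∉ orb M (b • u) :=
    fun hw h => hw ((Cl_orb _).orb_subset ⟨b, rfl⟩ h)
  induction n with
  | top => intro w u K h1 _ hu; rw [mv_top, mv_top, act, mv_top, hrep (h1.mem_Pt hu)]
  | virt D =>
    intro w u K h1 h2 hu
    by_cases hw : w ∈ orb M u
    · exact pos _ h1 h2 hu hw
    rw [mv_neg hw, mv_neg (hneg hw)]
    by_cases hD : u ∈ D
    · rw [mvN_virt hD, mvN_virt (h2.1 b u hD), act, mv_top, hrep (h1.mem_Pt hu)]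
    · exact nmem _ h2.hok h2.1 (h1.mem_Pt hu) hD
  | cons g w' μ n ih =>
    intro w u K h1 h2 hu
    by_cases hw : w ∈ orb M u
    · exact pos _ h1 h2 hu hw
    rw [mv_neg hw, mv_neg (hneg hw)]
    by_cases hD : u ∈ dom μ
    · obtain ⟨u', hu'⟩ := hD
      rw [mvN_cons hu' h2.1.2.2.1, mvN_cons (h2.1.2.1 b _ _ hu') h2.1.2.2.1]
      exact ih h2.1.ctx h2.2.1 ⟨u, hu'⟩
    · exact nmem _ h2.hok h2.1.2.1.cl_dom (h1.mem_Pt hu) hD

theorem St.ctx {x : X × Tl X} (h : S.St x) : S.Ctx x.1 (orb M x.1) :=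
  ⟨h.1, Cl_orb _, subset_rfl⟩

theorem act_act {x : X × Tl X} (h : S.St x) (a b : M) :
    S.act b (S.act a x) = S.act (b * a) x := by
  have := mv_mv b h.ctx h.2 ⟨a, rfl⟩
  rw [← mul_smul] at this
  exact this

theorem mv_self {x : X × Tl X} (h : S.St x) : S.mv x.2 x.1 x.1 = x := by
  rw [mv_pos (mem_orb _), h.1.2, Tr_same,
    relab_idr (h.2.flagIn (mem_orb _)) h.2.hdom_subset]

theorem act_fix {x : X × Tl X} (h : S.St x) {a : M} (ha : a • x.1 = x.1) : S.act a x = x := by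
  rw [act, ha, mv_self h]

theorem valid_act {x : X × Tl X} (h : S.St x) (a : M) :
    S.St (S.act a x) ∧ S.le (S.act a x).1 (a • x.1) := valid_mv h.ctx h.2 ⟨a, rfl⟩

end LS

end Pool.Agent.P.MP_9ca27c_lc
end

-- part Pool.Agent.P.MP_9ca27c_lc.Graft
section

/-! Grafting of stacks and the induced order. -/

namespace Pool.Agent.P.MP_9ca27c_lc

open Set

variable {M : Type} [Monoid M] {X : Type} [MulAction M X]

def ty : Tl X → X → Set X → Ty X
  | .top, w, K => .R w K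
  | .virt D, _, _ => .U D
  | .cons _ w' μ n, _, _ => ty n w' (ran μ)

def graft (M : Type) [Monoid M] {X : Type} [MulAction M X] : Tl X → X → X × Tl X → X × Tl X
  | .top, _, p => p
  | .virt _, w, p => (w, p.2)
  | .cons g w' μ n, w, p => (w, lv M g w' μ (graft M n w' p))

def vis (M : Type) [Monoid M] {X : Type} [MulAction M X] : Ty X → X × Tl X → Set X
  | .R w K, z => img (Tr M w z.1) K
  | .U _, _ => ∅

def tyE (M : Type) [Monoid M] {X : Type} [MulAction M X] (τ : Ty X) (z : X × Tl X) : Ty X :=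
  ty z.2 z.1 (vis M τ z)

def gr (M : Type) [Monoid M] {X : Type} [MulAction M X] (z s : X × Tl X) : X × Tl X :=
  graft M z.2 z.1 s

theorem g_fst {n : Tl X} (h : n ≠ .top) (w : X) (z : X × Tl X) : (graft M n w z).1 = w := by
  cases n with
  | top => exact (h rfl).elim
  | virt D => rfl
  | cons => rfl

theorem g_ne {n : Tl X} (h : n ≠ .top) (w w₂ : X) (z : X × Tl X) :
    graft M n w z = (w, (graft M n w₂ z).2) := by
  cases n with
  | top => exact (h rfl).elim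
  | virt D => rfl
  | cons => rfl

theorem ty_ne {n : Tl X} (h : n ≠ .top) (w w₂ : X) (K K₂ : Set X) : ty n w K = ty n w₂ K₂ := by
  cases n with
  | top => exact (h rfl).elim
  | virt D => rfl
  | cons => rfl

namespace LS

variable (S : LS M X)

def TyOK : Ty X → Prop
  | .R w K => S.Ctx w K
  | .U D => Cl M D ∧ ∃ w ∈ S.Pt, D ⊆ orb M w

def topE : Ty X → X × Tl X
  | .R w _ => (w, .top)
  | .U D => (S.top, .virt D)

def LeC (n : Tl X) (w : X) (K : Set X) (y : X × Tl X) : Prop :=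
  ∃ z, S.PT (ty n w K) z ∧ y = graft M n w z

variable {S}

theorem g_ok {n : Tl X} : ∀ {w : X} {K : Set X}, S.Ctx w K → S.Nrm n w K → S.TyOK (ty n w K) := by
  induction n with
  | top => intro w K h1 _; exact h1
  | virt D => intro w K h1 h2; exact ⟨h2.1, w, h1.1.1, h2.2.1.trans h1.2.2⟩
  | cons g w' μ n ih => intro w K _ h2; exact ih h2.1.ctx h2.2.1

theorem g_valid {n : Tl X} : ∀ {w : X} {K : Set X} {z : X × Tl X}, S.Ctx w K → S.Nrm n w K →
    S.PT (ty n w K) z → S.PT (.R w K) (graft M n w z) := by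
  induction n with
  | top => intro w K z _ _ h3; exact h3
  | virt D =>
    intro w K z h1 h2 h3
    exact PT_same h1 (h3.2.1.nrm (h3.2.2.trans h2.2.1) fun h => h2.2.2 (h3.2.2 h))
  | cons g w' μ n ih =>
    intro w K z h1 h2 h3
    exact PT_same h1 (Nrm_lv h2.1 h2.2.2.1 h2.2.2.2 (ih h2.1.ctx h2.2.1 h3))

theorem g_validU {n : Tl X} {w : X} {K : Set X} {z : X × Tl X} (h : S.Uv n)
    (h3 : S.PT (ty n w K) z) :
    S.Uv (graft M n w z).2 ∧ hdom (graft M n w z).2 ⊆ hdom n := by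
  cases n with
  | top => exact h.elim
  | virt D => exact h3.2
  | cons g w' μ n =>
    obtain ⟨rfl, k1, k2, k3⟩ := h
    exact ⟨Uv_lv k1 k3 (g_valid k1.ctx k2 h3), (hdom_lv k1.2.2.2 _).subset⟩

theorem g_ty {n : Tl X} : ∀ {w : X} {K : Set X} {r : X × Tl X}, S.PT (ty n w K) r →
    tyE M (.R w K) (graft M n w r) = tyE M (ty n w K) r := by
  induction n with
  | top => intro w K r _; rfl
  | virt D => intro w K r h; exact ty_ne h.2.1.ne_top _ _ _ _
  | cons g w' μ n ih =>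
    intro w K r h
    rw [show ty (.cons g w' μ n) w K = ty n w' (ran μ) from rfl, ← ih h]
    simp only [tyE, graft, lv, ty, vis, ran_cp]

theorem g_assoc {n : Tl X} : ∀ {w : X} {K : Set X} {r s : X × Tl X}, S.Ctx w K → S.Nrm n w K →
    S.PT (ty n w K) r → S.PT (tyE M (ty n w K) r) s →
    gr M (graft M n w r) s = graft M n w (gr M r s) := by
  induction n with
  | top => intro w K r s _ _ _ _; rfl
  | virt D => intro w K r s _ _ h _; exact g_ne h.2.1.ne_top _ _ _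
  | cons g w' μ n ih =>
    intro w K r s _ h2 h3 h4
    have hv := g_valid h2.1.ctx h2.2.1 h3
    have h5 : S.PT (tyE M (.R w' (ran μ)) (graft M n w' r)) s := by
      rw [g_ty (n := n) h3]; exact h4
    have hv2 := g_valid (hv.ctx h2.1.2.1.cl_ran) hv.2.2 h5
    have := ih h2.1.ctx h2.2.1 h3 h4
    simp only [gr, graft] at this ⊢
    rw [← this, lv, graft, lv_lv _ _ _ hv2.2.1]

theorem topE_valid {τ : Ty X} (h : S.TyOK τ) : S.PT τ (S.topE τ) := by
  cases τ with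
  | R w K => exact PT_same h trivial
  | U D => exact ⟨rfl, h.1, subset_rfl⟩

theorem g_top {n : Tl X} : ∀ {w : X} {K : Set X}, S.HOK n →
    graft M n w (S.topE (ty n w K)) = (w, n) := by
  induction n with
  | top => intro w K _; rfl
  | virt D => intro w K _; rfl
  | cons g w' μ n ih =>
    intro w K h
    simp only [graft, ty]
    rw [ih h.2.hok, lv_same h.1.2.2.2]

theorem g_inj {n : Tl X} : ∀ {w : X} {K : Set X} {z₁ z₂ : X × Tl X}, S.PT (ty n w K) z₁ →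
    S.PT (ty n w K) z₂ → graft M n w z₁ = graft M n w z₂ → z₁ = z₂ := by
  induction n with
  | top => intro w K z₁ z₂ _ _ h; exact h
  | virt D =>
    intro w K z₁ z₂ h1 h2 h
    exact Prod.ext (h1.1.trans h2.1.symm) (Prod.mk.inj h).2
  | cons g w' μ n ih =>
    intro w K z₁ z₂ h1 h2 h
    simp only [graft, lv, Prod.mk.injEq, Tl.cons.injEq, true_and] at h
    exact ih h1 h2 (Prod.ext h.1 h.2.2)

theorem PT.hok {τ : Ty X} {r : X × Tl X} (h : S.PT τ r) : S.HOK r.2 := by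
  cases τ with
  | R w K => exact h.2.2.hok
  | U D => exact h.2.1.hok

theorem tyE_ok {τ : Ty X} {r : X × Tl X} (h : S.TyOK τ) (hr : S.PT τ r) :
    S.TyOK (tyE M τ r) := by
  cases τ with
  | R w K => exact g_ok (hr.ctx h.2.1) hr.2.2
  | U D =>
    obtain ⟨w, n⟩ := r
    cases n with
    | top => exact hr.2.1.elim
    | virt D₁ =>
      obtain ⟨w', h1, h2⟩ := h.2
      exact ⟨hr.2.1, w', h1, hr.2.2.trans h2⟩
    | cons g w' μ n => exact g_ok (n := n) hr.2.1.2.1.ctx hr.2.1.2.2.1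

theorem gr_valid {τ : Ty X} {r s : X × Tl X} (h : S.TyOK τ) (hr : S.PT τ r)
    (hs : S.PT (tyE M τ r) s) : S.PT τ (gr M r s) := by
  cases τ with
  | R w K => exact (g_valid (hr.ctx h.2.1) hr.2.2 hs).trans hr.2.1
  | U D =>
    have := g_validU hr.2.1 hs
    exact ⟨(g_fst hr.2.1.ne_top _ _).trans hr.1, this.1, this.2.trans hr.2.2⟩

theorem LeC.refl {n : Tl X} {w : X} {K : Set X} (h1 : S.Ctx w K) (h2 : S.Nrm n w K) :
    S.LeC n w K (w, n) := ⟨_, topE_valid (g_ok h1 h2), (g_top h2.hok).symm⟩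

theorem LeC.valid {n : Tl X} {w : X} {K : Set X} {y : X × Tl X} (h1 : S.Ctx w K)
    (h2 : S.Nrm n w K) (h : S.LeC n w K y) : S.PT (.R w K) y := by
  obtain ⟨z, hz, rfl⟩ := h; exact g_valid h1 h2 hz

theorem LeC.trans {n : Tl X} {w : X} {K : Set X} {y y' : X × Tl X} (h1 : S.Ctx w K)
    (h2 : S.Nrm n w K) (h : S.LeC n w K y) (h' : S.LeC y.2 y.1 (img (Tr M w y.1) K) y') :
    S.LeC n w K y' := by
  obtain ⟨z, hz, rfl⟩ := h
  obtain ⟨s, hs, rfl⟩ := h'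
  have hs' : S.PT (tyE M (ty n w K) z) s := by rw [← g_ty hz]; exact hs
  exact ⟨_, gr_valid (g_ok h1 h2) hz hs', g_assoc h1 h2 hz hs'⟩

theorem LeC_top {w : X} {K : Set X} {y : X × Tl X} : S.LeC .top w K y ↔ S.PT (.R w K) y :=
  ⟨by rintro ⟨z, hz, rfl⟩; exact hz, fun h => ⟨y, h, rfl⟩⟩

theorem LeC_virt {w : X} {K D : Set X} {y : X × Tl X} :
    S.LeC (.virt D) w K y ↔ y.1 = w ∧ S.Uv y.2 ∧ hdom y.2 ⊆ D :=
  ⟨by rintro ⟨z, hz, rfl⟩; exact ⟨rfl, hz.2⟩,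
    fun h => ⟨(S.top, y.2), ⟨rfl, h.2⟩, Prod.ext h.1 rfl⟩⟩

theorem LeC_cons {w w' : X} {K : Set X} {g : Option X} {μ : Rl X} {n : Tl X} {y : X × Tl X} :
    S.LeC (.cons g w' μ n) w K y ↔ ∃ q, S.LeC n w' (ran μ) q ∧ y = (w, lv M g w' μ q) :=
  ⟨by rintro ⟨z, hz, rfl⟩; exact ⟨_, ⟨z, hz, rfl⟩, rfl⟩,
    by rintro ⟨_, ⟨z, hz, rfl⟩, rfl⟩; exact ⟨z, hz, rfl⟩⟩

theorem LeC.fst {n : Tl X} {w : X} {K : Set X} {y : X × Tl X} (h : S.LeC n w K y)
    (hn : n ≠ .top) : y.1 = w := by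
  obtain ⟨z, -, rfl⟩ := h; exact g_fst hn _ _

theorem LeC.antisymm {n : Tl X} : ∀ {w : X} {K : Set X} {y : X × Tl X}, S.Ctx w K → S.Nrm n w K →
    S.LeC n w K y → S.LeC y.2 y.1 (img (Tr M w y.1) K) (w, n) → y = (w, n) := by
  induction n with
  | top =>
    rintro w K ⟨u, m⟩ h1 _ h3 h4
    rw [LeC_top] at h3
    cases m with
    | top => rw [LeC_top] at h4; rw [show u = w from h3.1.eq h1.1 h3.2.1 h4.2.1]
    | virt D => rw [LeC_virt] at h4; exact h4.2.1.elim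
    | cons => rw [LeC_cons] at h4; obtain ⟨q, -, h⟩ := h4; cases h
  | virt D =>
    rintro w K ⟨u, m⟩ _ _ h3 h4
    rw [LeC_virt] at h3
    cases m with
    | top => exact h3.2.1.elim
    | virt D₁ =>
      rw [LeC_virt] at h4
      rw [show u = w from h3.1, show D₁ = D from h3.2.2.antisymm h4.2.2]
    | cons => rw [LeC_cons] at h4; obtain ⟨q, -, h⟩ := h4; cases h
  | cons g w' μ n ih =>
    intro w K y _ h2 h3 h4
    obtain ⟨q, hq, rfl⟩ := LeC_cons.1 h3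
    obtain ⟨q', hq', h⟩ := LeC_cons.1 h4
    simp only [lv, Prod.mk.injEq, Tl.cons.injEq, true_and] at h
    obtain rfl : q' = (w', n) := Prod.ext h.1.symm h.2.2.symm
    rw [ran_cp] at hq'
    rw [ih h2.1.ctx h2.2.1 hq hq', lv_same h2.1.2.2.2]

def Low (S : LS M X) (n : Tl X) (w : X) (ν : Rl X) (n' : Tl X) (w' : X) (ν' : Rl X)
    (y : X × Tl X) : Prop :=
  S.LeC n w (ran ν) y ∧ S.LeC n' w' (ran ν') y ∧ cp ν (Tr M w y.1) = cp ν' (Tr M w' y.1)

theorem meet_aux [Finite M] {n : Tl X} : ∀ {w : X} {ν : Rl X} {n' : Tl X} {w' : X} {ν' : Rl X},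
    S.Lev w ν → S.Nrm n w (ran ν) → S.Lev w' ν' → S.Nrm n' w' (ran ν') →
    (∃ y, S.Low n w ν n' w' ν' y) →
    ∃ m : X × Tl X, S.PT (.R w (ran ν)) m ∧
      ∀ y, S.LeC m.2 m.1 (img (Tr M w m.1) (ran ν)) y ↔ S.Low n w ν n' w' ν' y := by
  -- the case where the second stack lies below the first one
  have right : ∀ {n : Tl X} {w : X} {ν : Rl X} {n' : Tl X} {w' : X} {ν' : Rl X},
      S.Lev w ν → S.Nrm n w (ran ν) → S.Lev w' ν' → S.Nrm n' w' (ran ν') → n' ≠ .top →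
      (∃ y, S.Low n w ν n' w' ν' y) →
      (cp ν (Tr M w w') = ν' → ∀ y, S.LeC n' w' (ran ν') y → S.LeC n w (ran ν) y) →
      ∃ m : X × Tl X, S.PT (.R w (ran ν)) m ∧ ∀ y,
        S.LeC m.2 m.1 (img (Tr M w m.1) (ran ν)) y ↔ S.Low n w ν n' w' ν' y := by
    rintro n w ν n' w' ν' h1 h2 h3 h4 hn ⟨y₀, -, k2, k3⟩ h
    rw [k2.fst hn, cp_Tr_same h3.2.2.2] at k3
    refine ⟨(w', n'), (h k3 _ (LeC.refl h3.ctx h4)).valid h1.ctx h2, fun y => ?_⟩
    dsimp only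
    rw [← ran_cp, k3]
    refine ⟨fun hy => ⟨h k3 y hy, hy, ?_⟩, fun hy => hy.2.1⟩
    rw [hy.fst hn, cp_Tr_same h3.2.2.2, k3]
  have left : ∀ {n : Tl X} {w : X} {ν : Rl X} {n' : Tl X} {w' : X} {ν' : Rl X},
      S.Lev w ν → S.Nrm n w (ran ν) → n ≠ .top → (∃ y, S.Low n w ν n' w' ν' y) →
      (cp ν' (Tr M w' w) = ν → ∀ y, S.LeC n w (ran ν) y → S.LeC n' w' (ran ν') y) →
      ∃ m : X × Tl X, S.PT (.R w (ran ν)) m ∧ ∀ y,
        S.LeC m.2 m.1 (img (Tr M w m.1) (ran ν)) y ↔ S.Low n w ν n' w' ν' y := by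
    rintro n w ν n' w' ν' h1 h2 hn ⟨y₀, k1, -, k3⟩ h
    rw [k1.fst hn, cp_Tr_same h1.2.2.2] at k3
    refine ⟨(w, n), PT_same h1.ctx h2, fun y => ?_⟩
    dsimp only
    rw [img_Tr_same h1.2.2.2]
    refine ⟨fun hy => ⟨hy, h k3.symm y hy, ?_⟩, fun hy => hy.1⟩
    rw [hy.fst hn, cp_Tr_same h1.2.2.2, ← k3]
  have below : ∀ {w : X} {ν : Rl X} {n' : Tl X} {w' : X} {ν' : Rl X}, S.Lev w' ν' →
      S.Nrm n' w' (ran ν') → S.le w' w → cp ν (Tr M w w') = ν' →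
      ∀ y, S.LeC n' w' (ran ν') y → S.LeC .top w (ran ν) y := by
    intro w ν n' w' ν' h3 h4 h5 h6 y hy
    rw [LeC_top]
    refine PT.trans h5 ?_
    rw [← ran_cp, h6]
    exact hy.valid h3.ctx h4
  have belowU : ∀ {D : Set X} {w : X} {K : Set X} {g : Option X} {w₁ : X} {μ : Rl X} {n₁ : Tl X}
      {w' : X} {K' : Set X} {y₀ : X × Tl X}, S.Nrm (.cons g w₁ μ n₁) w' K' →
      S.LeC (.virt D) w K y₀ → S.LeC (.cons g w₁ μ n₁) w' K' y₀ →
      ∀ y, S.LeC (.cons g w₁ μ n₁) w' K' y → S.LeC (.virt D) w K y := by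
    intro D w K g w₁ μ n₁ w' K' y₀ h1 h2 h3 y hy
    obtain ⟨q, -, rfl⟩ := LeC_cons.1 h3
    obtain ⟨rfl, h4, h5⟩ := LeC_virt.1 h2
    obtain rfl : g = none := h4.1
    obtain ⟨q', hq', rfl⟩ := LeC_cons.1 hy
    rw [hdom_lv h1.1.2.2.2] at h5
    exact LeC_virt.2 ⟨rfl, Uv_lv h1.1 h1.2.2.2.2 (hq'.valid h1.1.ctx h1.2.1),
      by rwa [hdom_lv h1.1.2.2.2]⟩
  induction n with
  | top =>
    intro w ν n' w' ν' h1 h2 h3 h4 hex
    by_cases hn : n' = .top
    swap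
    · refine right h1 h2 h3 h4 hn hex (below h3 h4 ?_)
      obtain ⟨y₀, k1, k2, -⟩ := hex
      rw [← k2.fst hn]; exact (LeC_top.1 k1).2.1
    subst hn
    obtain ⟨y₀, -, -, k3⟩ := hex
    have hd : dom ν = dom ν' := by rw [← dom_cp_Tr h1.2.2.2 y₀.1, k3, dom_cp_Tr h3.2.2.2]
    obtain ⟨m₀, hm₀, e₀⟩ := S.meet w h1.1.1 w' h3.1.1
    obtain ⟨m₁, hm₁, e₁⟩ := eqz_set hm₀ {q : M × M | ∃ k, ν k (q.1 • w) ∧ ν' k (q.2 • w')}
    have hr := rep_spec hm₁
    have hle : ∀ x, S.le x (S.rep m₁) ↔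
        S.le x w ∧ S.le x w' ∧ cp ν (Tr M w x) = cp ν' (Tr M w' x) := by
      intro x
      have : S.le x (S.rep m₁) ↔ S.le x m₁ := ⟨fun h => le_trans h hr.2.1, fun h => le_trans h hr.2.2⟩
      rw [this, e₁, show S.le x m₀ ↔ S.le x w ∧ S.le x w' from e₀ x, and_assoc]
      refine and_congr_right fun hx => and_congr_right fun hx' => ⟨fun h => ?_, fun h => ?_⟩
      · refine rl_ext fun k b => ⟨?_, ?_⟩
        · rintro ⟨_, h5, z, rfl, rfl⟩
          obtain ⟨k', h6⟩ := hd.subset ⟨_, h5⟩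
          obtain ⟨z', rfl⟩ := h3.2.2.2 ⟨k, h6⟩
          exact ⟨_, h6, z', rfl, h (z, z') ⟨k, h5, h6⟩⟩
        · rintro ⟨_, h5, z', rfl, rfl⟩
          obtain ⟨k', h6⟩ := hd.symm.subset ⟨_, h5⟩
          obtain ⟨z, rfl⟩ := h1.2.2.2 ⟨k, h6⟩
          exact ⟨_, h6, z, rfl, (h (z, z') ⟨k, h6, h5⟩).symm⟩
      · rintro ⟨z, z'⟩ ⟨k, h5, h6⟩
        have : cp ν' (Tr M w' x) k (z • x) := h ▸ ⟨_, h5, z, rfl, rfl⟩
        obtain ⟨_, h7, s, rfl, h8⟩ := this
        exact h8.trans (hx'.eq (h3.2.2.1.fn h7 h6))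
    refine ⟨(S.rep m₁, .top), ⟨rep_lam hm₁, ((hle _).1 (le_rfl _)).1, trivial⟩, fun y => ?_⟩
    simp only [Low, LeC_top, PT]
    constructor
    · rintro ⟨k1, k2, k4⟩
      rw [← img_cp, Tr_Tr w k2] at k4
      obtain ⟨k5, k6, k7⟩ := (hle _).1 k2
      exact ⟨⟨k1, k5, k4⟩, ⟨k1, k6, by rwa [← ran_cp, ← k7, ran_cp]⟩, k7⟩
    · rintro ⟨⟨k1, k5, k4⟩, ⟨-, k6, -⟩, k7⟩
      have k2 := (hle _).2 ⟨k5, k6, k7⟩
      exact ⟨k1, k2, by rwa [← img_cp, Tr_Tr w k2]⟩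
  | virt D =>
    intro w ν n' w' ν' h1 h2 h3 h4 hex
    cases n' with
    | top =>
      refine left h1 h2 (by simp) hex (below h1 h2 ?_)
      obtain ⟨y₀, k1, k2, -⟩ := hex
      rw [← k1.fst (by simp)]; exact (LeC_top.1 k2).2.1
    | virt D' =>
      obtain ⟨y₀, k1, k2, k3⟩ := hex
      obtain rfl : w = w' := (k1.fst (by simp)).symm.trans (k2.fst (by simp))
      rw [k1.fst (by simp)] at k3
      refine ⟨(w, .virt (D ∩ D')), PT_same h1.ctx ⟨h2.1.inter h4.1,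
        inter_subset_left.trans h2.2.1, fun h => h2.2.2 h.1⟩, fun y => ?_⟩
      simp only [Low, LeC_virt, subset_inter_iff]
      constructor
      · rintro ⟨rfl, k4, k5, k6⟩; exact ⟨⟨rfl, k4, k5⟩, ⟨rfl, k4, k6⟩, k3⟩
      · rintro ⟨⟨k4, k5, k6⟩, ⟨-, -, k7⟩, -⟩; exact ⟨k4, k5, k6, k7⟩
    | cons g w₁ μ n₁ =>
      refine right h1 h2 h3 h4 (by simp) hex fun _ => ?_
      obtain ⟨y₀, k1, k2, -⟩ := hex
      exact belowU h4 k1 k2
  | cons g w₁ μ n₁ ih =>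
    intro w ν n' w' ν' h1 h2 h3 h4 hex
    cases n' with
    | top =>
      refine left h1 h2 (by simp) hex (below h1 h2 ?_)
      obtain ⟨y₀, k1, k2, -⟩ := hex
      rw [← k1.fst (by simp)]; exact (LeC_top.1 k2).2.1
    | virt D' =>
      refine left h1 h2 (by simp) hex fun _ => ?_
      obtain ⟨y₀, k1, k2, -⟩ := hex
      exact belowU h2 k2 k1
    | cons g' w₁' μ' n₁' =>
      obtain ⟨y₀, k1, k2, k3⟩ := hex
      obtain rfl : w = w' := (k1.fst (by simp)).symm.trans (k2.fst (by simp))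
      rw [k1.fst (by simp)] at k3
      obtain ⟨q, hq, rfl⟩ := LeC_cons.1 k1
      obtain ⟨q', hq', e⟩ := LeC_cons.1 k2
      simp only [lv, Prod.mk.injEq, Tl.cons.injEq, true_and] at e
      obtain ⟨rfl, e1, e2, e3⟩ := e
      obtain rfl : q = q' := Prod.ext e1 e3
      obtain ⟨m, hmv, hm⟩ := ih h2.1 h2.2.1 h4.1 h4.2.1 ⟨q, hq, hq', e2⟩
      have hml : ∀ y, S.Low n₁ w₁ μ n₁' w₁' μ' y → lv M g m.1 (cp μ (Tr M w₁ m.1)) y =
          lv M g w₁ μ y := by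
        intro y hy
        refine lv_lv (S := S) _ _ _ ?_
        obtain ⟨m1, m2⟩ := m
        have := (hm y).2 hy
        by_cases h0 : m2 = .top
        · subst h0; exact (LeC_top.1 this).2.1
        · rw [this.fst h0]; exact le_rfl _
      refine ⟨(w, lv M g w₁ μ m), PT_same h1.ctx (Nrm_lv h2.1 h2.2.2.1 h2.2.2.2 hmv), fun y => ?_⟩
      simp only [Low]
      rw [lv, LeC_cons, LeC_cons, LeC_cons, ran_cp]
      constructor
      · rintro ⟨q₁, hq₁, rfl⟩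
        have hl := (hm q₁).1 hq₁
        refine ⟨⟨q₁, hl.1, by rw [hml _ hl]⟩, ⟨q₁, hl.2.1, ?_⟩, k3⟩
        rw [hml _ hl, lv, lv, hl.2.2]
      · rintro ⟨⟨q₁, hq₁, rfl⟩, ⟨q₂, hq₂, e⟩, -⟩
        simp only [lv, Prod.mk.injEq, Tl.cons.injEq, true_and] at e
        obtain rfl : q₁ = q₂ := Prod.ext e.1 e.2.2
        have hl : S.Low n₁ w₁ μ n₁' w₁' μ' q₁ := ⟨hq₁, hq₂, e.2.1⟩
        exact ⟨q₁, (hm q₁).2 hl, by rw [hml _ hl]⟩

end LS

end Pool.Agent.P.MP_9ca27c_lc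
end

-- part Pool.Agent.P.MP_9ca27c_lc.Iso
section

/-! Isomorphisms between types of stacks. -/

namespace Pool.Agent.P.MP_9ca27c_lc

open Set

variable {M : Type} [Monoid M] {X : Type} [MulAction M X]

namespace LS

variable (S : LS M X)

def TI : Ty X → Ty X → X × Tl X → X × Tl X → Prop
  | .R w K, .R w' K', z, z' => (w = w' ∧ K = K' ∧ z' = z) ∨
      (w ∈ K ∧ w' ∈ K' ∧ ∃ a : M, S.le (a • w) w' ∧ S.le w' (a • w) ∧ w ∈ orb M (a • w) ∧
        z' = S.act a z)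
  | .U D, .U D', z, z' => ∃ σ, ClR M σ ∧ S.Adm σ ∧ S.NS σ ∧ dom σ = D' ∧ ran σ = D ∧
      z' = (S.top, S.relab z.2 σ)
  | _, _, _, _ => False

variable {S}

theorem PT_orb {w : X} {z : X × Tl X} : S.PT (.R w (orb M w)) z ↔ S.St z ∧ S.le z.1 w := by
  simp only [PT, St, img_Tr_orb]; tauto

theorem Ctx.eq_orb {w : X} {K : Set X} (h : S.Ctx w K) (hw : w ∈ K) : K = orb M w :=
  h.2.2.antisymm (h.2.1.orb_subset hw)

theorem TI_refl {τ : Ty X} {z : X × Tl X} (h : S.TyOK τ) (hz : S.PT τ z) : S.TI τ τ z z := by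
  cases τ with
  | R w K => exact Or.inl ⟨rfl, rfl, rfl⟩
  | U D =>
    refine ⟨idr D, h.1.clr_idr, Adm_idr D, NS_idr D, dom_idr D, ran_idr D, ?_⟩
    rw [relab_idr (hz.2.1.flagIn D) (Or.inr hz.2.2), ← hz.1]

theorem TI_valid {τ τ' : Ty X} {z z' : X × Tl X} (h : S.TyOK τ) (h' : S.TyOK τ')
    (hz : S.PT τ z) (hI : S.TI τ τ' z z') : S.PT τ' z' := by
  cases τ <;> cases τ'
  · rcases hI with ⟨rfl, rfl, rfl⟩ | ⟨h1, h2, a, h3, -, -, rfl⟩
    · exact hz
    · rw [Ctx.eq_orb h h1, PT_orb] at hz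
      rw [Ctx.eq_orb h' h2, PT_orb]
      exact ⟨(valid_act hz.1 a).1, le_trans (valid_act hz.1 a).2 (le_trans (hz.2.smul a) h3)⟩
  · exact hI.elim
  · exact hI.elim
  · obtain ⟨σ, h1, h2, -, rfl, rfl, rfl⟩ := hI
    have := valid_pullU hz.2.1.hok h1 h2
    rw [← relab_U hz.2.1 hz.2.2 h1 h2] at this
    exact ⟨rfl, this.1, this.2.trans (pre_subset_dom _ _)⟩

theorem le.fix {a b : X} (h : S.le a b) {z : M} (e : z • b = b) : z • a = a := by
  have := h.eq (z := z) (z' := 1) (by rwa [one_smul])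
  rwa [one_smul] at this

theorem NS.adm_flip {σ : Rl X} (h : S.NS σ) : S.Adm (flip σ) := by
  obtain ⟨f, hf, h⟩ := h; exact ⟨f, hf, fun k k' e => h k' k e⟩

theorem Adm.ns_flip {σ : Rl X} (h : S.Adm σ) : S.NS (flip σ) := by
  obtain ⟨f, hf, h⟩ := h; exact ⟨f, hf, fun k k' e => h k' k e⟩

theorem TI_symm {τ τ' : Ty X} {z z' : X × Tl X} (h : S.TyOK τ)
    (hz : S.PT τ z) (hI : S.TI τ τ' z z') : S.TI τ' τ z' z := by
  cases τ <;> cases τ'
  · rename_i w K w' K'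
    rcases hI with ⟨rfl, rfl, rfl⟩ | ⟨h1, h2, a, h3, h4, ⟨b, hb⟩, rfl⟩
    · exact Or.inl ⟨rfl, rfl, rfl⟩
    · rw [Ctx.eq_orb h h1, PT_orb] at hz
      refine Or.inr ⟨h2, h1, b, ?_, ?_, ⟨a, ?_⟩, ?_⟩
      · have := h4.smul b; rwa [← hb] at this
      · have := h3.smul b; rwa [← hb] at this
      · rw [← mul_smul, h4.fix (by rw [mul_smul, ← hb])]
      · rw [act_act hz.1, act_fix hz.1 (hz.2.fix (by rw [mul_smul, ← hb]))]
  · exact hI.elim
  · exact hI.elim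
  · obtain ⟨σ, h1, h2, h3, rfl, rfl, rfl⟩ := hI
    refine ⟨flip σ, h1.fl, h3.adm_flip, h2.ns_flip, rfl, rfl, ?_⟩
    dsimp only
    rw [relab_relab (hz.2.1.flagIn _) h3 h2.ns_flip, h2.flip_cp,
      relab_idr (hz.2.1.flagIn _) (Or.inr hz.2.2), ← hz.1]

theorem TI_trans {τ τ' τ'' : Ty X} {z z' z'' : X × Tl X} (h : S.TyOK τ)
    (hz : S.PT τ z) (hI : S.TI τ τ' z z') (hI' : S.TI τ' τ'' z' z'') : S.TI τ τ'' z z'' := by
  cases τ <;> cases τ' <;> cases τ'' <;> try first | exact hI.elim | exact hI'.elim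
  · rename_i w K w' K' w'' K''
    rcases hI with ⟨rfl, rfl, rfl⟩ | ⟨h1, h2, a, h3, h4, ⟨b, hb⟩, rfl⟩
    · exact hI'
    rcases hI' with ⟨rfl, rfl, rfl⟩ | ⟨-, k2, a', k3, k4, ⟨b', hb'⟩, rfl⟩
    · exact Or.inr ⟨h1, h2, a, h3, h4, ⟨b, hb⟩, rfl⟩
    rw [Ctx.eq_orb h h1, PT_orb] at hz
    refine Or.inr ⟨h1, k2, a' * a, ?_, ?_, ⟨b * b', ?_⟩, act_act hz.1 a a'⟩
    · rw [mul_smul]; exact le_trans (h3.smul a') k3
    · rw [mul_smul]; exact le_trans k4 (h4.smul a')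
    · have := h3.fix (z := b' * a') (by rw [mul_smul, ← hb'])
      rw [mul_smul, mul_smul, ← mul_smul b', this, ← hb]
  · obtain ⟨σ, h1, h2, h3, h4, rfl, rfl⟩ := hI
    obtain ⟨σ', k1, k2, k3, rfl, k5, rfl⟩ := hI'
    refine ⟨cp σ' σ, k1.comp h1, k2.comp h2, k3.comp h3, ?_, ?_, ?_⟩
    · rw [dom_cp, pre_of_ran (by rw [k5, h4])]
    · rw [ran_cp, img_of_dom (by rw [k5, h4])]
    · dsimp only
      rw [relab_relab (hz.2.1.flagIn _) h3 k3]

theorem TI_total {τ τ' : Ty X} {z₀ z₀' : X × Tl X} (hI : S.TI τ τ' z₀ z₀') (z : X × Tl X) :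
    ∃ z', S.TI τ τ' z z' := by
  cases τ <;> cases τ'
  · rcases hI with ⟨rfl, rfl, rfl⟩ | ⟨h1, h2, a, h3, h4, h5, rfl⟩
    · exact ⟨z, Or.inl ⟨rfl, rfl, rfl⟩⟩
    · exact ⟨_, Or.inr ⟨h1, h2, a, h3, h4, h5, rfl⟩⟩
  · exact hI.elim
  · exact hI.elim
  · obtain ⟨σ, h1, h2, h3, h4, h5, -⟩ := hI
    exact ⟨_, σ, h1, h2, h3, h4, h5, rfl⟩

theorem TI_rigid [Finite X] {τ : Ty X} {z z' : X × Tl X} (h : S.TyOK τ)
    (hz : S.PT τ z) (hI : S.TI τ τ z z') : z' = z := by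
  cases τ with
  | R w K =>
    rcases hI with ⟨-, -, rfl⟩ | ⟨h1, -, a, h3, h4, h5, rfl⟩
    · rfl
    · rw [Ctx.eq_orb h h1, PT_orb] at hz
      have e := rigid_rel (σ := Tr M w (a • w)) h.1.1 subset_rfl (Adm_Tr h3) (NS_Tr h4)
        (dom_Tr _ _) (by
          rw [ran_Tr]
          exact ((Cl_orb w).orb_subset ⟨a, rfl⟩).antisymm ((Cl_orb _).orb_subset h5))
      have := Tr_self (M := M) w (a • w)
      rw [e] at this
      exact act_fix hz.1 (hz.2.fix this.2)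
  | U D =>
    obtain ⟨σ, -, h2, h3, h4, h5, rfl⟩ := hI
    obtain ⟨w, hw, hD⟩ := h.2
    rw [rigid_rel hw hD h2 h3 h4 h5, relab_idr (hz.2.1.flagIn D) (Or.inr hz.2.2), ← hz.1]

theorem relab_res {m : Tl X} {σ : Rl X} {D : Set X} (h : S.Uv m) (h1 : hdom m ⊆ D)
    (h3 : S.NS σ) : S.relab m (cp σ (idr D)) = S.relab m σ := by
  rw [← relab_relab (h.flagIn _) (NS_idr D) h3, relab_idr (h.flagIn _) (Or.inr h1)]

theorem relab_ne_top {n : Tl X} (h : n ≠ .top) (σ : Rl X) : S.relab n σ ≠ .top := by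
  cases n with
  | top => exact (h rfl).elim
  | virt D => simp [relab]
  | cons => simp [relab]

theorem relab_graft {n : Tl X} {w : X} {K : Set X} {σ : Rl X} {s : X × Tl X} (hn : n ≠ .top)
    (hd : hdom n ⊆ ran σ) (h1 : ClR M σ) (h2 : S.Adm σ) (h3 : S.NS σ) (hT : S.TyOK (ty n w K))
    (hs : S.PT (ty n w K) s) (w₂ : X) (K₂ : Set X) :
    ∃ s', S.TI (ty n w K) (ty (S.relab n σ) w₂ K₂) s s' ∧
      S.relab (graft M n w s).2 σ = (graft M (S.relab n σ) w₂ s').2 := by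
  cases n with
  | top => exact (hn rfl).elim
  | virt D =>
    refine ⟨(S.top, S.relab s.2 (cp σ (idr D))), ⟨cp σ (idr D), h1.comp hT.1.clr_idr,
      h2.comp (Adm_idr D), h3.comp (NS_idr D), by rw [dom_cp, dom_idr], ?_, rfl⟩, ?_⟩
    · rw [ran_cp, img_idr]; exact inter_eq_right.2 hd
    · exact (relab_res hs.2.1 hs.2.2 h3).symm
  | cons g w' μ n =>
    have e : ran (cp σ μ) = ran μ := by rw [ran_cp, img_of_dom hd]
    refine ⟨s, ?_, ?_⟩
    · simp only [relab, ty, e]; exact TI_refl hT hs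
    · simp only [relab, graft, lv, cp_assoc]

theorem TI_res {τ τ' : Ty X} {r r' s : X × Tl X} (h : S.TyOK τ) (h' : S.TyOK τ')
    (hr : S.PT τ r) (hI : S.TI τ τ' r r') (hs : S.PT (tyE M τ r) s) :
    ∃ s', S.TI (tyE M τ r) (tyE M τ' r') s s' ∧ S.TI τ τ' (gr M r s) (gr M r' s') := by
  have hT := tyE_ok h hr
  cases τ <;> cases τ'
  · rename_i w K w' K'
    rcases hI with ⟨rfl, rfl, rfl⟩ | ⟨h1, h2, a, h3, h4, h5, rfl⟩
    · exact ⟨s, TI_refl hT hs, Or.inl ⟨rfl, rfl, rfl⟩⟩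
    obtain rfl := Ctx.eq_orb h h1
    obtain rfl := Ctx.eq_orb h' h2
    have hr' := PT_orb.1 hr
    obtain ⟨u, n⟩ := r
    have hu : u ∈ orb M (a • u) := by
      obtain ⟨b, hb⟩ := h5
      exact ⟨b, by rw [← mul_smul, hr'.2.fix (by rw [mul_smul, ← hb])]⟩
    have hP : a • u ∈ S.Pt := S.P_smul hr'.1.1.1 a
    have e : ∀ m, S.act a (u, m) = (S.rep (a • u), S.relab m (Tr M (S.rep (a • u)) (a • u))) :=
      fun m => mv_pos hu m
    simp only [tyE, vis, img_Tr_orb, gr, e] at hs hT ⊢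
    by_cases hn : n = .top
    · subst hn
      exact ⟨S.act a s, Or.inr ⟨mem_orb _, mem_orb _, a, (rep_spec hP).2.2, (rep_spec hP).2.1,
        hu, rfl⟩, Or.inr ⟨h1, h2, a, h3, h4, h5, rfl⟩⟩
    · obtain ⟨s', k1, k2⟩ := relab_graft hn (by
        rw [ran_Tr]
        exact (hr'.1.2.hdom_subset.resolve_left hn).trans ((Cl_orb _).orb_subset hu))
        (ClR_Tr _ _) (Adm_rep hP) (NS_rep hP) hT hs (S.rep (a • u)) (orb M (S.rep (a • u)))
      refine ⟨s', k1, Or.inr ⟨h1, h2, a, h3, h4, h5, ?_⟩⟩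
      rw [g_ne hn u u, e, k2, ← g_ne (relab_ne_top hn _)]
  · exact hI.elim
  · exact hI.elim
  · obtain ⟨σ, h1, h2, h3, rfl, rfl, rfl⟩ := hI
    obtain ⟨s', k1, k2⟩ := relab_graft hr.2.1.ne_top hr.2.2 h1 h2 h3 hT hs S.top ∅
    refine ⟨s', k1, σ, h1, h2, h3, rfl, rfl, ?_⟩
    simp only [gr]
    rw [k2, ← g_ne (relab_ne_top hr.2.1.ne_top _)]

end LS

end Pool.Agent.P.MP_9ca27c_lc
end

-- part Pool.Agent.P.MP_9ca27c_lc.Loc
section

/-! The action on stacks is monotone and normal. -/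

namespace Pool.Agent.P.MP_9ca27c_lc

open Set

variable {M : Type} [Monoid M] {X : Type} [MulAction M X]

namespace LS

variable {S : LS M X}

def Good (S : LS M X) (τ τ' : Ty X) (r : X × Tl X → X × Tl X) : Prop :=
  (∀ z, S.PT τ z → S.PT τ' (r z)) ∧
    ∃ s, S.PT τ s ∧ ∀ z, S.PT (tyE M τ s) z → S.TI (tyE M τ s) τ' z (r (gr M s z))

theorem good_id {τ : Ty X} (h : S.TyOK τ) : S.Good τ τ id := by
  refine ⟨fun z hz => hz, S.topE τ, topE_valid h, ?_⟩
  cases τ with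
  | R w K =>
    simp only [tyE, topE, vis, ty, img_Tr_same h.2.2]
    exact fun z hz => TI_refl (τ := .R w K) h hz
  | U D =>
    intro z hz
    have : gr M (S.topE (.U D)) z = z := Prod.ext hz.1.symm rfl
    rw [this]
    exact TI_refl h hz

theorem good_RR {w : X} {K L : Set X} (h : S.Ctx w K) (hL : Cl M L) (hLK : L ⊆ K) :
    S.Good (.R w K) (.R w L) fun z => S.resR z.2 z.1 (img (Tr M w z.1) L) := by
  have hc : S.Ctx w L := ⟨h.1, hL, hLK.trans h.2.2⟩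
  refine ⟨fun z hz => ?_, ?_⟩
  · have := valid_resR (hz.ctx h.2.1) hz.2.2 ((ClR_Tr _ _).cl_img hL) (img_mono _ hLK)
    exact this.trans hz.2.1
  by_cases e : L = K
  · subst e
    refine ⟨(w, .top), PT_same h trivial, ?_⟩
    simp only [tyE, vis, ty, img_Tr_same h.2.2, gr, graft]
    intro z hz
    rw [resR_self (hz.ctx h.2.1) hz.2.2]
    exact TI_refl (τ := .R w L) h hz
  · have hw : w ∉ L := fun hw => e (h.eq_of_mem hL hLK hw)
    refine ⟨(w, .cons (some w) w (idr L) .top), PT_same h ⟨⟨h.1, hL.clr_idr, Adm_idr L,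
      by rw [ran_idr]; exact hc.2.2⟩, trivial, by rwa [dom_idr], by rwa [dom_idr], Or.inl rfl,
      le_rfl w, ?_⟩, ?_⟩
    · rintro a _ ⟨ha, rfl⟩
      obtain ⟨z, hz⟩ := hc.2.2 ha
      exact ⟨z, hz, hz⟩
    · simp only [tyE, ty, ran_idr, gr, graft, lv]
      intro z hz
      rw [img_Tr_same hc.2.2, resR_full hw (by
        rw [dom_cp_Tr (by rw [ran_idr]; exact hc.2.2), dom_idr]), img_cp, img_idr, inter_self,
        resR_self (hz.ctx hL) hz.2.2]
      exact TI_refl (τ := .R w L) hc hz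

theorem good_RU {w : X} {K : Set X} {ν : Rl X} (h : S.Ctx w K) (h1 : ClR M ν) (h2 : S.Adm ν)
    (h3 : ran ν ⊆ K) (hF : S.Fg w ν) :
    S.Good (.R w K) (.U (dom ν)) fun z => (S.top, S.gh z.2 z.1 (cp ν (Tr M w z.1))) := by
  have ho := h3.trans h.2.2
  refine ⟨fun z hz => ?_, (w, .virt (ran ν)), PT_same h ⟨h1.cl_ran, h3, hF.1⟩, ?_⟩
  · have := valid_gh (hz.ctx h.2.1) hz.2.2 (h1.comp (ClR_Tr _ _)) (h2.comp (Adm_Tr hz.2.1))
      ((ran_cp _ _).subset.trans (img_mono _ h3))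
    rw [dom_cp_Tr ho] at this
    exact ⟨rfl, this⟩
  · intro z hz
    refine ⟨ν, h1, h2, hF.2, rfl, rfl, ?_⟩
    simp only [gr, graft]
    rw [cp_Tr_same ho, gh_pos hF, relab_U hz.2.1 hz.2.2 h1 h2]

theorem good_UU {D : Set X} {σ : Rl X} (h : Cl M D) (h1 : ClR M σ) (h2 : S.Adm σ)
    (h3 : S.NS σ) :
    S.Good (.U D) (.U (pre σ D)) fun z => (S.top, S.pullU z.2 σ) := by
  refine ⟨fun z hz => ?_, (S.top, .virt (D ∩ ran σ)), ⟨rfl, h.inter h1.cl_ran, inter_subset_left⟩,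
    ?_⟩
  · have := valid_pullU hz.2.1.hok h1 h2
    exact ⟨rfl, this.1, this.2.trans (pre_mono _ hz.2.2)⟩
  · intro z hz
    refine ⟨cp σ (idr (D ∩ ran σ)), h1.comp (h.inter h1.cl_ran).clr_idr, h2.comp (Adm_idr _),
      h3.comp (NS_idr _), ?_, ?_, ?_⟩
    · rw [dom_cp, dom_idr, pre_inter subset_rfl]
    · rw [ran_cp, img_idr]; exact inter_eq_right.2 inter_subset_right
    · simp only [gr, graft]
      rw [relab_res hz.2.1 hz.2.2 h3, relab_U hz.2.1 (hz.2.2.trans inter_subset_right) h1 h2]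

theorem sec_Uv {u : X} (hP : u ∈ S.Pt) :
    S.Uv (.cons none (S.rep u) (Tr M u (S.rep u)) .top) :=
  ⟨rfl, ⟨rep_lam hP, ClR_Tr _ _, Adm_Tr (rep_spec hP).2.1, (ran_Tr _ _).subset⟩, trivial,
    fun h => h.1 ⟨u, Tr_self _ _⟩⟩

theorem sec_mvN {u : X} (hP : u ∈ S.Pt) {z : X × Tl X}
    (hz : S.PT (.R (S.rep u) (orb M (S.rep u))) z) :
    S.mvN (lv M none (S.rep u) (Tr M u (S.rep u)) z) u = z := by
  rw [lv, mvN_cons ⟨_, Tr_self _ _, Tr_self _ _⟩
    ((Adm_Tr (rep_spec hP).2.1).comp (Adm_Tr hz.2.1)), mv_self (PT_orb.1 hz).1]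

theorem good_RC {w u : X} {K : Set X} (h : S.Ctx w K) (hu : u ∈ K) :
    S.Good (.R w K) (.R (S.rep u) (orb M (S.rep u)))
      fun z => S.mv z.2 z.1 (S.app (Tr M w z.1) u) := by
  have hP := h.mem_Pt hu
  obtain ⟨a, rfl⟩ := h.2.2 hu
  have happ : ∀ {v : X}, S.le v w → S.app (Tr M w v) (a • w) = a • v := fun hv =>
    (Adm_Tr hv).app_eq ⟨a, rfl, rfl⟩
  refine ⟨fun z hz => ?_, ?_⟩
  · rw [PT_orb]
    dsimp only
    rw [happ hz.2.1]
    have := valid_mv (hz.ctx h.2.1) hz.2.2 (u := a • z.1) ⟨_, hu, a, rfl, rfl⟩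
    exact ⟨this.1, le_trans this.2 (le_trans (hz.2.1.smul a) (rep_spec hP).2.2)⟩
  by_cases hw : w ∈ orb M (a • w)
  · refine ⟨(w, .top), PT_same h trivial, ?_⟩
    simp only [tyE, vis, ty, img_Tr_same h.2.2, gr, graft]
    intro z hz
    rw [happ hz.2.1]
    exact Or.inr ⟨h.2.1.orb_subset hu hw, mem_orb _, a, (rep_spec hP).2.2, (rep_spec hP).2.1,
      hw, rfl⟩
  · refine ⟨(w, .cons none (S.rep (a • w)) (Tr M (a • w) (S.rep (a • w))) .top),
      PT_same h ((sec_Uv hP).nrm ((dom_Tr _ _).subset.trans (h.2.1.orb_subset hu))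
        fun k => hw ((dom_Tr _ _).subset k)), ?_⟩
    simp only [tyE, ty, ran_Tr, gr, graft]
    intro z hz
    rw [happ (le_rfl w), mv_neg hw, sec_mvN hP hz]
    exact Or.inl ⟨rfl, rfl, rfl⟩

theorem good_UC {u : X} {D : Set X} (h : Cl M D) (hu : u ∈ D) (hP : u ∈ S.Pt) :
    S.Good (.U D) (.R (S.rep u) (orb M (S.rep u))) fun z => S.mvN z.2 u := by
  refine ⟨fun z hz => ?_, (S.top, .cons none (S.rep u) (Tr M u (S.rep u)) .top),
    ⟨rfl, sec_Uv hP, (dom_Tr _ _).subset.trans (h.orb_subset hu)⟩, ?_⟩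
  · have := valid_mvN hz.2.1.hok hP
    exact PT_orb.2 ⟨this.1, le_trans this.2 (rep_spec hP).2.2⟩
  · simp only [tyE, ty, ran_Tr, gr, graft]
    intro z hz
    rw [sec_mvN hP hz]
    exact Or.inl ⟨rfl, rfl, rfl⟩

def LocR (S : LS M X) (n : Tl X) : Prop :=
  ∀ w K L, S.Ctx w K → S.Nrm n w K → Cl M L → L ⊆ K →
    ∃ r, S.Good (ty n w K) (tyE M (.R w L) (S.resR n w L)) r ∧ ∀ z, S.PT (ty n w K) z →
      S.resR (graft M n w z).2 (graft M n w z).1 (img (Tr M w (graft M n w z).1) L) =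
        gr M (S.resR n w L) (r z)

def LocF (S : LS M X) (n : Tl X) : Prop :=
  ∀ w K ν, S.Ctx w K → S.Nrm n w K → ClR M ν → S.Adm ν → ran ν ⊆ K → S.Fg w ν →
    ∃ r, S.Good (ty n w K) (ty (S.pullU n ν) w ∅) r ∧ ∀ z, S.PT (ty n w K) z →
      S.gh (graft M n w z).2 (graft M n w z).1 (cp ν (Tr M w (graft M n w z).1)) =
        (graft M (S.pullU n ν) w (r z)).2

def LocG (S : LS M X) (n : Tl X) : Prop :=
  ∀ w K ν, S.Ctx w K → S.Nrm n w K → ClR M ν → S.Adm ν → ran ν ⊆ K → ∀ w₀ K₀,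
    ∃ r, S.Good (ty n w K) (ty (S.gh n w ν) w₀ K₀) r ∧ ∀ z, S.PT (ty n w K) z →
      (w₀, S.gh (graft M n w z).2 (graft M n w z).1 (cp ν (Tr M w (graft M n w z).1))) =
        graft M (S.gh n w ν) w₀ (r z)

theorem LocG_of {n : Tl X} (lr : S.LocR n) (lf : S.LocF n) : S.LocG n := by
  intro w K ν h1 h2 h3 h4 h5 w₀ K₀
  have hne := (valid_gh h1 h2 h3 h4 h5).1.ne_top
  rw [ty_ne hne w₀ w K₀ ∅]
  simp only [g_ne hne w₀ w, Prod.mk.injEq, true_and]
  by_cases hF : S.Fg w ν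
  · rw [gh_pos hF]; exact lf w K ν h1 h2 h3 h4 h5 hF
  obtain ⟨r, hr1, hr2⟩ := lr w K (ran ν) h1 h2 h3.cl_ran h5
  have ho := h5.trans h1.2.2
  have hp := valid_resR h1 h2 h3.cl_ran h5
  refine ⟨r, ?_, fun z hz => ?_⟩
  · rw [gh_neg hF, lv, ty, ran_cp]; exact hr1
  · have hy := g_valid h1 h2 hz
    have hs := valid_resR (hy.ctx h1.2.1) hy.2.2 ((ClR_Tr _ _).cl_img h3.cl_ran) (img_mono _ h5)
    have hs2 := g_valid (hp.ctx h3.cl_ran) hp.2.2 (hr1.1 z hz)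
    rw [gh_neg fun h => hF (h.of_tr ho hy.2.1), ran_cp, lv_lv _ _ _ hs.2.1, hr2 z hz, gh_neg hF,
      lv, lv, graft, lv_lv _ _ _ hs2.2.1]
    rfl

theorem loc_aux (n : Tl X) : S.LocR n ∧ S.LocF n := by
  have mem : ∀ (n : Tl X) w K L, S.Ctx w K → S.Nrm n w K → Cl M L → L ⊆ K → w ∈ L →
      ∃ r, S.Good (ty n w K) (tyE M (.R w L) (S.resR n w L)) r ∧ ∀ z, S.PT (ty n w K) z →
      S.resR (graft M n w z).2 (graft M n w z).1 (img (Tr M w (graft M n w z).1) L) =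
        gr M (S.resR n w L) (r z) := by
    intro n w K L h1 h2 h3 h4 h5
    obtain rfl := h1.eq_of_mem h3 h4 h5
    rw [resR_mem h5]
    refine ⟨id, ?_, fun z hz => ?_⟩
    · simp only [tyE, vis, img_Tr_same h1.2.2]
      exact good_id (g_ok h1 h2)
    · have hy := g_valid h1 h2 hz
      exact resR_self (hy.ctx h1.2.1) hy.2.2
  induction n with
  | top =>
    refine ⟨fun w K L h1 _ h3 h4 => ?_, fun w K ν h1 _ h3 h4 h5 hF => ?_⟩
    · rw [resR_top]
      refine ⟨_, ?_, fun z _ => rfl⟩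
      simp only [tyE, vis, ty, img_Tr_same (h4.trans h1.2.2)]
      exact good_RR h1 h3 h4
    · rw [pullU_top]
      exact ⟨_, good_RU h1 h3 h4 h5 hF, fun z _ => rfl⟩
  | virt D =>
    refine ⟨fun w K L h1 h2 h3 h4 => ?_, fun w K ν h1 h2 h3 h4 h5 hF => ?_⟩
    · by_cases hw : w ∈ L
      · exact mem _ w K L h1 h2 h3 h4 hw
      rw [resR_virt hw, ← pre_idr]
      refine ⟨_, good_UU h2.1 h3.clr_idr (Adm_idr L) (NS_idr L), fun z hz => ?_⟩
      simp only [graft, gr]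
      rw [img_Tr_same (h4.trans h1.2.2), resR_U hw hz.2.1]
    · rw [pullU_virt]
      refine ⟨_, good_UU h2.1 h3 h4 hF.2, fun z hz => ?_⟩
      simp only [graft]
      rw [cp_Tr_same (h5.trans h1.2.2), gh_pos hF]
  | cons g w' μ n ih =>
    obtain ⟨lr, lf⟩ := ih
    have lg := LocG_of lr lf
    refine ⟨fun w K L h1 h2 h3 h4 => ?_, fun w K ν h1 ⟨k1, k2, k3, k4⟩ h3 h4 h5 hF => ?_⟩
    · by_cases hw : w ∈ L
      · exact mem _ w K L h1 h2 h3 h4 hw
      obtain ⟨k1, k2, k3, k4⟩ := h2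
      have ho := h4.trans h1.2.2
      simp only [graft, ty, img_Tr_same ho]
      by_cases hg : g = some w
      · subst hg
        obtain ⟨r, hr1, hr2⟩ := lr _ _ _ k1.ctx k2 (k1.2.1.cl_img h3) (img_subset_ran μ L)
        have hp := valid_resR k1.ctx k2 (k1.2.1.cl_img h3) (img_subset_ran μ L)
        by_cases hL : L ⊆ dom μ
        · rw [resR_full hw hL]
          refine ⟨r, ?_, fun z hz => ?_⟩
          · simp only [tyE, vis] at hr1 ⊢
            rwa [← Tr_Tr w hp.2.1, img_cp, ← img_eq_img_Tr k4.2.2.2 k4.2.2.1 hL]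
          · rw [lv, resR_full hw (by rwa [dom_cp_Tr k1.2.2.2]), img_cp, hr2 z hz]
        · rw [resR_nfull hw hL]
          refine ⟨r, ?_, fun z hz => ?_⟩
          · simp only [tyE, vis, lv, ty, ran_cp, ran_idr] at hr1 ⊢
            exact hr1
          · have hy := g_valid k1.ctx k2 hz
            have hs := valid_resR (hy.ctx k1.2.1.cl_ran) hy.2.2
              ((ClR_Tr _ _).cl_img (k1.2.1.cl_img h3)) (img_mono _ (img_subset_ran μ L))
            have hs2 := g_valid (hp.ctx (k1.2.1.cl_img h3)) hp.2.2 (hr1.1 z hz)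
            rw [lv, resR_nfull hw (by rwa [dom_cp_Tr k1.2.2.2]), img_cp, ← cp_assoc,
              lv_lv _ _ _ hs.2.1, hr2 z hz]
            simp only [gr]
            rw [lv, lv, graft, lv_lv _ _ _ hs2.2.1]
            rfl
      · have hl := k1.comp h3.clr_idr (Adm_idr L)
        have hr : ran (cp (idr L) μ) ⊆ ran μ := (ran_cp _ _).subset.trans (img_subset_ran _ _)
        rw [resR_ghost hw hg]
        obtain ⟨r, hr1, hr2⟩ := lg _ _ _ k1.ctx k2 hl.2.1 hl.2.2.1 hr w (img (Tr M w w) L)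
        refine ⟨r, hr1, fun z hz => ?_⟩
        rw [lv, resR_ghost hw hg, ← cp_assoc, hr2 z hz]
        rfl
    · have hl := k1.comp h3 h4
      have hr : ran (cp ν μ) ⊆ ran μ := (ran_cp _ _).subset.trans (img_subset_ran _ _)
      rw [pullU_cons]
      obtain ⟨r, hr1, hr2⟩ := lg _ _ _ k1.ctx k2 hl.2.1 hl.2.2.1 hr w ∅
      refine ⟨r, hr1, fun z hz => ?_⟩
      simp only [graft]
      rw [cp_Tr_same (h5.trans h1.2.2), gh_pos hF, lv, pullU_cons, ← cp_assoc, ← hr2 z hz]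

theorem locG (n : Tl X) : S.LocG n := LocG_of (loc_aux n).1 (loc_aux n).2

theorem locM {n : Tl X} : ∀ {w u : X} {K : Set X}, S.Ctx w K → S.Nrm n w K → u ∈ K →
    ∃ r, S.Good (ty n w K) (ty (S.mv n w u).2 (S.mv n w u).1 (orb M (S.mv n w u).1)) r ∧
      ∀ z, S.PT (ty n w K) z → ∀ u'', Tr M w (graft M n w z).1 u u'' →
        S.mv (graft M n w z).2 (graft M n w z).1 u'' = gr M (S.mv n w u) (r z) := by
  have same : ∀ {w u u'' : X}, Tr M w w u u'' → u'' = u := by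
    rintro w _ _ ⟨z, rfl, rfl⟩; rfl
  induction n with
  | top =>
    intro w u K h1 _ hu
    rw [mv_top]
    refine ⟨_, good_RC h1 hu, fun z hz u'' h => ?_⟩
    simp only [graft, gr] at h ⊢
    rw [(Adm_Tr hz.2.1).app_eq h]
  | virt D =>
    intro w u K h1 h2 hu
    have hP := h1.mem_Pt hu
    by_cases hw : w ∈ orb M u
    · rw [mv_pos hw]
      refine ⟨_, good_UU h2.1 (ClR_Tr _ _) (Adm_rep hP) (NS_rep hP), fun z hz u'' h => ?_⟩
      simp only [graft, gr, relab] at h ⊢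
      rw [same h, mv_pos hw, relab_U hz.2.1 _ (ClR_Tr _ _) (Adm_rep hP)]
      rw [ran_Tr]
      exact hz.2.2.trans (h2.2.1.trans (h1.2.2.trans ((Cl_orb u).orb_subset hw)))
    rw [mv_neg hw]
    by_cases hD : u ∈ D
    · rw [mvN_virt hD]
      refine ⟨_, good_UC h2.1 hD hP, fun z hz u'' h => ?_⟩
      simp only [graft, gr] at h ⊢
      rw [same h, mv_neg hw]
    · rw [mvN_notMem (n := .virt D) hD, pullU_virt]
      refine ⟨_, good_UU h2.1 (ClR_Tr _ _) (Adm_rep hP) (NS_rep hP), fun z hz u'' h => ?_⟩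
      simp only [graft, gr] at h ⊢
      rw [same h, mv_neg hw, mvN_notMem fun k => hD (hz.2.2 k)]
  | cons g w' μ n ih =>
    intro w u K h1 ⟨k1, k2, k3, k4⟩ hu
    have hP := h1.mem_Pt hu
    by_cases hw : w ∈ orb M u
    · rw [mv_pos hw]
      have e : ran (cp (Tr M (S.rep u) u) μ) = ran μ := by
        rw [ran_cp, img_of_dom]
        rw [ran_Tr]
        exact k3.trans (h1.2.2.trans ((Cl_orb u).orb_subset hw))
      refine ⟨id, ?_, fun z hz u'' h => ?_⟩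
      · simp only [relab, ty, e]
        exact good_id (g_ok k1.ctx k2)
      · simp only [graft, gr, relab] at h ⊢
        rw [same h, mv_pos hw]
        simp only [lv, relab, cp_assoc, id]
    rw [mv_neg hw]
    by_cases hD : u ∈ dom μ
    · obtain ⟨u', hu'⟩ := hD
      rw [mvN_cons hu' k1.2.2.1]
      obtain ⟨r, hr1, hr2⟩ := ih k1.ctx k2 ⟨u, hu'⟩
      refine ⟨r, hr1, fun z hz u'' h => ?_⟩
      simp only [graft] at h ⊢
      have hy := g_valid k1.ctx k2 hz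
      obtain ⟨s, hs⟩ := k1.2.2.2 ⟨u, hu'⟩
      have hT : Tr M w' (graft M n w' z).1 u' (s • (graft M n w' z).1) := ⟨s, hs, rfl⟩
      rw [same h, mv_neg hw, lv, mvN_cons ⟨u', hu', hT⟩ (k1.2.2.1.comp (Adm_Tr hy.2.1)),
        hr2 z hz _ hT]
    · rw [mvN_notMem (n := .cons g w' μ n) hD, pullU_cons]
      have hl := k1.comp (ClR_Tr (S.rep u) u) (Adm_rep hP)
      obtain ⟨r, hr1, hr2⟩ := locG n _ _ _ k1.ctx k2 hl.2.1 hl.2.2.1
        ((ran_cp _ _).subset.trans (img_subset_ran _ _)) (S.rep u) (orb M (S.rep u))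
      refine ⟨r, hr1, fun z hz u'' h => ?_⟩
      simp only [graft, gr] at h ⊢
      rw [same h, mv_neg hw, mvN_notMem (by rwa [hdom_lv k1.2.2.2]), lv, pullU_cons, ← cp_assoc,
        hr2 z hz]

end LS

end Pool.Agent.P.MP_9ca27c_lc
end

-- part Pool.Agent.P.MP_9ca27c_lc.Frame
section

/-! Normal maps of a finite meet structure with a rigid groupoid of isomorphisms
between principal ideals form a finite regular monoid with trivial subgroups. -/

namespace Pool.Agent.P.MP_9ca27c_lc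

/-- elementary form of triviality of all subgroups -/
def HTriv (S : Type*) [Mul S] : Prop :=
  ∀ e a b : S, e * e = e → e * a = a → a * e = a → a * b = e → b * a = e → a = e

def Reg (S : Type*) [Mul S] : Prop := ∀ a : S, ∃ x : S, a * x * a = a

structure Frame (Ω : Type) where
  le : Ω → Ω → Prop
  refl : ∀ x, le x x
  trans : ∀ {x y z}, le x y → le y z → le x z
  antisymm : ∀ {x y}, le x y → le y x → x = y
  top : Ω
  le_top : ∀ x, le x top
  meet : ∀ x x', (∃ y, le y x ∧ le y x') → ∃ m, ∀ y, le y m ↔ le y x ∧ le y x'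
  I : Ω → Ω → Ω → Ω → Prop
  I_refl : ∀ {x y}, le y x → I x x y y
  I_symm : ∀ {x x' y y'}, I x x' y y' → I x' x y' y
  I_trans : ∀ {x x' x'' y y' y''}, I x x' y y' → I x' x'' y' y'' → I x x'' y y''
  I_le : ∀ {x x' y y'}, I x x' y y' → le y x
  I_total : ∀ {x x' y₀ y₀' y}, I x x' y₀ y₀' → le y x → ∃ y', I x x' y y'
  I_rigid : ∀ {x y y'}, I x x y y' → y = y'
  I_res : ∀ {x x' y y' z}, I x x' y y' → le z y → ∃ z', I x x' z z' ∧ I y y' z z'

namespace Frame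

variable {Ω : Type} (F : Frame Ω)

theorem I_fun {x x' y y₁ y₂} (h₁ : F.I x x' y y₁) (h₂ : F.I x x' y y₂) : y₁ = y₂ :=
  F.I_rigid (F.I_trans (F.I_symm h₁) h₂)

theorem I_le' {x x' y y'} (h : F.I x x' y y') : F.le y' x' := F.I_le (F.I_symm h)

def Nm (t : Function.End (Option Ω)) : Prop :=
  t none = none ∧ ∀ x, (∀ y, F.le y x → t (some y) = none) ∨
    ∃ x' x'', F.le x' x ∧ (∀ y, F.le y x' → ∃ y', F.I x' x'' y y' ∧ t (some y) = some y') ∧
      (∀ y, F.le y x → t (some y) = none ∨ ∃ y'', F.le y'' x'' ∧ t (some y) = some y'')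

def T : Submonoid (Function.End (Option Ω)) where
  carrier := {t | F.Nm t}
  one_mem' := by
    refine ⟨rfl, fun x => Or.inr ⟨x, x, F.refl x, fun y hy => ⟨y, F.I_refl hy, rfl⟩,
      fun y hy => Or.inr ⟨y, hy, rfl⟩⟩⟩
  mul_mem' := by
    rintro s t ⟨hs0, hs⟩ ⟨ht0, ht⟩
    have hmul : ∀ o, (s * t) o = s (t o) := fun _ => rfl
    refine ⟨by rw [hmul, ht0, hs0], fun x => ?_⟩
    rcases ht x with h | ⟨x', x'', hx', h1, h2⟩
    · left; intro y hy; rw [hmul, h y hy, hs0]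
    rcases hs x'' with h | ⟨x₁, x₂, hx₁, h3, h4⟩
    · left; intro y hy
      rcases h2 y hy with h5 | ⟨y'', h5, h6⟩
      · rw [hmul, h5, hs0]
      · rw [hmul, h6, h y'' h5]
    right
    obtain ⟨y', hy', -⟩ := h1 x' (F.refl _)
    obtain ⟨x₀, hx₀⟩ := F.I_total (F.I_symm hy') hx₁
    refine ⟨x₀, x₂, F.trans (F.I_le' hx₀) hx', fun y hy => ?_, fun y hy => ?_⟩
    · obtain ⟨z', hz1, hz2⟩ := F.I_res (F.I_symm hx₀) hy
      obtain ⟨y₁, hy₁, hy₂⟩ := h1 y (F.trans hy (F.I_le' hx₀))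
      obtain rfl := F.I_fun hy₁ hz1
      obtain ⟨y₃, hy₃, hy₄⟩ := h3 y₁ (F.I_le' hz2)
      exact ⟨y₃, F.I_trans hz2 hy₃, by rw [hmul, hy₂, hy₄]⟩
    · rcases h2 y hy with h5 | ⟨y'', h5, h6⟩
      · left; rw [hmul, h5, hs0]
      · rw [hmul, h6]; exact h4 y'' h5

theorem reg_T : Reg F.T := by
  classical
  rintro ⟨t, ht0, ht⟩
  rcases ht F.top with h | ⟨x', x'', -, h1, h2⟩
  · refine ⟨1, Subtype.ext (funext fun o => ?_)⟩
    change t (t o) = t o
    have : ∀ o, t o = none := fun o => by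
      cases o with
      | none => exact ht0
      | some y => exact h y (F.le_top y)
    rw [this, this]
  obtain ⟨y', hy', -⟩ := h1 x' (F.refl _)
  have hex : ∀ y, F.le y x'' → ∃ z, F.I x'' x' y z := fun y hy => F.I_total (F.I_symm hy') hy
  let s : Function.End (Option Ω) := fun o =>
    match o with
    | none => none
    | some y => if h : F.le y x'' then some (hex y h).choose else none
  have hs1 : ∀ y, F.le y x'' → ∃ z, F.I x'' x' y z ∧ s (some y) = some z := fun y hy =>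
    ⟨(hex y hy).choose, (hex y hy).choose_spec, by simp only [s, dif_pos hy]⟩
  have hs2 : ∀ y, ¬ F.le y x'' → s (some y) = none := fun y hy => by simp only [s, dif_neg hy]
  have hs : F.Nm s := by
    refine ⟨rfl, fun z => ?_⟩
    by_cases hz : ∃ y, F.le y z ∧ F.le y x''
    · right
      obtain ⟨m, hm⟩ := F.meet z x'' hz
      have hm0 := (hm m).1 (F.refl m)
      obtain ⟨m', hm', -⟩ := hs1 m hm0.2
      have key : ∀ y, F.le y m → ∃ y', F.I m m' y y' ∧ s (some y) = some y' := by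
        intro y hy
        obtain ⟨z', hz1, hz2⟩ := F.I_res hm' hy
        obtain ⟨z₂, hz3, hz4⟩ := hs1 y (F.trans hy hm0.2)
        obtain rfl := F.I_fun hz1 hz3
        exact ⟨_, hz2, hz4⟩
      refine ⟨m, m', hm0.1, key, fun y hy => ?_⟩
      by_cases hyx : F.le y x''
      · obtain ⟨y₁, hy₁, hy₂⟩ := key y ((hm y).2 ⟨hy, hyx⟩)
        exact Or.inr ⟨y₁, F.I_le' hy₁, hy₂⟩
      · exact Or.inl (hs2 y hyx)
    · left; intro y hy; exact hs2 y fun h => hz ⟨y, hy, h⟩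
  refine ⟨⟨s, hs⟩, Subtype.ext (funext fun o => ?_)⟩
  change t (s (t o)) = t o
  cases o with
  | none => rw [ht0]; exact ht0
  | some y =>
    rcases h2 y (F.le_top y) with h5 | ⟨y'', h5, h6⟩
    · rw [h5]; exact ht0
    · rw [h6]
      obtain ⟨z, hz1, hz2⟩ := hs1 y'' h5
      rw [hz2]
      obtain ⟨z', hz3, hz4⟩ := h1 z (F.I_le' hz1)
      rw [hz4, F.I_fun hz3 (F.I_symm hz1)]

theorem htriv_T : HTriv F.T := by
  rintro ⟨e, he0, he⟩ ⟨a, ha0, ha⟩ ⟨b, hb0, hb1⟩ h1 h2 h3 h4 h5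
  have e1 : ∀ o, e (e o) = e o := fun o => congrFun (congrArg Subtype.val h1) o
  have e2 : ∀ o, e (a o) = a o := fun o => congrFun (congrArg Subtype.val h2) o
  have e3 : ∀ o, a (e o) = a o := fun o => congrFun (congrArg Subtype.val h3) o
  have e4 : ∀ o, a (b o) = e o := fun o => congrFun (congrArg Subtype.val h4) o
  have e5 : ∀ o, b (a o) = e o := fun o => congrFun (congrArg Subtype.val h5) o
  refine Subtype.ext (funext fun o => ?_)
  change a o = e o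
  rcases he F.top with h | ⟨x', x'', -, g1, g2⟩
  · have : ∀ o, e o = none := fun o => by
      cases o with
      | none => exact he0
      | some y => exact h y (F.le_top y)
    rw [← e2, this, this]
  obtain ⟨y', hy', -⟩ := g1 x' (F.refl _)
  -- the fixed points of `e` are the elements below `x''`
  have fix1 : ∀ y, F.le y x'' → e (some y) = some y := by
    intro y hy
    obtain ⟨z, hz⟩ := F.I_total (F.I_symm hy') hy
    obtain ⟨z', hz1, hz2⟩ := g1 z (F.I_le' hz)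
    obtain rfl := F.I_fun hz1 (F.I_symm hz)
    rw [← hz2, e1]
  have fix2 : ∀ o y, e o = some y → F.le y x'' := by
    intro o y h
    cases o with
    | none => rw [he0] at h; cases h
    | some z =>
      rcases g2 z (F.le_top z) with h5 | ⟨y'', h5, h6⟩
      · rw [h5] at h; cases h
      · rw [h6] at h; cases h; exact h5
  have ane : ∀ y, F.le y x'' → a (some y) ≠ none := by
    intro y hy h
    have := e5 (some y)
    rw [h, hb0, fix1 y hy] at this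
    cases this
  have key : ∀ y, F.le y x'' → a (some y) = some y := by
    rcases ha x'' with h | ⟨x₁, x₂, hx₁, k1, k2⟩
    · exact absurd (h x'' (F.refl _)) (ane _ (F.refl _))
    obtain ⟨y₁, hy₁, -⟩ := k1 x₁ (F.refl _)
    have surj : ∀ y, F.le y x₂ → ∃ z, F.le z x₁ ∧ a (some z) = some y := by
      intro y hy
      obtain ⟨z, hz⟩ := F.I_total (F.I_symm hy₁) hy
      obtain ⟨z', hz1, hz2⟩ := k1 z (F.I_le' hz)
      obtain rfl := F.I_fun hz1 (F.I_symm hz)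
      exact ⟨z, F.I_le' hz, hz2⟩
    have l1 : F.le x₂ x'' := by
      obtain ⟨z, -, hz⟩ := surj x₂ (F.refl _)
      exact fix2 (a (some z)) x₂ (by rw [e2, hz])
    have l2 : F.le x'' x₂ := by
      have h6 : a (e (b (some x''))) = some x'' := by rw [e3, e4, fix1 _ (F.refl _)]
      cases h7 : e (b (some x'')) with
      | none => rw [h7, ha0] at h6; cases h6
      | some z =>
        rw [h7] at h6
        rcases k2 z (fix2 _ _ h7) with h8 | ⟨y'', h8, h9⟩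
        · rw [h8] at h6; cases h6
        · rw [h9] at h6; cases h6; exact h8
    obtain rfl := F.antisymm l1 l2
    have l3 : F.le x₂ x₁ := by
      rcases k2 x₂ (F.refl _) with h8 | ⟨y'', h8, h9⟩
      · exact absurd h8 (ane _ (F.refl _))
      · obtain ⟨z, hz1, hz2⟩ := surj y'' h8
        have h10 := e5 (some z)
        rw [hz2, ← h9, e5, fix1 _ (F.refl _), fix1 _ (F.trans hz1 hx₁)] at h10
        cases h10; exact hz1
    obtain rfl := F.antisymm l3 hx₁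
    intro y hy
    obtain ⟨z, hz1, hz2⟩ := k1 y hy
    rw [hz2, F.I_rigid hz1]
  rw [← e3]
  cases h7 : e o with
  | none => exact ha0
  | some z => exact key z (fix2 _ _ h7)

theorem exists_hom [Finite Ω] {M : Type} [Monoid M] (act : M → Ω → Ω)
    (h1 : ∀ x, act 1 x = x) (h2 : ∀ a b x, act (a * b) x = act a (act b x))
    (h3 : ∀ a x, ∃ x', F.le x' x ∧ ∀ y, F.le y x' → F.I x' (act a x) y (act a y))
    (h4 : ∀ a x y, F.le y x → F.le (act a y) (act a x)) :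
    ∃ (T : Type) (_ : Monoid T), Finite T ∧ Reg T ∧ HTriv T ∧
      ∃ φ : M →* T, ∀ a b, φ a = φ b → ∀ x, act a x = act b x := by
  have hmem : ∀ a, (show Function.End (Option Ω) from Option.map (act a)) ∈ F.T := by
    intro a
    refine ⟨rfl, fun x => Or.inr ?_⟩
    obtain ⟨x', hx', h⟩ := h3 a x
    exact ⟨x', act a x, hx', fun y hy => ⟨_, h y hy, rfl⟩,
      fun y hy => Or.inr ⟨_, h4 a x y hy, rfl⟩⟩
  have hfin : Finite (Function.End (Option Ω)) := inferInstanceAs (Finite (Option Ω → Option Ω))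
  refine ⟨F.T, inferInstance, inferInstance, F.reg_T, F.htriv_T,
    ⟨⟨fun a => ⟨_, hmem a⟩, ?_⟩, ?_⟩, ?_⟩
  · refine Subtype.ext (funext fun o => ?_)
    cases o with
    | none => rfl
    | some y => exact congrArg some (h1 y)
  · intro a b
    refine Subtype.ext (funext fun o => ?_)
    cases o with
    | none => rfl
    | some y => exact congrArg some (h2 a b y)
  · intro a b h x
    have := congrFun (congrArg Subtype.val h) (some x)
    exact Option.some.inj this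

end Frame

end Pool.Agent.P.MP_9ca27c_lc
end

-- part Pool.Agent.P.MP_9ca27c_lc.Emb
section

/-! Finiteness of the set of normal stacks and the embedding theorem. -/

namespace Pool.Agent.P.MP_9ca27c_lc

open Set

variable {M : Type} [Monoid M] {X : Type} [MulAction M X]

def depth : Tl X → ℕ
  | .top => 0
  | .virt _ => 0
  | .cons _ _ _ n => depth n + 1

theorem depth_finite [Finite X] (k : ℕ) : {n : Tl X | depth n ≤ k}.Finite := by
  have h0 : ({Tl.top} ∪ range Tl.virt : Set (Tl X)).Finite :=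
    (finite_singleton _).union (finite_range _)
  induction k with
  | zero =>
    refine h0.subset fun n hn => ?_
    cases n with
    | top => exact Or.inl rfl
    | virt D => exact Or.inr ⟨D, rfl⟩
    | cons => simp [depth] at hn
  | succ k ih =>
    refine (h0.union (((finite_univ (α := Option X × X × Rl X)).prod ih).image
      fun q => Tl.cons q.1.1 q.1.2.1 q.1.2.2 q.2)).subset fun n hn => ?_
    cases n with
    | top => exact Or.inl (Or.inl rfl)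
    | virt D => exact Or.inl (Or.inr ⟨D, rfl⟩)
    | cons g w μ n => exact Or.inr ⟨((g, w, μ), n), ⟨trivial, Nat.le_of_succ_le_succ hn⟩, rfl⟩

namespace LS

variable {S : LS M X}

noncomputable def mu (S : LS M X) (K : Set X) : ℕ := {ν | S.Adm ν ∧ dom ν ⊆ K}.ncard

theorem mu_lt [Finite X] {D K : Set X} (h : D ⊆ K) (h' : D ≠ K) : S.mu D < S.mu K := by
  refine ncard_lt_ncard ⟨fun ν hν => ⟨hν.1, hν.2.trans h⟩, fun k => h' (h.antisymm ?_)⟩
  have := (k (show idr K ∈ _ from ⟨Adm_idr K, (dom_idr K).subset⟩)).2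
  rwa [dom_idr] at this

theorem mu_ran [Finite X] {ν : Rl X} (h : S.Adm ν) :
    S.mu (ran ν) ≤ S.mu (dom ν) ∧ (¬ S.NS ν → S.mu (ran ν) < S.mu (dom ν)) := by
  have hinj : InjOn (cp ν) {μ | S.Adm μ ∧ dom μ ⊆ ran ν} := by
    intro μ hμ μ' hμ' e
    rw [← idr_cp hμ.2, ← idr_cp hμ'.2, ← h.flip_cp, cp_assoc, cp_assoc, e]
  have hsub : cp ν '' {μ | S.Adm μ ∧ dom μ ⊆ ran ν} ⊆ {μ | S.Adm μ ∧ dom μ ⊆ dom ν} := by
    rintro _ ⟨μ, hμ, rfl⟩
    exact ⟨h.comp hμ.1, (dom_cp _ _).subset.trans (pre_subset_dom _ _)⟩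
  unfold mu
  rw [← hinj.ncard_image]
  refine ⟨ncard_le_ncard hsub, fun hn => ncard_lt_ncard ⟨hsub, fun k => hn ?_⟩⟩
  obtain ⟨μ, ⟨⟨f, hf, hμ⟩, -⟩, e⟩ :=
    k (show idr (dom ν) ∈ _ from ⟨Adm_idr _, (dom_idr _).subset⟩)
  refine ⟨f, hf, fun a b hab => ?_⟩
  have : cp ν μ a a := by rw [e]; exact ⟨⟨b, hab⟩, rfl⟩
  obtain ⟨c, h1, h2⟩ := this
  rw [h.fn hab h1]; exact hμ _ _ h2

open Classical in
theorem depth_le [Finite X] {n : Tl X} : ∀ {w : X} {K : Set X}, S.Nrm n w K →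
    depth n ≤ 2 * S.mu K + if w ∈ K then 0 else 1 := by
  induction n with
  | top => intro w K _; exact Nat.zero_le _
  | virt D => intro w K _; exact Nat.zero_le _
  | cons g w' μ n ih =>
    intro w K ⟨k1, k2, k3, k4⟩
    have h1 := ih k2
    have h2 := mu_ran k1.2.2.1
    rw [depth]
    by_cases e : dom μ = K
    · cases g with
      | some g => exact (k4.1 e).elim
      | none =>
        rw [if_neg (e ▸ k4.1), ← e]
        by_cases hv : w' ∈ ran μ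
        · rw [if_pos hv] at h1; omega
        · have := h2.2 fun h => k4.2 ⟨hv, h⟩
          split_ifs at h1
          omega
    · have := mu_lt (S := S) k3 e
      split_ifs at h1 ⊢
      all_goals omega

theorem St_finite [Finite X] : {x : X × Tl X | S.St x}.Finite := by
  refine ((finite_univ (α := X)).prod (depth_finite (2 * S.mu univ + 1))).subset ?_
  rintro ⟨u, n⟩ h
  refine ⟨trivial, ?_⟩
  have h1 := depth_le h.2
  have h2 : S.mu (orb M u) ≤ S.mu univ :=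
    ncard_le_ncard fun ν hν => ⟨hν.1, subset_univ _⟩
  change depth n ≤ _
  dsimp only at h1
  split_ifs at h1 <;> omega

theorem St.pt {x : X × Tl X} (h : S.St x) :
    S.PT (.R (S.rep S.top) (orb M (S.rep S.top))) x :=
  PT_orb.2 ⟨h, le_trans (S.le_top _ h.1.1) (rep_spec S.top_mem).2.2⟩

def sty (M : Type) [Monoid M] {X : Type} [MulAction M X] (x : X × Tl X) : Ty X :=
  ty x.2 x.1 (orb M x.1)

theorem St.ok {x : X × Tl X} (h : S.St x) : S.TyOK (sty M x) := g_ok h.ctx h.2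

theorem St.sty_gr {x z : X × Tl X} (hz : S.PT (sty M x) z) :
    sty M (gr M x z) = tyE M (sty M x) z := by
  have := g_ty hz
  simp only [tyE, vis, img_Tr_orb] at this
  exact this

noncomputable def frame (S : LS M X) [Finite M] [Finite X] : Frame {x : X × Tl X // S.St x} where
  le y x := S.LeC x.1.2 x.1.1 (orb M x.1.1) y.1
  refl x := LeC.refl x.2.ctx x.2.2
  trans := fun {x y z} h1 h2 => LeC.trans z.2.ctx z.2.2 h2 (by rwa [img_Tr_orb])
  antisymm := fun {x y} h1 h2 =>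
    Subtype.ext (LeC.antisymm y.2.ctx y.2.2 h1 (by rwa [img_Tr_orb]))
  top := ⟨(S.rep S.top, .top), rep_lam S.top_mem, trivial⟩
  le_top x := LeC_top.2 x.2.pt
  meet := by
    rintro x x' ⟨y, h1, h2⟩
    have hl : ∀ x : {x : X × Tl X // S.St x}, S.Lev x.1.1 (Tr M (S.rep S.top) x.1.1) :=
      fun x => ⟨x.2.1, ClR_Tr _ _, Adm_Tr x.2.pt.2.1, (ran_Tr _ _).subset⟩
    have hlow : ∀ y, S.Low x.1.2 x.1.1 (Tr M (S.rep S.top) x.1.1) x'.1.2 x'.1.1
        (Tr M (S.rep S.top) x'.1.1) y ↔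
        S.LeC x.1.2 x.1.1 (orb M x.1.1) y ∧ S.LeC x'.1.2 x'.1.1 (orb M x'.1.1) y := by
      intro y
      simp only [Low, ran_Tr]
      refine ⟨fun h => ⟨h.1, h.2.1⟩, fun h => ⟨h.1, h.2, ?_⟩⟩
      rw [Tr_Tr _ (h.1.valid x.2.ctx x.2.2).2.1, Tr_Tr _ (h.2.valid x'.2.ctx x'.2.2).2.1]
    obtain ⟨m, hm1, hm2⟩ := meet_aux (hl x) (by rw [ran_Tr]; exact x.2.2) (hl x')
      (by rw [ran_Tr]; exact x'.2.2) ⟨y.1, (hlow _).2 ⟨h1, h2⟩⟩
    rw [ran_Tr] at hm1 hm2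
    refine ⟨⟨m, (PT_orb.1 hm1).1⟩, fun y => ?_⟩
    rw [← hlow, ← hm2, img_Tr_orb]
  I x x' y y' := ∃ z z', S.PT (sty M x.1) z ∧ S.TI (sty M x.1) (sty M x'.1) z z' ∧
    y.1 = gr M x.1 z ∧ y'.1 = gr M x'.1 z'
  I_refl := fun {x y} ⟨z, hz, e⟩ => ⟨z, z, hz, TI_refl x.2.ok hz, e, e⟩
  I_symm := fun {x x' y y'} ⟨z, z', h1, h2, e, e'⟩ =>
    ⟨z', z, TI_valid x.2.ok x'.2.ok h1 h2, TI_symm x.2.ok h1 h2, e', e⟩
  I_trans := by
    rintro x x' x'' y y' y'' ⟨z, z', h1, h2, e, e'⟩ ⟨z₂, z'', k1, k2, f, f'⟩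
    obtain rfl : z' = z₂ := g_inj (TI_valid x.2.ok x'.2.ok h1 h2) k1 (e'.symm.trans f)
    exact ⟨z, z'', h1, TI_trans x.2.ok h1 h2 k2, e, f'⟩
  I_le := fun ⟨z, _, h1, _, e, _⟩ => ⟨z, h1, e⟩
  I_total := by
    rintro x x' y₀ y₀' y ⟨z₀, z₀', -, h2, -, -⟩ ⟨z, hz, e⟩
    obtain ⟨z', hz'⟩ := TI_total h2 z
    have := g_valid x'.2.ctx x'.2.2 (TI_valid x.2.ok x'.2.ok hz hz')
    exact ⟨⟨gr M x'.1 z', (PT_orb.1 this).1⟩, z, z', hz, hz', e, rfl⟩
  I_rigid := by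
    rintro x y y' ⟨z, z', h1, h2, e, e'⟩
    rw [TI_rigid x.2.ok h1 h2] at e'
    exact Subtype.ext (e.trans e'.symm)
  I_res := by
    rintro x x' ⟨y, hy⟩ ⟨y', hy'⟩ z ⟨r, r', h1, h2, e, e'⟩ ⟨s, hs, f⟩
    dsimp only at e e' hs f
    subst e e'
    have hr' := TI_valid x.2.ok x'.2.ok h1 h2
    have hs' : S.PT (tyE M (sty M x.1) r) s := by rw [← St.sty_gr h1]; exact hs
    obtain ⟨s', k1, k2⟩ := TI_res x.2.ok x'.2.ok h1 h2 hs'
    have k3 := TI_valid (tyE_ok x.2.ok h1) (tyE_ok x'.2.ok hr') hs' k1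
    have k4 := gr_valid x'.2.ok hr' k3
    have := g_valid x'.2.ctx x'.2.2 k4
    refine ⟨⟨gr M x'.1 (gr M r' s'), (PT_orb.1 this).1⟩,
      ⟨_, _, gr_valid x.2.ok h1 hs', k2, f.trans (g_assoc x.2.ctx x.2.2 h1 hs'), rfl⟩,
      s, s', hs, ?_, f, (g_assoc x'.2.ctx x'.2.2 hr' k3).symm⟩
    dsimp only
    rw [St.sty_gr h1, St.sty_gr hr']
    exact k1

theorem exists_T (S : LS M X) [Finite M] [Finite X] :
    ∃ (T : Type) (_ : Monoid T), Finite T ∧ Reg T ∧ HTriv T ∧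
      ∃ φ : M →* T, ∀ a b, φ a = φ b → ∃ c, a = b * c := by
  have : Finite {x : X × Tl X // S.St x} := St_finite
  have hloc : ∀ (a : M) (x : {x : X × Tl X // S.St x}),
      ∃ r, S.Good (sty M x.1) (sty M (S.act a x.1)) r ∧
        ∀ z, S.PT (sty M x.1) z → S.act a (gr M x.1 z) = gr M (S.act a x.1) (r z) := by
    intro a x
    obtain ⟨r, h1, h2⟩ := locM x.2.ctx x.2.2 (u := a • x.1.1) ⟨a, rfl⟩
    exact ⟨r, h1, fun z hz => h2 z hz _ ⟨a, rfl, rfl⟩⟩
  obtain ⟨T, inst, h1, h2, h3, φ, h4⟩ := S.frame.exists_hom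
    (fun (a : M) x => ⟨S.act a x.1, (valid_act x.2 a).1⟩)
    (fun x => Subtype.ext (act_fix x.2 (one_smul _ _)))
    (fun a b x => Subtype.ext (act_act x.2 b a).symm)
    (fun a x => by
      obtain ⟨r, ⟨-, s, hs, k⟩, h⟩ := hloc a x
      refine ⟨⟨gr M x.1 s, (PT_orb.1 (g_valid x.2.ctx x.2.2 hs)).1⟩, ⟨s, hs, rfl⟩, ?_⟩
      rintro y ⟨z, hz, e⟩
      have hz' : S.PT (tyE M (sty M x.1) s) z := by rw [← St.sty_gr hs]; exact hz
      refine ⟨z, r (gr M s z), hz, ?_, e, ?_⟩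
      · dsimp only
        rw [St.sty_gr hs]; exact k z hz'
      · dsimp only
        rw [← h _ (gr_valid x.2.ok hs hz'), e]
        exact congrArg _ (g_assoc x.2.ctx x.2.2 hs hz'))
    (fun a x y ⟨z, hz, e⟩ => by
      obtain ⟨r, ⟨k, -⟩, h⟩ := hloc a x
      exact ⟨r z, k z hz, (congrArg (S.act a) e).trans (h z hz)⟩)
  refine ⟨T, inst, h1, h2, h3, φ, fun a b h => S.faith a b ?_⟩
  have e := congrArg (fun x => x.1.1) (h4 a b h S.frame.top)
  change (S.mv .top _ (a • S.rep S.top)).1 = (S.mv .top _ (b • S.rep S.top)).1 at e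
  rw [mv_top, mv_top] at e
  have hr := rep_spec S.top_mem
  have ha := rep_spec (S.P_smul hr.1 a)
  have hb := rep_spec (S.P_smul hr.1 b)
  dsimp only at e
  rw [e] at ha
  exact le_trans (hr.2.2.smul a) (le_trans ha.2.2 (le_trans hb.2.1 (hr.2.1.smul b)))

end LS

end Pool.Agent.P.MP_9ca27c_lc
end

-- part Pool.Agent.P.MP_9ca27c_lc.Main
section

/-! Embedding theorem for semigroups, the classes obtained by Birkhoff operators, decidability. -/

namespace Pool.Agent.P.MP_9ca27c_lc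

open Set

theorem htriv_iff (S : Type) [Semigroup S] :
    HTriv S ↔ ∀ G : Set S, IsSubgroup G → G.Subsingleton := by
  constructor
  · rintro h G ⟨-, e, he, hG⟩
    have key : ∀ a ∈ G, a = e := fun a ha => by
      obtain ⟨h1, h2, b, -, h3, h4⟩ := hG a ha
      exact h e a b (hG e he).1 h1 h2 h3 h4
    intro a ha b hb
    rw [key a ha, key b hb]
  · intro h e a b h1 h2 h3 h4 h5
    refine h {x | e * x = x ∧ x * e = x ∧ ∃ y, x * y = e ∧ y * x = e} ⟨?_, e, ⟨h1, h1, e, h1, h1⟩, ?_⟩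
      ⟨h2, h3, b, h4, h5⟩ ⟨h1, h1, e, h1, h1⟩
    · rintro x ⟨k1, k2, y, k3, k4⟩ x' ⟨l1, l2, y', l3, l4⟩
      refine ⟨by rw [← mul_assoc, k1], by rw [mul_assoc, l2], y' * y, ?_, ?_⟩
      · rw [mul_assoc, ← mul_assoc x', l3, ← mul_assoc, k2, k3]
      · rw [mul_assoc, ← mul_assoc y, k4, l1, l4]
    · rintro x ⟨k1, k2, y, k3, k4⟩
      have e1 : x * (e * y * e) = e := by rw [← mul_assoc, ← mul_assoc, k2, k3, h1]
      have e2 : e * y * e * x = e := by rw [mul_assoc, k1, mul_assoc, k4, h1]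
      exact ⟨k1, k2, e * y * e, ⟨by rw [← mul_assoc, ← mul_assoc, h1], by rw [mul_assoc, h1],
        x, e2, e1⟩, e1, e2⟩

theorem HTriv.pow {M : Type} [Monoid M] [Finite M] (h : HTriv M) (r : M) :
    ∃ k, r ^ k = r ^ (k + 1) := by
  obtain ⟨i, j, hij, e⟩ := Finite.exists_ne_map_eq_of_infinite fun n : ℕ => r ^ n
  wlog hlt : i < j generalizing i j
  · exact this j i hij.symm e.symm (by omega)
  obtain ⟨p, rfl⟩ : ∃ p, j = i + (p + 1) := ⟨j - i - 1, by omega⟩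
  have e' : r ^ i = r ^ (i + (p + 1)) := e
  have per : ∀ c d, r ^ (i + d + c * (p + 1)) = r ^ (i + d) := by
    intro c d
    induction c with
    | zero => simp
    | succ c ih =>
      rw [show i + d + (c + 1) * (p + 1) = i + (p + 1) + (d + c * (p + 1)) by ring, pow_add, ← e',
        ← pow_add, ← add_assoc, ih]
  set N := (i + 1) * (p + 1) with hN
  obtain ⟨d, hd⟩ : ∃ d, N = i + d + 1 := ⟨i * p + p, by rw [hN]; ring⟩
  have per' : ∀ c, r ^ (N + c + N) = r ^ (N + c) := fun c => by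
    have := per (i + 1) (d + 1 + c)
    rwa [← hN, show i + (d + 1 + c) = N + c by omega] at this
  refine ⟨N, (h (r ^ N) (r ^ (N + 1)) (r ^ (N + (i + d))) ?_ ?_ ?_ ?_ ?_).symm⟩
  · rw [← pow_add]; exact per' 0
  · rw [← pow_add, add_comm, per']
  · rw [← pow_add, per']
  · rw [← pow_add, show N + 1 + (N + (i + d)) = N + N + N by omega, per']; exact per' 0
  · rw [← pow_add, show N + (i + d) + (N + 1) = N + N + N by omega, per']; exact per' 0

theorem eq_of_pow {N : Type} [Monoid N] {e a b : N} {k : ℕ} (h : a ^ k = a ^ (k + 1))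
    (h1 : e * e = e) (h2 : e * a = a) (h3 : a * e = a) (h5 : b * a = e) : a = e := by
  have k1 : ∀ j, b ^ j * a ^ (j + 1) = a := by
    intro j
    induction j with
    | zero => simp
    | succ j ih =>
      rw [pow_succ b, pow_succ' a, mul_assoc, ← mul_assoc b, h5, pow_succ' a, ← mul_assoc e, h2,
        ← pow_succ', ih]
  have k2 : ∀ j, e * a ^ j * e = a ^ j * e := by
    intro j
    cases j with
    | zero => simp [h1]
    | succ j => rw [pow_succ', ← mul_assoc e, h2]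
  have k3 : ∀ j, b ^ j * (a ^ j * e) = e := by
    intro j
    induction j with
    | zero => simp
    | succ j ih =>
      rw [pow_succ b, pow_succ' a, mul_assoc, mul_assoc, ← mul_assoc b, h5, ← mul_assoc e, k2, ih]
  rw [← k3 k, h, pow_succ a, mul_assoc, h3, ← pow_succ, k1]

theorem HTriv.withOne {S : Type} [Semigroup S] (h : HTriv S) : HTriv (WithOne S) := by
  intro e a b h1 h2 h3 h4 h5
  induction b using WithOne.recOneCoe with
  | one => simpa using h4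
  | coe b =>
    induction a using WithOne.recOneCoe with
    | one =>
      rw [mul_one] at h2
      exact h2.symm
    | coe a =>
      subst h4
      norm_cast at h1 h2 h3 h5 ⊢
      exact h _ a b h1 h2 h3 rfl h5

instance finite_withOne {S : Type} [Finite S] : Finite (WithOne S) :=
  inferInstanceAs (Finite (Option S))

theorem HTriv.image {S T : Type} [Semigroup S] [Semigroup T] [Finite S] (h : HTriv S)
    (f : S →ₙ* T) (hf : Function.Surjective f) : HTriv T := by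
  intro e a b h1 h2 h3 _ h5
  obtain ⟨a', rfl⟩ := hf a
  obtain ⟨k, hk⟩ := h.withOne.pow (a' : WithOne S)
  have := congrArg (WithOne.mapMulHom f) hk
  rw [map_pow, map_pow, WithOne.mapMulHom_coe] at this
  exact WithOne.coe_inj.1 (eq_of_pow (e := (e : WithOne T)) (b := (b : WithOne T)) this
    (by norm_cast) (by norm_cast) (by norm_cast) (by norm_cast))

theorem HTriv.sub {S T : Type} [Mul S] [Mul T] (h : HTriv S)
    (f : T →ₙ* S) (hf : Function.Injective f) : HTriv T := by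
  intro e a b h1 h2 h3 h4 h5
  exact hf (h (f e) (f a) (f b) (by rw [← map_mul, h1]) (by rw [← map_mul, h2])
    (by rw [← map_mul, h3]) (by rw [← map_mul, h4]) (by rw [← map_mul, h5]))

theorem HTriv.pi {ι : Type} {A : ι → Type} [∀ i, Mul (A i)] (h : ∀ i, HTriv (A i)) :
    HTriv (∀ i, A i) := fun e a b h1 h2 h3 h4 h5 =>
  funext fun i => h i (e i) (a i) (b i) (congrFun h1 i) (congrFun h2 i) (congrFun h3 i)
    (congrFun h4 i) (congrFun h5 i)

theorem Reg.image {S T : Type} [Mul S] [Mul T] (h : Reg S)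
    (f : S →ₙ* T) (hf : Function.Surjective f) : Reg T := by
  intro a
  obtain ⟨a', rfl⟩ := hf a
  obtain ⟨x, hx⟩ := h a'
  exact ⟨f x, by rw [← map_mul, ← map_mul, hx]⟩

theorem Reg.pi {ι : Type} {A : ι → Type} [∀ i, Mul (A i)] (h : ∀ i, Reg (A i)) :
    Reg (∀ i, A i) := fun a => ⟨fun i => (h i (a i)).choose, funext fun i => (h i (a i)).choose_spec⟩

theorem one_sided (M : Type) [Monoid M] [Finite M] (h : ∀ r : M, ∃ k, r ^ k = r ^ (k + 1)) :
    ∃ (T : Type) (_ : Monoid T), Finite T ∧ Reg T ∧ HTriv T ∧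
      ∃ φ : M →* T, ∀ a b, φ a = φ b → ∃ c, a = b * c := by
  obtain ⟨X, inst, hX, ⟨S⟩⟩ := exists_LS h
  exact S.exists_T

theorem embed_monoid (M : Type) [Monoid M] [Finite M] (h : HTriv M) :
    ∃ (T : Type) (_ : Monoid T), Finite T ∧ Reg T ∧ HTriv T ∧
      ∃ φ : M →* T, Function.Injective φ := by
  have : Finite Mᵐᵒᵖ := Finite.of_equiv _ MulOpposite.opEquiv
  obtain ⟨T₁, _, f1, r1, t1, φ₁, h1⟩ := one_sided M h.pow
  obtain ⟨T₂, _, f2, r2, t2, φ₂, h2⟩ := one_sided Mᵐᵒᵖ fun r => by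
    obtain ⟨k, hk⟩ := h.pow r.unop
    exact ⟨k, MulOpposite.unop_injective (by simpa only [MulOpposite.unop_pow] using hk)⟩
  have : Finite T₂ᵐᵒᵖ := Finite.of_equiv _ MulOpposite.opEquiv
  refine ⟨T₁ × T₂ᵐᵒᵖ, inferInstance, inferInstance, ?_, ?_,
    φ₁.prod ((MonoidHom.op φ₂).comp (MulEquiv.opOp M).toMonoidHom), ?_⟩
  · rintro ⟨a, b⟩
    obtain ⟨x, hx⟩ := r1 a
    obtain ⟨y, hy⟩ := r2 b.unop
    refine ⟨(x, MulOpposite.op y), Prod.ext hx (MulOpposite.unop_injective ?_)⟩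
    simpa [mul_assoc] using hy
  · intro e a b k1 k2 k3 k4 k5
    refine Prod.ext (t1 e.1 a.1 b.1 (congrArg Prod.fst k1) (congrArg Prod.fst k2)
      (congrArg Prod.fst k3) (congrArg Prod.fst k4) (congrArg Prod.fst k5))
      (MulOpposite.unop_injective (t2 e.2.unop a.2.unop b.2.unop ?_ ?_ ?_ ?_ ?_))
    · exact congrArg (fun x => x.2.unop) k1
    · exact congrArg (fun x => x.2.unop) k3
    · exact congrArg (fun x => x.2.unop) k2
    · exact congrArg (fun x => x.2.unop) k5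
    · exact congrArg (fun x => x.2.unop) k4
  · intro a b hab
    obtain ⟨c, hc⟩ := h1 b a (congrArg Prod.fst hab).symm
    obtain ⟨d, hd⟩ := h2 (MulOpposite.op a) (MulOpposite.op b)
      (congrArg (fun x => x.2.unop) hab)
    have hd' : a = d.unop * b := congrArg MulOpposite.unop hd
    have key : ∀ n, a = d.unop ^ n * a * c ^ n := by
      intro n
      induction n with
      | zero => simp
      | succ n ih =>
        rw [pow_succ, pow_succ', mul_assoc _ _ a, mul_assoc, mul_assoc, ← mul_assoc a, ← hc,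
          ← mul_assoc _ b, ← hd', ← mul_assoc]
        exact ih
    obtain ⟨k, hk⟩ := h.pow c
    rw [hc, key k, mul_assoc _ (c ^ k), ← pow_succ, ← hk]

/-- the class of finite aperiodic semigroups -/
def Ap : Cls := fun S _ => Finite S ∧ HTriv S

theorem regAp_iff (S : Type) [Semigroup S] : RegAp S ↔ Finite S ∧ Reg S ∧ HTriv S := by
  rw [htriv_iff]; rfl

theorem embed (S : Type) [Semigroup S] (h : Ap S) :
    ∃ (A : Type) (_ : Semigroup A), RegAp A ∧ ∃ f : S →ₙ* A, Function.Injective f := by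
  have := h.1
  obtain ⟨T, inst, h1, h2, h3, φ, h4⟩ := embed_monoid (WithOne S) h.2.withOne
  exact ⟨T, inferInstance, (regAp_iff T).2 ⟨h1, h2, h3⟩, φ.toMulHom.comp WithOne.coeMulHom,
    h4.comp fun a b e => WithOne.coe_inj.1 e⟩

theorem cls_ext {Φ Ψ : Cls} (h : ∀ (S : Type) [Semigroup S], Φ S ↔ Ψ S) : Φ = Ψ := by
  funext S inst
  exact propext (h S)

theorem pi_unique (T : Type) [Semigroup T] : Nonempty (T ≃* ∀ _ : Fin 1, T) :=
  ⟨(MulEquiv.piUnique fun _ : Fin 1 => T).symm⟩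

theorem apply_cases (o : Op) {Φ : Cls} (h : Φ = RegAp ∨ Φ = Ap) :
    o.apply Φ = RegAp ∨ o.apply Φ = Ap := by
  rcases h with rfl | rfl
  · cases o with
    | image =>
      refine Or.inl (cls_ext fun T _ => ⟨?_, fun h => ⟨T, _, h, MulHom.id T, fun x => ⟨x, rfl⟩⟩⟩)
      rintro ⟨A, _, hA, f, hf⟩
      obtain ⟨h1, h2, h3⟩ := (regAp_iff A).1 hA
      exact (regAp_iff T).2 ⟨Finite.of_surjective f hf, h2.image f hf, h3.image f hf⟩
    | sub =>
      refine Or.inr (cls_ext fun T _ => ⟨?_, embed T⟩)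
      rintro ⟨A, _, hA, f, hf⟩
      obtain ⟨h1, -, h3⟩ := (regAp_iff A).1 hA
      exact ⟨Finite.of_injective f hf, h3.sub f hf⟩
    | prod =>
      refine Or.inl (cls_ext fun T _ => ⟨?_, fun h => ⟨1, fun _ => T, _, fun _ => h, pi_unique T⟩⟩)
      rintro ⟨n, A, _, hA, ⟨e⟩⟩
      have h := fun i => (regAp_iff (A i)).1 (hA i)
      have := fun i => (h i).1
      exact (regAp_iff T).2 ⟨Finite.of_injective e e.injective,
        (Reg.pi fun i => (h i).2.1).image e.symm.toMulHom e.symm.surjective,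
        (HTriv.pi fun i => (h i).2.2).sub e.toMulHom e.injective⟩
  · refine Or.inr (cls_ext fun T _ => ?_)
    cases o with
    | image =>
      refine ⟨?_, fun h => ⟨T, _, h, MulHom.id T, fun x => ⟨x, rfl⟩⟩⟩
      rintro ⟨A, _, ⟨h1, h3⟩, f, hf⟩
      exact ⟨Finite.of_surjective f hf, h3.image f hf⟩
    | sub =>
      refine ⟨?_, fun h => ⟨T, _, h, MulHom.id T, fun x y e => e⟩⟩
      rintro ⟨A, _, ⟨h1, h3⟩, f, hf⟩
      exact ⟨Finite.of_injective f hf, h3.sub f hf⟩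
    | prod =>
      refine ⟨?_, fun h => ⟨1, fun _ => T, _, fun _ => h, pi_unique T⟩⟩
      rintro ⟨n, A, _, hA, ⟨e⟩⟩
      have := fun i => (hA i).1
      exact ⟨Finite.of_injective e e.injective,
        (HTriv.pi fun i => (hA i).2).sub e.toMulHom e.injective⟩

theorem foldr_cases (K : List Op) :
    K.foldr Op.apply RegAp = RegAp ∨ K.foldr Op.apply RegAp = Ap := by
  induction K with
  | nil => exact Or.inl rfl
  | cons o K ih => exact apply_cases o ih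

section Decide

def ent (L : List (List ℕ)) (i j : ℕ) : ℕ := (L.getD i []).getD j 0

theorem ent_primrec {β : Type} [Primcodable β] {L : β → List (List ℕ)} {i j : β → ℕ}
    (hL : Primrec L) (hi : Primrec i) (hj : Primrec j) :
    Primrec fun b => ent (L b) (i b) (j b) :=
  (Primrec.list_getD 0).comp ((Primrec.list_getD []).comp hL hi) hj

theorem ball_primrec {β : Type} [Primcodable β] {R : ℕ → β → Prop} (hR : PrimrecRel R)
    {g : β → ℕ} (hg : Primrec g) : PrimrecPred fun b => ∀ x < g b, R x b :=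
  (hR.forall_mem_list.comp (Primrec.list_range.comp hg) Primrec.id).of_eq fun b => by simp

theorem bex_primrec {β : Type} [Primcodable β] {R : ℕ → β → Prop} (hR : PrimrecRel R)
    {g : β → ℕ} (hg : Primrec g) : PrimrecPred fun b => ∃ x < g b, R x b :=
  (hR.exists_mem_list.comp (Primrec.list_range.comp hg) Primrec.id).of_eq fun b => by simp

def RegL (L : List (List ℕ)) : Prop :=
  ∀ a < L.length, ∃ x < L.length, ent L (ent L a x) a = a

def HL (L : List (List ℕ)) : Prop :=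
  ∀ e < L.length, ∀ a < L.length, ∀ b < L.length,
    ¬ (ent L e e = e ∧ ent L e a = a ∧ ent L a e = a ∧ ent L a b = e ∧ ent L b a = e) ∨ a = e

theorem RegL_primrec : PrimrecPred RegL := by
  refine ball_primrec (R := fun a L => ∃ x < L.length, ent L (ent L a x) a = a) ?_
    Primrec.list_length
  refine bex_primrec (β := ℕ × List (List ℕ))
    (R := fun x p => ent p.2 (ent p.2 p.1 x) p.1 = p.1) ?_ (Primrec.list_length.comp Primrec.snd)
  have hL : Primrec fun q : ℕ × ℕ × List (List ℕ) => q.2.2 := Primrec.snd.comp Primrec.snd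
  have ha : Primrec fun q : ℕ × ℕ × List (List ℕ) => q.2.1 := Primrec.fst.comp Primrec.snd
  exact Primrec.eq.comp (ent_primrec hL (ent_primrec hL ha Primrec.fst) ha) ha

theorem HL_primrec : PrimrecPred HL := by
  refine ball_primrec (R := fun e L => ∀ a < L.length, ∀ b < L.length,
    ¬ (ent L e e = e ∧ ent L e a = a ∧ ent L a e = a ∧ ent L a b = e ∧ ent L b a = e) ∨ a = e) ?_
    Primrec.list_length
  refine ball_primrec (β := ℕ × List (List ℕ)) (R := fun a p => ∀ b < p.2.length,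
    ¬ (ent p.2 p.1 p.1 = p.1 ∧ ent p.2 p.1 a = a ∧ ent p.2 a p.1 = a ∧ ent p.2 a b = p.1 ∧
      ent p.2 b a = p.1) ∨ a = p.1) ?_ (Primrec.list_length.comp Primrec.snd)
  refine ball_primrec (β := ℕ × ℕ × List (List ℕ)) (R := fun b p =>
    ¬ (ent p.2.2 p.2.1 p.2.1 = p.2.1 ∧ ent p.2.2 p.2.1 p.1 = p.1 ∧ ent p.2.2 p.1 p.2.1 = p.1 ∧
      ent p.2.2 p.1 b = p.2.1 ∧ ent p.2.2 b p.1 = p.2.1) ∨ p.1 = p.2.1) ?_
    (Primrec.list_length.comp (Primrec.snd.comp Primrec.snd))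
  have hL : Primrec fun q : ℕ × ℕ × ℕ × List (List ℕ) => q.2.2.2 :=
    Primrec.snd.comp (Primrec.snd.comp Primrec.snd)
  have he : Primrec fun q : ℕ × ℕ × ℕ × List (List ℕ) => q.2.2.1 :=
    Primrec.fst.comp (Primrec.snd.comp Primrec.snd)
  have ha : Primrec fun q : ℕ × ℕ × ℕ × List (List ℕ) => q.2.1 := Primrec.fst.comp Primrec.snd
  have hb : Primrec fun q : ℕ × ℕ × ℕ × List (List ℕ) => q.1 := Primrec.fst
  exact ((Primrec.eq.comp (ent_primrec hL he he) he).and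
    ((Primrec.eq.comp (ent_primrec hL he ha) ha).and
    ((Primrec.eq.comp (ent_primrec hL ha he) ha).and
    ((Primrec.eq.comp (ent_primrec hL ha hb) he).and
    (Primrec.eq.comp (ent_primrec hL hb ha) he))))).not.or (Primrec.eq.comp ha he)

variable {T : Type} [Semigroup T] {n : ℕ} (e : Fin n ≃ T)

def table : List (List ℕ) := List.ofFn fun i => List.ofFn fun j => (e.symm (e i * e j)).val

theorem table_length : (table e).length = n := List.length_ofFn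

theorem ent_table (a b : T) : ent (table e) (e.symm a) (e.symm b) = e.symm (a * b) := by
  simp [ent, table]

theorem forall_table {p : ℕ → Prop} : (∀ a < (table e).length, p a) ↔ ∀ a : T, p (e.symm a) := by
  rw [table_length]
  exact ⟨fun h a => h _ (e.symm a).2, fun h a ha => by simpa using h (e ⟨a, ha⟩)⟩

theorem exists_table {p : ℕ → Prop} : (∃ a < (table e).length, p a) ↔ ∃ a : T, p (e.symm a) := by
  rw [table_length]
  exact ⟨fun ⟨a, ha, h⟩ => ⟨e ⟨a, ha⟩, by simpa using h⟩, fun ⟨a, h⟩ => ⟨_, (e.symm a).2, h⟩⟩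

theorem RegL_table : RegL (table e) ↔ Reg T := by
  simp only [RegL, forall_table, exists_table, ent_table, Fin.val_inj, Equiv.apply_eq_iff_eq, Reg]

theorem HL_table : HL (table e) ↔ HTriv T := by
  simp only [HL, forall_table, ent_table, Fin.val_inj, Equiv.apply_eq_iff_eq, HTriv]
  refine forall₃_congr fun a b c => ?_
  tauto

end Decide

theorem recursive_regAp : Recursive RegAp := by
  obtain ⟨inst, h⟩ := (RegL_primrec.and HL_primrec).computablePred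
  refine ⟨_, h, fun T _ n e => ?_⟩
  rw [decide_eq_true_iff, regAp_iff]
  exact (and_congr (RegL_table e) (HL_table e)).trans
    ⟨fun h => ⟨Finite.of_equiv _ e, h⟩, fun h => h.2⟩

theorem recursive_Ap : Recursive Ap := by
  obtain ⟨inst, h⟩ := HL_primrec.computablePred
  refine ⟨_, h, fun T _ n e => ?_⟩
  rw [decide_eq_true_iff]
  exact (HL_table e).trans ⟨fun h => ⟨Finite.of_equiv _ e, h⟩, fun h => h.2⟩

theorem main (K : List Op) : Recursive (K.foldr Op.apply RegAp) := by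
  rcases foldr_cases K with h | h <;> rw [h]
  · exact recursive_regAp
  · exact recursive_Ap

end Pool.Agent.P.MP_9ca27c_lc
end
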